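import Pool.Agent.X243.Gen.Main

/-!
Pairs `(a, b)` of polynomials over a finitely generated ring: the conditions on `b` and
`a ^ 3 - 27 b` at maximal ideals with residue fields of characteristic different from three.
-/

set_option autoImplicit false
set_option linter.all false

open Polynomial
open scoped Classical

namespace Pool.Agent.N181.T3

open Pool.Agent.X243.Tate Pool.Agent.X243.Sol Pool.Agent.X243.Gen Pool.Agent.Y160.T3

section ideals

/-- The maximal ideals with large residue fields of characteristic different from three. -/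
def Zh (R : Type) [CommRing R] (B : ℕ) : Set (Ideal R) :=
  {m | m.IsMaximal ∧ Finite (R ⧸ m) ∧ B ≤ Nat.card (R ⧸ m) ∧ (3 : R) ∉ m}

theorem Zh_inf (R : Type) [CommRing R] [IsDomain R] [Algebra.FiniteType ℤ R] (hR : ¬ IsField R)
    (h3 : (3 : R) ≠ 0) (B : ℕ) : (Zh R B).Infinite := by
  intro hfin
  haveI := jacobson_int
  haveI : IsJacobsonRing R := isJacobsonRing_of_finiteType (A := ℤ)
  haveI : Infinite R := by
    by_contra h
    rw [not_infinite_iff_finite] at h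
    exact hR (Finite.isField_of_domain R)
  -- an element in all the ideals with small residue fields
  obtain ⟨b, hb⟩ : ∃ b : R, ∏ q ∈ Finset.Ico 2 B, (b ^ q - b) ≠ 0 := by
    obtain ⟨P, hP⟩ : ∃ P : Polynomial R, P = ∏ q ∈ Finset.Ico 2 B,
      (Polynomial.X ^ q - Polynomial.X) := ⟨_, rfl⟩
    have hP0 : P ≠ 0 := by
      rw [hP, Finset.prod_ne_zero_iff]
      intro q hq h0
      have hq2 := (Finset.mem_Ico.1 hq).1
      have h1 := congrArg (fun f : Polynomial R => f.coeff q) h0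
      simp only [Polynomial.coeff_sub, Polynomial.coeff_X_pow_self, Polynomial.coeff_zero] at h1
      rw [Polynomial.coeff_X_of_ne_one (by omega), sub_zero] at h1
      exact one_ne_zero h1
    obtain ⟨b, hb⟩ := Infinite.exists_notMem_finset P.roots.toFinset
    refine ⟨b, fun h0 => hb ?_⟩
    rw [Multiset.mem_toFinset, Polynomial.mem_roots hP0, Polynomial.IsRoot.def, hP,
      Polynomial.eval_prod]
    simp only [Polynomial.eval_sub, Polynomial.eval_pow, Polynomial.eval_X]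
    exact h0
  have hne : ∀ m ∈ Zh R B, ∃ x ∈ m, x ≠ 0 := by
    intro m hm
    have h1 : m ≠ ⊥ := by
      rintro rfl
      exact hR (Ring.isField_iff_maximal_bot.2 hm.1)
    obtain ⟨x, hx, hx0⟩ := Submodule.exists_mem_ne_zero_of_ne_bot h1
    exact ⟨x, hx, hx0⟩
  choose! x hx hx0 using hne
  obtain ⟨c, hc⟩ : ∃ c : R, c = 3 * (∏ q ∈ Finset.Ico 2 B, (b ^ q - b)) *
    ∏ m ∈ hfin.toFinset, x m := ⟨_, rfl⟩
  have hc0 : c ≠ 0 := by
    rw [hc]
    refine mul_ne_zero (mul_ne_zero h3 hb) ?_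
    rw [Finset.prod_ne_zero_iff]
    intro m hm
    exact hx0 m (hfin.mem_toFinset.1 hm)
  apply hc0
  have hall : ∀ m : Ideal R, m.IsMaximal → c ∈ m := by
    intro m hm
    haveI := hm
    haveI : Finite (R ⧸ m) := residue_finite R m
    by_cases h3 : (3 : R) ∈ m
    · rw [hc]
      exact m.mul_mem_right _ (m.mul_mem_right _ h3)
    by_cases h4 : B ≤ Nat.card (R ⧸ m)
    · have h5 : m ∈ Zh R B := ⟨hm, inferInstance, h4, h3⟩
      rw [hc]
      refine m.mul_mem_left _ ?_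
      rw [← Finset.mul_prod_erase _ _ (hfin.mem_toFinset.2 h5)]
      exact m.mul_mem_right _ (hx m h5)
    · rw [hc]
      refine m.mul_mem_right _ (m.mul_mem_left _ ?_)
      letI : Field (R ⧸ m) := Ideal.Quotient.field m
      letI := Fintype.ofFinite (R ⧸ m)
      have h5 : Nat.card (R ⧸ m) ∈ Finset.Ico 2 B := by
        rw [Finset.mem_Ico]
        refine ⟨?_, by omega⟩
        rw [Nat.card_eq_fintype_card]
        exact Fintype.one_lt_card
      rw [← Finset.mul_prod_erase _ _ h5]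
      refine m.mul_mem_right _ ?_
      rw [← Ideal.Quotient.eq, map_pow, Nat.card_eq_fintype_card, FiniteField.pow_card]
  have hJ : IsJacobsonRing R := inferInstance
  have hbot : (⊥ : Ideal R).jacobson = ⊥ := hJ.out Ideal.isRadical_bot
  have h6 : c ∈ (⊥ : Ideal R).jacobson := by
    rw [Ideal.jacobson, Ideal.mem_sInf]
    rintro m ⟨-, hm⟩
    exact hall m hm
  rw [hbot] at h6
  exact h6

theorem Zh_27 {R : Type} [CommRing R] {B : ℕ} {p : Ideal R} (hp : p ∈ Zh R B) :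
    (-27 : R ⧸ p) ≠ 0 := by
  haveI := hp.1
  have h3 : (3 : R ⧸ p) ≠ 0 := by
    rw [← map_ofNat (Ideal.Quotient.mk p) 3, Ne, Ideal.Quotient.eq_zero_iff_mem]
    exact hp.2.2.2
  rw [neg_ne_zero, show (27 : R ⧸ p) = 3 ^ 3 by norm_num]
  exact pow_ne_zero 3 h3

end ideals

section coef

variable {R S : Type} [CommRing R] [CommRing S]

/-- The coefficients of `b`, or of `a ^ 3 - 27 b`. -/
noncomputable def cf3 (s : Bool) {R : Type} [CommRing R] {m N : ℕ}
    (z : Fin (m + 1) ⊕ Fin (N + 1) → R) : Fin (N + 1) → R :=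
  fun j => (if s then 0 else ((bF (z ∘ Sum.inl)) ^ 3).coeff j) +
    (if s then 1 else -27) * z (Sum.inr j)

/-- `b` or `a ^ 3 - 27 b`. -/
noncomputable def pol3 (s : Bool) {m N : ℕ} (z : Fin (m + 1) ⊕ Fin (N + 1) → R) : R[X] :=
  if s then bF (z ∘ Sum.inr) else (bF (z ∘ Sum.inl)) ^ 3 - 27 * bF (z ∘ Sum.inr)

theorem pol3_nd (s : Bool) {m N : ℕ} (hmN : 3 * m ≤ N) (z : Fin (m + 1) ⊕ Fin (N + 1) → R) :
    (pol3 s z).natDegree ≤ N := by
  rw [pol3]
  split_ifs
  · exact bF_nd _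
  · refine (natDegree_sub_le _ _).trans (max_le ?_ ?_)
    · refine natDegree_pow_le.trans ((Nat.mul_le_mul_left 3 (bF_nd _)).trans hmN)
    · have e4 : (27 : R[X]) = C 27 := rfl
      rw [e4]
      exact (natDegree_C_mul_le _ _).trans (bF_nd _)

theorem bF_cf3 (s : Bool) {m N : ℕ} (hmN : 3 * m ≤ N) (z : Fin (m + 1) ⊕ Fin (N + 1) → R) :
    bF (cf3 s z) = pol3 s z := by
  have h1 : cf3 s z = fun j : Fin (N + 1) => (pol3 s z).coeff j := by
    funext j
    rw [cf3, pol3]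
    have hb : (bF (z ∘ Sum.inr)).coeff (j : ℕ) = z (Sum.inr j) := bF_coeff (z ∘ Sum.inr) j
    split_ifs
    · rw [zero_add, one_mul, hb]
    · have e4 : (27 : R[X]) = C 27 := rfl
      rw [coeff_sub, e4, coeff_C_mul, hb]
      ring
  rw [h1]
  apply bF_of
  rw [degree_lt_iff_coeff_zero]
  intro j hj
  exact coeff_eq_zero_of_natDegree_lt (by have := pol3_nd s hmN z; omega)

theorem pol3_map (g : R →+* S) (s : Bool) {m N : ℕ} (z : Fin (m + 1) ⊕ Fin (N + 1) → R) :
    (pol3 s z).map g = pol3 s (fun j => g (z j)) := by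
  rw [pol3, pol3]
  split_ifs
  · rw [bF_map]; rfl
  · rw [Polynomial.map_sub, Polynomial.map_pow, Polynomial.map_mul, bF_map, bF_map,
      Polynomial.map_ofNat]
    rfl

end coef

section count

/-- The events. -/
def Gev33 (m N : ℕ) (s : Bool × Fin 3) (R : Type) [CommRing R] :
    Set (Fin (m + 1) ⊕ Fin (N + 1) → R) :=
  {z | cf3 s.1 z ∈ Ev R N s.2}

theorem Gev33_card {F : Type} [Field F] [Finite F] {m N : ℕ} (hN : 3 ≤ N)
    (hq : 2 * N + 2 ≤ Nat.card F) (h27 : (-27 : F) ≠ 0) (s : Bool × Fin 3) :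
    (1 / ((DD N : ℕ) : ℝ)) * (Nat.card F : ℝ) ^ (Fintype.card (Fin (m + 1) ⊕ Fin (N + 1))) ≤
      ((Gev33 m N s F).ncard : ℝ) := by
  haveI := Fintype.ofFinite F
  have hc : (if s.1 then (1 : F) else -27) ≠ 0 := by
    split_ifs
    · exact one_ne_zero
    · exact h27
  have h5 : Nat.card F ^ (N + 1) ≤ DD N * (Ev F N s.2).ncard := by
    rw [Nat.card_eq_fintype_card] at hq ⊢
    exact Ev_card hN hq s.2
  have hD : 0 < DD N := by
    have := D3_pos N
    unfold DD
    positivity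
  refine prop_ev (m := m) hD h5 ?_
  exact ncard_ev (F := F) (m := m) (N := N)
    (fun x j => if s.1 then 0 else ((bF x) ^ 3).coeff j) hc _

end count

section main

variable {R k : Type} [CommRing R] [IsDomain R] [IsIntegrallyClosed R] [IsNoetherianRing R]
  [Field k] [Algebra R k] [IsFractionRing R k]

theorem evH {N B : ℕ} (hN : 3 ≤ N) {G : R[X]} (hG : G.natDegree ≤ N)
    (hev : ∀ t : Fin 3, ∃ p ∈ Zh R B, ∃ w ∈ Ev (R ⧸ p) N t, bF w = G.map (Ideal.Quotient.mk p)) :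
    FF N (G.map (algebraMap R k)) := by
  obtain ⟨p0, z0, w0, e0, g0⟩ := hev 0
  obtain ⟨p1, z1, w1, e1, g1⟩ := hev 1
  obtain ⟨p2, z2, w2, e2, g2⟩ := hev 2
  have f0 : I1 N (bF w0) := e0
  have f1 : I2 N (bF w1) := e1
  have f2 : I3 N (bF w2) := e2
  rw [g0] at f0
  rw [g1] at f1
  rw [g2] at f2
  haveI := z0.1
  haveI := z1.1
  haveI := z2.1
  haveI := z0.2.1
  haveI := z1.2.1
  haveI := z2.2.1
  exact gen_full hN hG f0 f1 f2

theorem good3 {m N B : ℕ} (hmN : 3 * m ≤ N) (hN : 3 ≤ N)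
    {y : Fin (m + 1) ⊕ Fin (N + 1) → R}
    (h : ∀ s : Bool × Fin 3, ∃ p ∈ Zh R B, (fun j => Ideal.Quotient.mk p (y j)) ∈
      Gev33 m N s (R ⧸ p)) (a b : k[X])
    (ha : a = (bF (y ∘ Sum.inl)).map (algebraMap R k))
    (hb : b = (bF (y ∘ Sum.inr)).map (algebraMap R k)) :
    FF N b ∧ FF N (a ^ 3 - 27 * b) := by
  have key : ∀ s : Bool, FF N ((pol3 s y).map (algebraMap R k)) := by
    intro s
    refine evH (B := B) hN (pol3_nd s hmN y) (fun t => ?_)
    obtain ⟨p, hp, e⟩ := h (s, t)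
    refine ⟨p, hp, cf3 s (fun j => Ideal.Quotient.mk p (y j)), e, ?_⟩
    rw [bF_cf3 s hmN, pol3_map]
  have e1 : (pol3 true y).map (algebraMap R k) = b := by rw [hb]; rfl
  have e2 : (pol3 false y).map (algebraMap R k) = a ^ 3 - 27 * b := by
    rw [ha, hb, pol3]
    simp only [Bool.false_eq_true, if_false, Polynomial.map_sub, Polynomial.map_pow,
      Polynomial.map_mul, Polynomial.map_ofNat]
  have k1 := key true
  have k2 := key false
  rw [e1] at k1
  rw [e2] at k2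
  exact ⟨k1, k2⟩

theorem Gev33_G {m N : ℕ} (hN : 3 ≤ N) (s : Bool × Fin 3) {p : Ideal R}
    (hp : p ∈ Zh R (2 * N + 2)) :
    (1 / ((DD N : ℕ) : ℝ)) * (Nat.card (R ⧸ p) : ℝ) ^
      (Fintype.card (Fin (m + 1) ⊕ Fin (N + 1))) ≤ ((Gev33 m N s (R ⧸ p)).ncard : ℝ) := by
  haveI := hp.1
  letI : Field (R ⧸ p) := Ideal.Quotient.field p
  haveI : Finite (R ⧸ p) := hp.2.1
  exact Gev33_card hN hp.2.2.1 (Zh_27 hp) s

variable (R) in
theorem densThree [Algebra.FiniteType ℤ R] (hR : ¬ IsField R) (h3 : (3 : R) ≠ 0) {m N : ℕ}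
    (hN : 3 ≤ N) (η : ℝ) (hη : 0 < η) :
    ∃ M : Ideal R, Finite (R ⧸ M) ∧
      (1 - η) * (Nat.card (R ⧸ M) : ℝ) ^ (Fintype.card (Fin (m + 1) ⊕ Fin (N + 1))) ≤
      (({x : Fin (m + 1) ⊕ Fin (N + 1) → R ⧸ M | ∀ s : Bool × Fin 3,
        ∃ p ∈ Zh R (2 * N + 2), ∀ y : Fin (m + 1) ⊕ Fin (N + 1) → R,
          (∀ j, Ideal.Quotient.mk M (y j) = x j) →
          (fun j => Ideal.Quotient.mk p (y j)) ∈ Gev33 m N s (R ⧸ p)}).ncard : ℝ) := by
  refine densityG (Zh R (2 * N + 2)) (Zh_inf R hR h3 _) (fun p hp => hp.1) (fun p hp => hp.2.1)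
    (fun s p => Gev33 m N s (R ⧸ p)) (c := 1 / ((DD N : ℕ) : ℝ)) ?_ ?_ η hη
  · have hD : 0 < DD N := by
      have := D3_pos N
      unfold DD
      have h3 : 0 < 4 * N := by omega
      positivity
    have : (0 : ℝ) < ((DD N : ℕ) : ℝ) := by exact_mod_cast hD
    positivity
  · intro s p hp
    exact Gev33_G hN s hp

end main

end Pool.Agent.N181.T3
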