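import Pool.Agent.N181.T3.Glob

/-!
Irreducible polynomials which stay irreducible.
-/

set_option autoImplicit false
set_option linter.all false

open Polynomial
open scoped Classical

namespace Pool.Agent.N181.T3

theorem irr_of_map {k L : Type} [Field k] [Field L] (φ : k →+* L) {f : k[X]}
    (h : Irreducible (f.map φ)) : Irreducible f := by
  have hu : ∀ g : k[X], IsUnit (g.map φ) → IsUnit g := by
    intro g hg
    rw [isUnit_iff_degree_eq_zero] at hg ⊢
    rwa [degree_map] at hg
  refine ⟨fun h1 => h.not_isUnit (h1.map (mapRingHom φ)), fun a b e => ?_⟩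
  rcases h.isUnit_or_isUnit (a := a.map φ) (b := b.map φ) (by rw [e, Polynomial.map_mul]) with h1 | h1
  · exact Or.inl (hu a h1)
  · exact Or.inr (hu b h1)

theorem irr_of_stays {k k' : Type} [Field k] [Field k'] [Algebra k k'] {π : k[X]}
    (h : Stays k' π) : Irreducible π := by
  have h1 := h ⊥ inferInstance (by rw [IntermediateField.finrank_bot]; norm_num)
  exact irr_of_map _ h1

end Pool.Agent.N181.T3
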