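import Pool.Agent.N181.T3.Grp
import Pool.Agent.N181.T3.Irr
import Pool.Agent.X243.Gen.Three

/-!
Polynomials with full symmetric Galois group stay irreducible over extensions of degree at most three
of solvable extensions.
-/

set_option autoImplicit false
set_option linter.all false

open Polynomial
open scoped Classical

namespace Pool.Agent.N181.T3

open Pool.Agent.X243.Gen Pool.Agent.X243.Sol Pool.Agent.X243.Tate

section emb

variable (L L' : Type) [Field L] [Field L'] [Algebra L L']

/-- The action on the embeddings of an intermediate field. -/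
noncomputable def embPerm (k1 : IntermediateField L L') :
    (L' ≃ₐ[L] L') →* Equiv.Perm (k1 →ₐ[L] L') where
  toFun g :=
    { toFun := fun φ => (g : L' →ₐ[L] L').comp φ
      invFun := fun φ => (g.symm : L' →ₐ[L] L').comp φ
      left_inv := fun φ => AlgHom.ext fun x => g.symm_apply_apply _
      right_inv := fun φ => AlgHom.ext fun x => g.apply_symm_apply _ }
  map_one' := Equiv.ext fun φ => AlgHom.ext fun x => rfl
  map_mul' g h := Equiv.ext fun φ => AlgHom.ext fun x => rfl

theorem embPerm_ker {k1 : IntermediateField L L'} {g : L' ≃ₐ[L] L'}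
    (hg : g ∈ (embPerm L L' k1).ker) (x : k1) : g (x : L') = x := by
  rw [MonoidHom.mem_ker] at hg
  have h1 := congrArg (fun p : Equiv.Perm (k1 →ₐ[L] L') => (p k1.val) x) hg
  exact h1

end emb

section ext

variable {k : Type} [Field k]

theorem stays_gen {F : k[X]} (hF : F.Separable) (h5 : 5 ≤ F.natDegree) (hfull : FullG F)
    (L L' : Type) [Field L] [Field L'] [Algebra k L] [Algebra L L'] [Algebra k L']
    [IsScalarTower k L L'] [IsSepClosure L L'] (M : IntermediateField k L') [Normal k M]
    (hM : ∀ x : L, IsSeparable k x → algebraMap L L' x ∈ M)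
    (hns : ¬ (F.map (algebraMap k M)).Splits) :
    Stays L' (F.map (algebraMap k L)) := by
  intro k1 hfin hk1
  haveI : IsSepClosed L' := IsSepClosure.sep_closed L
  haveI : IsGalois L L' := IsSepClosure.isGalois
  have hsp := SplittingField.splits F
  haveI : FiniteDimensional k F.SplittingField := inferInstance
  haveI : IsGalois k F.SplittingField := IsGalois.of_separable_splitting_field hF
  obtain ⟨i, -⟩ : ∃ i : F.SplittingField →ₐ[k] L', i = i := ⟨IsSepClosed.lift, rfl⟩
  letI : Algebra F.SplittingField L' := i.toRingHom.toAlgebra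
  haveI : IsScalarTower k F.SplittingField L' :=
    IsScalarTower.of_algebraMap_eq fun x => (i.commutes x).symm
  have hsurj := hfull F.SplittingField hsp
  have hcard : Nat.card (F.rootSet F.SplittingField) = F.natDegree := by
    rw [Nat.card_eq_fintype_card, card_rootSet_eq_natDegree hF hsp]
  -- the homomorphism to the permutations of the roots
  let ρ : (L' ≃ₐ[L] L') →* (F.SplittingField ≃ₐ[k] F.SplittingField) :=
    (AlgEquiv.restrictNormalHom F.SplittingField).comp (AlgEquiv.restrictScalarsHom k)
  have hρ : ∀ (g : L' ≃ₐ[L] L') (x : F.SplittingField),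
      algebraMap F.SplittingField L' (ρ g x) = g (algebraMap F.SplittingField L' x) := by
    intro g x
    exact AlgEquiv.restrictNormal_commutes (g.restrictScalars k) F.SplittingField x
  have hr : alternatingGroup (F.rootSet F.SplittingField) ≤
      ((MulAction.toPermHom (F.SplittingField ≃ₐ[k] F.SplittingField)
        (F.rootSet F.SplittingField)).comp ρ).range := by
    intro c hc
    obtain ⟨σ, hσ, hc'⟩ := even_fix (F := F) (E := F.SplittingField) (L' := L') hsp hsurj
      (by rw [hcard]; exact h5) M hns c hc
    obtain ⟨g, hg⟩ := lift_fix' (L := L) (L' := L') M hM hσ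
    refine ⟨g, ?_⟩
    have h1 : ρ g = σ := by
      ext x
      apply (algebraMap F.SplittingField L').injective
      rw [hρ, hg]
    rw [MonoidHom.comp_apply, h1, hc']
  haveI : Finite (k1 →ₐ[L] L') := inferInstance
  have hcard3 : Nat.card (k1 →ₐ[L] L') ≤ 3 := by
    refine le_trans ?_ hk1
    exact card_algHom_le_finrank L k1 L'
  have hker := alt_ker (β := (k1 →ₐ[L] L')) (by rw [hcard]; exact h5) hcard3
    ((MulAction.toPermHom (F.SplittingField ≃ₐ[k] F.SplittingField)
        (F.rootSet F.SplittingField)).comp ρ) (embPerm L L' k1) hr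
  -- the polynomial over `k1`
  have hsepL : ((F.map (algebraMap k L)).map (algebraMap L k1)).Separable := hF.map.map
  have hmm : ((F.map (algebraMap k L)).map (algebraMap L k1)).map (algebraMap k1 L') =
      (F.map (algebraMap k F.SplittingField)).map (algebraMap F.SplittingField L') := by
    rw [Polynomial.map_map, Polynomial.map_map, Polynomial.map_map,
      ← IsScalarTower.algebraMap_eq L k1 L', ← IsScalarTower.algebraMap_eq k L L',
      ← IsScalarTower.algebraMap_eq k F.SplittingField L']
  have hsplL : (((F.map (algebraMap k L)).map (algebraMap L k1)).map (algebraMap k1 L')).Splits := by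
    rw [hmm]
    exact hsp.map _
  have hZ : ((F.map (algebraMap k L)).map (algebraMap L k1)).rootSet L' =
      (algebraMap F.SplittingField L') '' F.rootSet F.SplittingField := by
    rw [hsp.image_rootSet_algebraMap]
    ext x
    rw [mem_rootSet, mem_rootSet]
    have e : aeval x ((F.map (algebraMap k L)).map (algebraMap L k1)) = aeval x F := by
      rw [aeval_map_algebraMap, aeval_map_algebraMap]
    rw [e]
    exact ⟨fun h => ⟨hF.ne_zero, h.2⟩, fun h => ⟨hsepL.ne_zero, h.2⟩⟩
  have h3 : Three k1 (((F.map (algebraMap k L)).map (algebraMap L k1)).rootSet L') := by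
    intro x hx y hy hxy
    rw [hZ] at hx hy
    obtain ⟨x, hx, rfl⟩ := hx
    obtain ⟨y, hy, rfl⟩ := hy
    obtain ⟨X', hX'⟩ : ∃ X' : F.rootSet F.SplittingField, X' = ⟨x, hx⟩ := ⟨_, rfl⟩
    obtain ⟨Y', hY'⟩ : ∃ Y' : F.rootSet F.SplittingField, Y' = ⟨y, hy⟩ := ⟨_, rfl⟩
    have hne : X' ≠ Y' := by
      intro h
      apply hxy
      rw [hX', hY'] at h
      rw [Subtype.mk.inj h]
    obtain ⟨Z', hZ1, hZ2⟩ : ∃ Z' : F.rootSet F.SplittingField, Z' ≠ X' ∧ Z' ≠ Y' := by
      by_contra hall
      push Not at hall
      have h4 : (Finset.univ : Finset (F.rootSet F.SplittingField)) ⊆ {X', Y'} := by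
        intro z _
        rw [Finset.mem_insert, Finset.mem_singleton]
        by_cases hz : z = X'
        · exact Or.inl hz
        · exact Or.inr (hall z hz)
      have h5' := Finset.card_le_card h4
      have h6 := Finset.card_le_two (a := X') (b := Y')
      rw [Finset.card_univ, ← Nat.card_eq_fintype_card, hcard] at h5'
      omega
    obtain ⟨g0, hg0, hc⟩ := hker
      (Equiv.Perm.mul_mem_alternatingGroup_of_isSwap ⟨X', Y', hne, rfl⟩ ⟨Y', Z', hZ2.symm, rfl⟩)
    have hg : ∀ t : F.rootSet F.SplittingField, g0 (algebraMap F.SplittingField L' t) =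
        algebraMap F.SplittingField L'
          ((Equiv.swap X' Y' * Equiv.swap Y' Z') t : F.rootSet F.SplittingField) := by
      intro t
      rw [← hρ, ← hc]
      rfl
    obtain ⟨g, hgg⟩ : ∃ g : L' ≃ₐ[k1] L', ∀ x, g x = g0 x :=
      ⟨AlgEquiv.ofRingEquiv (f := g0.toRingEquiv) (fun r => embPerm_ker L L' hg0 r), fun x => rfl⟩
    refine ⟨g, algebraMap F.SplittingField L' (Z' : F.SplittingField), ?_, ?_, ?_⟩
    · have h7 := hg X'
      rw [Equiv.Perm.mul_apply, Equiv.swap_apply_of_ne_of_ne hne hZ1.symm,
        Equiv.swap_apply_left] at h7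
      rw [hX', hY'] at h7
      rw [hgg]
      exact h7
    · have h7 := hg Y'
      rw [Equiv.Perm.mul_apply, Equiv.swap_apply_left,
        Equiv.swap_apply_of_ne_of_ne hZ1 hZ2] at h7
      rw [hY'] at h7
      rw [hgg]
      exact h7
    · have h7 := hg Z'
      rw [Equiv.Perm.mul_apply, Equiv.swap_apply_right, Equiv.swap_apply_right] at h7
      rw [hX'] at h7
      rw [hgg]
      exact h7
  have hd : 0 < ((F.map (algebraMap k L)).map (algebraMap L k1)).natDegree := by
    rw [natDegree_map, natDegree_map]
    omega
  exact irr_of_three hsepL hsplL hd h3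

end ext

end Pool.Agent.N181.T3
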