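import Pool.Agent.N181.T3.One
import Pool.Agent.TH115.GD.Gen

/-!
The generic case: no Tate classes and the Mordell-Weil group.
-/

set_option autoImplicit false
set_option linter.all false

open Polynomial IsDedekindDomain WeierstrassCurve WeierstrassCurve.Affine
open scoped Classical

namespace Pool.Agent.N181.T3

open Pool.Agent.TH115.GD (Pt act incl rs ak act_zero act_some act_inj act_act IsCoc LocTriv
  fixed_point exists_restrict rs_act_incl Preserves exists_conj IsTower LocallyTrivial Sep Comp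
  wFin lt_subT cob_isCoc sepKΩ preserves)

section stmt

variable {K F : Type} [Field K] [Field F] [Algebra K F]

/-- The classes of `V_l Sel(W / F)` which are fixed by the Galois group are zero: if `c` is a cocycle
of `Gal(Sep F / F)` with values in `T_l W` which is everywhere locally trivial, and the class of `c` is
fixed by the Galois group of `K`, then for every `n` there are a point `P` of `W(K)` with `l P = 0` and
a point `R` with `l ^ n R = P` such that `c n σ = σ R - R` for all `σ`. -/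
def NoClasses (l : ℕ) (k' : Type) [Field k'] [Algebra k'[X] F] [IsFractionRing k'[X] F]
    (W : WeierstrassCurve K) : Prop :=
  ∀ c : ℕ → (Sep F ≃ₐ[F] Sep F) → Pt W (Sep F), IsTCL W l c →
    (∀ n, LocallyTrivial k' W (c n)) → IsInvL W l c →
    ∀ n, ∃ (P : Pt W K) (R : Pt W (Sep F)), l • P = 0 ∧
      l ^ n • R = act W (incl K K (Sep F)) P ∧ ∀ σ, c n σ = act W (rs K σ) R - R

theorem NoClasses.tate {l : ℕ} {k' : Type} [Field k'] [Algebra k'[X] F] [IsFractionRing k'[X] F]
    {W : WeierstrassCurve K} (h : NoClasses (F := F) l k' W) : TateAt (F := F) l k' W := by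
  intro c h1 h2 h3 n
  obtain ⟨P, R, -, e, e'⟩ := h c h1 h2 h3 n
  exact ⟨P, R, e, e'⟩

end stmt

section step

variable {k' K F : Type} [Field k'] [Field K] [Field F] [Algebra K F] [Algebra k'[X] F]
  [IsFractionRing k'[X] F] {W : WeierstrassCurve K} {l : ℕ}

theorem no_of_div (hdiv : ∀ X : Pt W (Sep F), ∃ Y : Pt W (Sep F), l • Y = X)
    (h : ∀ c : ℕ → (Sep F ≃ₐ[F] Sep F) → Pt W (Sep F), IsTCls k' W l c →
      ∃ (P : Pt W K) (H : Pt W (Sep F)), l • P = 0 ∧ l • H = act W (incl K K (Sep F)) P ∧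
        ∀ σ, c 1 σ = act W (rs K σ) H - H) : NoClasses (F := F) l k' W := by
  have key : ∀ (n : ℕ) (c : ℕ → (Sep F ≃ₐ[F] Sep F) → Pt W (Sep F)), IsTCls k' W l c →
      ∃ (P : Pt W K) (R : Pt W (Sep F)), l • P = 0 ∧
        l ^ n • R = act W (incl K K (Sep F)) P ∧
        ∀ σ, c n σ = act W (rs K σ) R - R := by
    intro n
    induction n with
    | zero =>
      intro c hc
      refine ⟨0, 0, smul_zero _, ?_, fun σ => ?_⟩
      · rw [smul_zero, map_zero]
      · rw [hc.tc.zero, map_zero, sub_zero]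
    | succ n ih =>
      intro c hc
      obtain ⟨P, H, hP, hH, hcH⟩ := h c hc
      obtain ⟨G, G0, G1, GS⟩ := divs hdiv hH
      have Gpow : ∀ j, l ^ j • G j = act W (incl K K (Sep F)) P := by
        intro j
        induction j with
        | zero => rw [pow_zero, one_smul, G0]
        | succ j ih => rw [pow_succ, mul_smul, GS, ih]
      obtain ⟨P', R', hP', hR', hcn⟩ := ih _ (div_cls hc G0 GS (fun σ => by rw [G1]; exact hcH σ))
      refine ⟨l • P' + P, R' + G (n + 1), ?_, ?_, fun σ => ?_⟩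
      · rw [smul_add, hP, hP', smul_zero, add_zero]
      · rw [smul_add, Gpow, pow_succ', mul_smul, hR', map_add, map_nsmul]
      · have h1 := hcn σ
        have h2 : c (n + 1) σ - (act W (rs K σ) (G (n + 1)) - G (n + 1)) =
          act W (rs K σ) R' - R' := h1
        rw [sub_eq_iff_eq_add] at h2
        rw [h2, map_add]
        abel
  intro c hc hl hi n
  exact key n c ⟨hc, hl, hi⟩

theorem lt_cob (R : Pt W (Sep F)) :
    LocallyTrivial k' W (fun σ : Sep F ≃ₐ[F] Sep F => act W (rs K σ) R - R) := by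
  have key : (fun σ : Sep F ≃ₐ[F] Sep F => act W (rs K σ) R - R) =
      fun σ => (0 : Pt W (Sep F)) - (act W (rs K σ) (-R) - (-R)) := by
    funext σ
    rw [map_neg]
    abel
  rw [key]
  exact ⟨fun v => (Pool.Agent.TH115.GD.LocTriv.zero W).sub _ (-R),
    (Pool.Agent.TH115.GD.LocTriv.zero W).sub _ (-R)⟩

/-- The first layer of a Tate class. -/
theorem inv_of_cls {c : ℕ → (Sep F ≃ₐ[F] Sep F) → Pt W (Sep F)} (hc : IsTCls k' W 3 c) :
    InvOne3 W (c 1) := by
  have hcc := hc.tc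
  intro τ
  obtain ⟨m, Q, hQ, hinv⟩ := hc.inv τ
  have hpow : ∀ (k : ℕ) (σ), 3 ^ k • c (k + 1) σ = c 1 σ := by
    intro k
    induction k with
    | zero => intro σ; rw [pow_zero, one_smul]
    | succ k ih =>
      intro σ
      rw [pow_succ, mul_smul, hcc.mul, ih]
  have hQpow : ∀ (k : ℕ), 3 ^ k • Q k = 0 := by
    intro k
    induction k with
    | zero => rw [hQ.zero, smul_zero]
    | succ k ih =>
      rw [pow_succ, mul_smul, hQ.mul, ih]
  refine ⟨Q (m + 1), ⟨m + 1, hQpow _⟩, fun σ σ' h => ?_⟩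
  rw [← hinv (m + 1) σ σ' h, smul_sub, ← map_nsmul, hpow, hpow]

/-- The coboundary of a point. -/
theorem inv_cob {R : Pt W (Sep F)} (h : ∀ τ : Sep F ≃ₐ[K] Sep F, ∃ m : ℕ,
    3 ^ m • (act W (ak τ) R - R) = 0) :
    InvOne3 W (fun σ : Sep F ≃ₐ[F] Sep F => act W (rs K σ) R - R) := by
  intro τ
  refine ⟨act W (ak τ) R - R, h τ, fun σ σ' hσ => ?_⟩
  have hcomp : act W (ak τ) (act W (rs K σ') R) = act W (rs K σ) (act W (ak τ) R) := by
    have h5 : (ak τ).comp (rs K σ') = (rs K σ).comp (ak τ) := AlgHom.ext fun x => hσ x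
    rw [act_act, act_act, h5]
  show act W (ak τ) (act W (rs K σ') R - R) - (act W (rs K σ) R - R) =
    act W (rs K σ) (act W (ak τ) R - R) - (act W (ak τ) R - R)
  rw [map_sub (act W (ak τ)), hcomp, map_sub (act W (rs K σ))]
  abel

end step

section one

variable {k k' K F : Type} [Field k] [Field k'] [Algebra k k'] [Field K] [Algebra k[X] K]
    [Field F] [Algebra k'[X] F] [IsFractionRing k'[X] F] [Algebra K F]

theorem gen3_ne (hT : IsTower k k' K F) {a b : k[X]} (hG : Gen3 k' a b)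
    {aK bK : K} (haK : aK = algebraMap k[X] K a) (hbK : bK = algebraMap k[X] K b) :
    (3 : K) ≠ 0 ∧ bK ≠ 0 ∧ aK ^ 3 - 27 * bK ≠ 0 ∧ (∀ g : F, g ^ 3 ≠ algebraMap K F bK) ∧
      ∀ g : F, g ^ 3 ≠ algebraMap K F (aK ^ 3 - 27 * bK) := by
  haveI := hT.sep
  haveI := hT.fracK
  have hKF := hT.map
  have h3 := hG.three
  have injK := IsFractionRing.injective k[X] K
  obtain ⟨π, u, n, sπ, tπ, hu, hn, hb⟩ := hG.fb
  obtain ⟨ρ, v, m, sρ, tρ, hv, hm, hd⟩ := hG.fd
  have iπ := irr_of_stays tπ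
  have iρ := irr_of_stays tρ
  have hb0 : b ≠ 0 := by
    rw [hb]; exact mul_ne_zero (C_ne_zero.2 hu) (pow_ne_zero n iπ.ne_zero)
  have hd0 : a ^ 3 - 27 * b ≠ 0 := by
    rw [hd]; exact mul_ne_zero (C_ne_zero.2 hv) (pow_ne_zero m iρ.ne_zero)
  have h3X : (3 : k[X]) ≠ 0 := by
    have : (3 : k[X]) = C 3 := by rw [map_ofNat]
    rw [this]
    exact C_ne_zero.2 h3
  have h3K : (3 : K) ≠ 0 := by
    rw [← map_ofNat (algebraMap k[X] K) 3]
    intro h
    exact h3X (injK (by rw [h, map_zero]))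
  have hbK0 : bK ≠ 0 := by
    rw [hbK, Ne, map_eq_zero_iff _ injK]; exact hb0
  have hdK : algebraMap k[X] K (a ^ 3 - 27 * b) = aK ^ 3 - 27 * bK := by
    rw [haK, hbK, map_sub, map_mul, map_pow, map_ofNat]
  have hdK0 : aK ^ 3 - 27 * bK ≠ 0 := by
    rw [← hdK, Ne, map_eq_zero_iff _ injK]; exact hd0
  have s_of : ∀ {p π : k[X]} {u : k} {n : ℕ}, u ≠ 0 → Irreducible π → π.Separable →
      p = C u * π ^ n → ∀ τ : k[X], Irreducible τ → τ ∣ p → τ.Separable := by
    intro p π u n hu iπ sπ e τ h1 h2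
    rw [e] at h2
    rcases h1.prime.dvd_or_dvd h2 with h4 | h4
    · exact absurd (isUnit_of_dvd_unit h4 (isUnit_C.2 (isUnit_iff_ne_zero.2 hu))) h1.not_isUnit
    · exact sπ.of_dvd (h1.prime.dvd_of_dvd_pow h4)
  refine ⟨h3K, hbK0, hdK0, ?_, ?_⟩
  · rw [hbK]
    exact not_cube hKF h3 hb0 (s_of hu iπ sπ hb)
      (fun u' q => by rw [hb]; exact not_cst_cube iπ hu hn u' q)
  · rw [← hdK]
    exact not_cube hKF h3 hd0 (s_of hv iρ sρ hd)
      (fun u' q => by rw [hd]; exact not_cst_cube iρ hv hm u' q)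

/-- There are no Tate classes in the generic case. -/
theorem no3 (hT : IsTower k k' K F) {a b : k[X]} (hG : Gen3 k' a b)
    {aK bK : K} (haK : aK = algebraMap k[X] K a) (hbK : bK = algebraMap k[X] K b) :
    NoClasses (F := F) 3 k' (crv3 aK bK) := by
  obtain ⟨h3K, hb0, hd0, hbs, hds⟩ := gen3_ne hT hG haK hbK
  have hE := isE (a := aK) (b := bK) h3K hb0 hd0 (Sep F)
  have e3 : ∀ {X : Type} [AddCommGroup X] (H : X), 3 • H = H + H + H := by
    intro X _ H
    rw [show (3 : ℕ) = 1 + 1 + 1 from rfl, add_smul, add_smul, one_smul]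
  refine no_of_div (fun X => ?_) fun c hc => ?_
  · obtain ⟨Y, hY⟩ := third hE X
    exact ⟨Y, by rw [e3, hY]⟩
  · obtain ⟨P, H, h1, h2, h3⟩ := one3 (F := F) hT hG haK hbK (c 1) (hc.tc.coc 1)
      (fun σ => by rw [← e3, hc.tc.mul 0 σ, hc.tc.zero]) (hc.loc 1) (inv_of_cls hc)
    exact ⟨P, H, by rw [e3, h1], h2, h3⟩

/-- Every point over `K` is three times a point plus a point of order three. -/
theorem mw3 (hT : IsTower k k' K F) {a b : k[X]} (hG : Gen3 k' a b)
    {aK bK : K} (haK : aK = algebraMap k[X] K a) (hbK : bK = algebraMap k[X] K b)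
    : ∀ P : Pt (crv3 aK bK) K, ∃ Q T : Pt (crv3 aK bK) K, 3 • T = 0 ∧ P = 3 • Q + T := by
  haveI := hT.sep
  haveI := hT.fracK
  have hKF := hT.map
  have h3 := hG.three
  obtain ⟨h3K, hb0, hd0, hbs, hds⟩ := gen3_ne hT hG haK hbK
  have hE := isE (a := aK) (b := bK) h3K hb0 hd0 (Sep F)
  haveI : IsSepClosed k' := IsSepClosure.sep_closed k
  have h3' : (3 : k') ≠ 0 := by
    rw [← map_ofNat (algebraMap k k') 3]
    exact (_root_.map_ne_zero _).2 h3
  haveI : IsSepClosure K (Sep F) := sepKΩ hKF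
  haveI : Algebra.IsSeparable K (Sep F) := IsSepClosure.separable
  haveI : IsGalois K (Sep F) := inferInstance
  have hpres : Preserves K F (Sep F) := preserves hKF
  obtain ⟨zk, hzk⟩ := exists_z (F := k') h3'
  set zF : F := algebraMap k'[X] F (C zk) with hzFdef
  set z : Sep F := algebraMap F (Sep F) zF with hzdef
  have hz : z ^ 2 + z + 1 = 0 := by
    rw [hzdef, hzFdef, ← map_pow, ← map_add, ← map_pow, ← map_add, ← C_pow, ← C_add,
      ← map_one (algebraMap F (Sep F)), ← map_add, ← map_one (algebraMap k'[X] F), ← map_add,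
      ← C_1, ← C_add, hzk, C_0, map_zero, map_zero]
  have hzσ : ∀ σ : Sep F ≃ₐ[F] Sep F, σ z = z := fun σ => σ.commutes zF
  have e3 : ∀ {X : Type} [AddCommGroup X] (H : X), 3 • H = H + H + H := by
    intro X _ H
    rw [show (3 : ℕ) = 1 + 1 + 1 from rfl, add_smul, add_smul, one_smul]
  set W := crv3 aK bK with hW
  have PK : ∀ (Q : Pt W K) (φ : Sep F →ₐ[K] Sep F), act W φ (act W (incl K K (Sep F)) Q) =
      act W (incl K K (Sep F)) Q := by
    intro Q φ
    have h1 : φ.comp (incl K K (Sep F)) = incl K K (Sep F) := AlgHom.ext fun x => φ.commutes x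
    rw [act_act, h1]
  have inj : Function.Injective (act W (incl K K (Sep F))) := act_inj _ _
  intro P
  -- the step
  have step : ∀ (X : Pt W (Sep F)), (∀ σ : Sep F ≃ₐ[F] Sep F, act W (rs K σ) X = X) →
      (∀ τ : Sep F ≃ₐ[K] Sep F, ∃ m : ℕ, 3 ^ m • (act W (ak τ) X - X) = 0) →
      ∃ (T : Pt W K) (Y : Pt W (Sep F)), 3 • T = 0 ∧
        (∀ σ : Sep F ≃ₐ[F] Sep F, act W (rs K σ) Y = Y) ∧
        3 • Y = X - act W (incl K K (Sep F)) T := by
    intro X hX hX2
    obtain ⟨R, hR⟩ := third hE X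
    obtain ⟨T, H, hT1, hT2, hT3⟩ := one3 (F := F) hT hG haK hbK
      (fun σ : Sep F ≃ₐ[F] Sep F => act W (rs K σ) R - R) (cob_isCoc W R)
      (fun σ => by
        have : act W (rs K σ) R - R + (act W (rs K σ) R - R) + (act W (rs K σ) R - R) =
            act W (rs K σ) (R + R + R) - (R + R + R) := by
          rw [map_add, map_add]; abel
        rw [this, hR, hX, sub_self]) (lt_cob R)
      (inv_cob fun τ => by
        obtain ⟨m, hm⟩ := hX2 τ
        refine ⟨m + 1, ?_⟩
        rw [pow_succ, mul_smul, smul_sub, ← map_nsmul, e3, hR]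
        exact hm)
    refine ⟨T, R - H, by rw [e3, hT1], fun σ => ?_, ?_⟩
    · have h1 := hT3 σ
      rw [map_sub, sub_eq_sub_iff_sub_eq_sub]
      exact h1
    · rw [smul_sub, hT2, e3, hR]
  obtain ⟨T1, X, t1, x1, x2⟩ := step (act W (incl K K (Sep F)) P) (fun σ => PK P _)
    (fun τ => ⟨0, by rw [PK, sub_self, smul_zero]⟩)
  have x3 : ∀ τ : Sep F ≃ₐ[K] Sep F, 3 • (act W (ak τ) X - X) = 0 := by
    intro τ
    rw [smul_sub, ← map_nsmul, x2, map_sub, PK, PK, sub_self]
  obtain ⟨T2, Y, t2, y1, y2⟩ := step X x1 (fun τ => ⟨1, by rw [pow_one]; exact x3 τ⟩)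
  have y3 : ∀ τ : Sep F ≃ₐ[K] Sep F, 3 • (act W (ak τ) Y - Y) = act W (ak τ) X - X := by
    intro τ
    rw [smul_sub, ← map_nsmul, y2, map_sub (act W (ak τ)), PK]
    exact sub_sub_sub_cancel_right _ _ _
  have hfix : ∀ τ : Sep F ≃ₐ[K] Sep F, act W (ak τ) X = X := by
    intro τ
    have h1 : ∀ σ : Sep F ≃ₐ[F] Sep F,
        act W (rs K σ) (act W (ak τ) Y - Y) = act W (ak τ) Y - Y := by
      intro σ
      obtain ⟨σ', hσ'⟩ := exists_conj hpres τ σ
      have hcomp : act W (ak τ) (act W (rs K σ') Y) = act W (rs K σ) (act W (ak τ) Y) := by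
        have h5 : (ak τ).comp (rs K σ') = (rs K σ).comp (ak τ) := AlgHom.ext fun x => hσ' x
        rw [act_act, act_act, h5]
      rw [map_sub, ← hcomp, y1, y1]
    have h2 : InT hE (act W (ak τ) Y - Y) := by
      apply torsF3 hE hz hzσ hbs hds 2 (act W (ak τ) Y - Y) h1
      rw [show (3 : ℕ) ^ 2 = 3 * 3 from rfl, mul_smul, y3, x3]
    have h4 := h2.three hE
    rw [← e3, y3] at h4
    exact sub_eq_zero.1 h4
  obtain ⟨Q, hQ⟩ := fixed_point (K := K) (F := K) W X (fun τ => hfix τ)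
  refine ⟨Q, T1, t1, ?_⟩
  apply inj
  rw [map_add, map_nsmul, hQ, x2]
  abel

/-- A group which is finitely generated and equal to three times itself plus the points of order
three is finite. -/
theorem finite_of_three {A : Type} [AddCommGroup A] (h : ∀ P : A, ∃ Q T : A, 3 • T = 0 ∧
    P = 3 • Q + T) (hfg : AddGroup.FG A) : Finite A := by
  let H : AddSubgroup A :=
    { carrier := {T | 3 • T = 0}
      zero_mem' := smul_zero _
      add_mem' := fun {x y} hx hy => by
        show 3 • (x + y) = 0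
        rw [smul_add, show 3 • x = 0 from hx, show 3 • y = 0 from hy, add_zero]
      neg_mem' := fun {x} hx => by
        show 3 • (-x) = 0
        rw [smul_neg, show 3 • x = 0 from hx, neg_zero] }
  haveI : AddGroup.FG (A ⧸ H) := QuotientAddGroup.fg H
  haveI : Module.Finite ℤ (A ⧸ H) := Module.Finite.iff_addGroup_fg.2 inferInstance
  obtain ⟨r, hr, hr'⟩ := Submodule.exists_sub_one_mem_and_smul_eq_zero_of_fg_of_le_smul
    (Ideal.span {(3 : ℤ)}) (⊤ : Submodule ℤ (A ⧸ H)) Module.Finite.fg_top (by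
      intro x _
      obtain ⟨P, rfl⟩ := QuotientAddGroup.mk_surjective x
      obtain ⟨Q, P1, h1, e⟩ := h P
      have e2 : ((P : A) : A ⧸ H) = (3 : ℤ) • ((Q : A) : A ⧸ H) := by
        rw [e, QuotientAddGroup.mk_add, (QuotientAddGroup.eq_zero_iff P1).2 h1, add_zero,
          ← natCast_zsmul, QuotientAddGroup.mk_zsmul]
        rfl
      rw [e2]
      exact Submodule.smul_mem_smul (Ideal.mem_span_singleton_self _) trivial)
  have hr0 : r ≠ 0 := by
    rintro rfl
    obtain ⟨c, hc⟩ := Ideal.mem_span_singleton'.1 hr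
    omega
  have htor : IsAddTorsion A := by
    intro P
    have h1 := hr' ((P : A) : A ⧸ H) trivial
    have h3 : (((r • P : A)) : A ⧸ H) = 0 := by
      rw [← h1]
      rfl
    have h4 : 3 • (r • P) = 0 := (QuotientAddGroup.eq_zero_iff _).1 h3
    have h5 : (3 * r) • P = 0 := by
      rw [mul_smul, ← h4, ← natCast_zsmul (r • P) 3]
      rfl
    exact isOfFinAddOrder_iff_zsmul_eq_zero.2 ⟨3 * r, by omega, h5⟩
  have : AddGroup.FG A := hfg
  exact AddCommGroup.finite_of_fg_isAddTorsion A htor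

end one

end Pool.Agent.N181.T3
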