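import Pool.Agent.TH115.GD.Defs

/-!
# Galois-invariant `l`-adic Selmer classes of elliptic curves over `k'(t)`

The definitions of `Pool.Agent.TH115.GD.Defs` (points `Pt`, action `act`, cocycles `IsCoc`, separable
closures `Sep`, completions, local triviality `LocallyTrivial`, the tower `IsTower`) are used; this
file has the versions for an arbitrary prime `l` of the definitions which were made there for the
prime 2, and the curves with a point of order three.
-/

set_option autoImplicit false
set_option linter.all false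

open Polynomial IsDedekindDomain WeierstrassCurve WeierstrassCurve.Affine
open scoped Classical

namespace Pool.Agent.N181.T3

open Pool.Agent.TH115.GD

universe u

section cocycles

variable {K F Ω : Type u} [Field K] [Field F] [Field Ω] [Algebra K F] [Algebra F Ω] [Algebra K Ω]
  [IsScalarTower K F Ω] (W : WeierstrassCurve K) (l : ℕ)

/-- `Q` is an element of the Tate module `T_l W`: `Q 0 = 0`, `l Q (n + 1) = Q n`. -/
structure IsTML (Q : ℕ → Pt W Ω) : Prop where
  zero : Q 0 = 0
  mul : ∀ n, l • Q (n + 1) = Q n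

/-- `c` is a continuous 1-cocycle of `Gal(Ω / F)` with values in the Tate module `T_l W`: `c n` is a
cocycle with values in the points of order `l ^ n`, and `l c (n + 1) = c n`. -/
structure IsTCL (c : ℕ → (Ω ≃ₐ[F] Ω) → Pt W Ω) : Prop where
  coc : ∀ n, IsCoc W (c n)
  zero : ∀ σ, c 0 σ = 0
  mul : ∀ n σ, l • c (n + 1) σ = c n σ

/-- The class of `c` in `H ^ 1 (F, V_l W)` is fixed by `Gal(Ω / K)`: for each `τ` in `Gal(Ω / K)`
there is an `m` such that `l ^ m (τ c - c)` is the coboundary of an element `Q` of the Tate module.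
Here `(τ c) (σ) = τ (c (σ'))` with `σ' = τ⁻¹ σ τ`. -/
def IsInvL (c : ℕ → (Ω ≃ₐ[F] Ω) → Pt W Ω) : Prop :=
  ∀ τ : Ω ≃ₐ[K] Ω, ∃ (m : ℕ) (Q : ℕ → Pt W Ω), IsTML W l Q ∧
    ∀ (n : ℕ) (σ σ' : Ω ≃ₐ[F] Ω), (∀ x, τ (σ' x) = σ (τ x)) →
      l ^ m • (act W (ak τ) (c n σ') - c n σ) = act W (rs K σ) (Q n) - Q n

end cocycles

section stmt

variable {K F : Type} [Field K] [Field F] [Algebra K F]

/-- The Tate conjecture at the prime `l` for the elliptic surface with generic fibre `W` over
`K = k(t)`: the classes in the `l`-adic Selmer group `V_l Sel(W / F)`, `F = k'(t)`, which are fixed by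
the Galois group, come from `W(K)`. If `c` is a cocycle of `Gal(Sep F / F)` with values in `T_l W`
which is everywhere locally trivial, and the class of `c` is fixed by the Galois group of `K`, then
for every `n` there are a point `P` of `W(K)` and a point `R` with `l ^ n R = P` such that
`c n σ = σ R - R` for all `σ`. -/
def TateAt (l : ℕ) (k' : Type) [Field k'] [Algebra k'[X] F] [IsFractionRing k'[X] F]
    (W : WeierstrassCurve K) : Prop :=
  ∀ c : ℕ → (Sep F ≃ₐ[F] Sep F) → Pt W (Sep F), IsTCL W l c →
    (∀ n, LocallyTrivial k' W (c n)) → IsInvL W l c →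
    ∀ n, ∃ (P : Pt W K) (R : Pt W (Sep F)), l ^ n • R = act W (incl K K (Sep F)) P ∧
      ∀ σ, c n σ = act W (rs K σ) R - R

end stmt

/-- The curve `y ^ 2 + a x y + b y = x ^ 3`; the point `(0, 0)` has order three. Its discriminant is
`b ^ 3 (a ^ 3 - 27 b)`. -/
def crv3 {K : Type*} [Field K] (a b : K) : WeierstrassCurve K := ⟨a, 0, b, 0, 0⟩

/-- Representative of the class of a point `Q` of `y ^ 2 + a x y + b y = x ^ 3` modulo cubes: `y(Q)`,
and `1 / b` if `Q = (0, 0)`, and `1` if `Q = 0`. -/
noncomputable def dd {F : Type*} [Field F] {W : Affine F} (b : F) : W.Point → F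
  | .zero => 1
  | .some _ y _ => if y = 0 then b⁻¹ else y

end Pool.Agent.N181.T3
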