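import Pool.Agent.N181.T3.Fun
import Pool.Agent.N181.T3.Defs

/-!
Division of points by three; the nonvanishing function `hh` with `hh(P) ^ 3 = d(3 P)`.
-/

set_option autoImplicit false
set_option linter.all false

open WeierstrassCurve WeierstrassCurve.Affine

namespace Pool.Agent.N181.T3

section roots

variable {F : Type*} [Field F] [IsSepClosed F] (h3 : (3 : F) ≠ 0)

include h3

open Polynomial in
theorem exists_z : ∃ z : F, z ^ 2 + z + 1 = 0 := by
  have hs : (X ^ 2 + X + 1 : F[X]).Separable := by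
    refine ⟨C (4 / 3), C (-1 / 3) * (2 * X + 1), ?_⟩
    have e : derivative (X ^ 2 + X + 1 : F[X]) = 2 * X + 1 := by
      simp [derivative_pow, map_ofNat]
    rw [e]
    have e3 : (3 : F[X]) = C 3 := by rw [map_ofNat]
    have h3' : (3 : F[X]) ≠ 0 := by rw [e3]; exact C_ne_zero.2 h3
    have c1 : (3 : F[X]) * C (4 / 3) = 4 := by
      rw [e3, ← C_mul, mul_div_cancel₀ _ h3, map_ofNat]
    have c2 : (3 : F[X]) * C (-1 / 3) = -1 := by
      rw [e3, ← C_mul, mul_div_cancel₀ _ h3, map_neg, map_one]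
    apply mul_left_cancel₀ h3'
    linear_combination (X ^ 2 + X + 1) * c1 + (2 * X + 1) ^ 2 * c2
  have hd : (X ^ 2 + X + 1 : F[X]).degree ≠ 0 := by
    have : (X ^ 2 + X + 1 : F[X]).degree = 2 := by
      compute_degree!
    rw [this]; norm_num
  obtain ⟨z, hz⟩ := IsSepClosed.exists_root _ hd hs
  refine ⟨z, ?_⟩
  simpa [IsRoot.def] using hz

theorem exists_cb (x : F) : ∃ t : F, t ^ 3 = x := by
  haveI : NeZero ((3 : ℕ) : F) := ⟨by exact_mod_cast h3⟩
  exact IsSepClosed.exists_pow_nat_eq x 3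

end roots

variable {F : Type*} [Field F] {W : Affine F} {a b u v w : F} [DecidableEq F]

/-- Every point is a triple. -/
theorem third (h : IsE W a b) [IsSepClosed F] (Q : W.Point) : ∃ P : W.Point, P + P + P = Q := by
  rcases Q with _ | ⟨x, y, hxy⟩
  · exact ⟨0, by rw [add_zero, add_zero]; rfl⟩
  have h3 := h.three
  obtain ⟨z, hz⟩ := exists_z (F := F) h3
  have he := h.nonsingular.1 hxy
  obtain ⟨g, t, hg, hgt, ht⟩ : ∃ g t : F, g ^ 3 = y ∧ g * t = x ∧
      t ^ 3 = g ^ 3 + a * (g * t) + b := by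
    obtain ⟨g, hg⟩ := exists_cb h3 y
    by_cases hg0 : g = 0
    · obtain ⟨t, ht⟩ := exists_cb h3 b
      have hy : y = 0 := by rw [← hg, hg0]; ring
      have hx : x = 0 := by
        rw [hy] at he
        have : x ^ 3 = 0 := by rw [← he]; ring
        exact pow_eq_zero_iff (three_ne_zero) |>.1 this
      exact ⟨g, t, hg, by rw [hg0, hx, zero_mul], by rw [ht, hg0]; ring⟩
    · refine ⟨g, x / g, hg, by field_simp, ?_⟩
      have hy : y ≠ 0 := by rw [← hg]; exact pow_ne_zero 3 hg0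
      rw [div_pow, hg, mul_div_cancel₀ _ hg0, ← he]
      field_simp
  have ht' : t ^ 3 = g ^ 3 + a * (g * t) + b := ht
  set D0 := a + 3 * g - 3 * t with hD0
  set D1 := a + 3 * z ^ 2 * g - 3 * z * t with hD1
  set D2 := a + 3 * z * g - 3 * z ^ 2 * t with hD2
  have hD : D0 * D1 * D2 = a ^ 3 - 27 * b := by
    rw [hD0, hD1, hD2]
    linear_combination (-9 * a * g * t * z ^ 2 + 27 * g * t ^ 2 * z ^ 2 - 27 * g ^ 2 * t * z ^ 2 + 9 * a * g * t * z + 9 * a * g ^ 2 * z + 9 * a * t ^ 2 * z + 27 * g ^ 3 * z - 27 * t ^ 3 * z - 27 * a * g * t + 3 * a ^ 2 * g - 3 * a ^ 2 * t - 27 * g ^ 3 + 27 * t ^ 3) * hz + (-27) * ht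
  have hDs : D1 + D2 - 3 * a = -D0 := by
    rw [hD0, hD1, hD2]
    linear_combination (3 * g - 3 * t) * hz
  have hne : D0 * D1 * D2 ≠ 0 := by rw [hD]; exact h.ned
  have hn2 : D2 ≠ 0 := right_ne_zero_of_mul hne
  have hn1 : D1 ≠ 0 := right_ne_zero_of_mul (left_ne_zero_of_mul hne)
  obtain ⟨A, hA⟩ := exists_cb h3 (D1 ^ 2 * D2)
  have hA0 : A ≠ 0 := by
    rintro rfl
    apply mul_ne_zero (pow_ne_zero 2 hn1) hn2
    rw [← hA]; ring
  obtain ⟨B, hB⟩ : ∃ B, A * B = D1 * D2 := ⟨D1 * D2 / A, by field_simp⟩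
  have hB3 : B ^ 3 = D1 * D2 ^ 2 := by
    apply mul_left_cancel₀ (pow_ne_zero 3 hA0)
    rw [← mul_pow, hB, hA]; ring
  obtain ⟨u, v, w, hsum, hra, hrb⟩ := exists_res hz h3 a A B
  have h27 : (27 : F) ≠ 0 := by
    have : (27 : F) = 3 ^ 3 := by norm_num
    rw [this]; exact pow_ne_zero 3 h3
  have h9 : (9 : F) ≠ 0 := by
    have : (9 : F) = 3 ^ 2 := by norm_num
    rw [this]; exact pow_ne_zero 2 h3
  have hprod : u * v * w = b := by
    apply mul_left_cancel₀ h27
    rw [← prod_res hz, hsum, hra, hrb, hA, hB3, hB]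
    linear_combination -hD + D1 * D2 * hDs
  have hq : qq u v w ≠ 0 := by
    rw [← ra_mul_rb hz, hra, hrb, hB]
    exact mul_ne_zero hn1 hn2
  have e1 : gg u v w = g := by
    have k1 := gg_res hz hq
    rw [hra, hrb, hsum, hA, hB3, hB] at k1
    apply mul_left_cancel₀ (mul_ne_zero h9 (mul_ne_zero hn1 hn2))
    have k3 : -(1 - z) * D1 - (1 - z ^ 2) * D2 + 3 * a = 9 * g := by
      rw [hD1, hD2]
      linear_combination (-3 * t * z ^ 2 + 6 * g * z + 3 * t * z + a - 9 * g) * hz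
    linear_combination k1 + D1 * D2 * k3
  have e2 : gt u v w = t := by
    have k2 := gt_res hz hq
    rw [hra, hrb, hsum, hA, hB3, hB] at k2
    apply mul_left_cancel₀ (mul_ne_zero h9 (mul_ne_zero hn1 hn2))
    have k4 : (1 - z) * D2 + (1 - z ^ 2) * D1 - 3 * a = 9 * t := by
      rw [hD1, hD2]
      linear_combination (-3 * g * z ^ 2 + 3 * g * z + 6 * t * z - a - 9 * t) * hz
    linear_combination k2 + D1 * D2 * k4
  obtain ⟨P, hP⟩ := h.co hsum hprod
  obtain ⟨hn, hPP⟩ := hP.tri h hq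
  refine ⟨P, ?_⟩
  rw [hPP]
  simp only [e1, e2, hg, hgt]

/-- The character is additive. -/
theorem wt_add (h : IsE W a b) [IsSepClosed F] {S T : W.Point} (hS : S + S + S = 0)
    (hT : T + T + T = 0) : wt b (S + T) = wt b S * wt b T := by
  obtain ⟨P, hP⟩ := third h (-(ptT h))
  have hP0 : P + P + P ≠ 0 := by
    rw [hP, Ne, neg_eq_zero]
    exact Point.some_ne_zero _
  obtain ⟨u, v, w, hc, hq⟩ := co_of_three h hP0
  obtain ⟨hn, hPP⟩ := hc.tri h hq
  have hg0 : gp b P ≠ 0 := by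
    rw [(hc.gp h).1]
    intro h0
    rw [hP, negT h] at hPP
    have := (Point.some.inj hPP).2
    rw [h0] at this
    apply h.neb
    linear_combination -this
  have hPS : (P + S) + (P + S) + (P + S) = P + P + P := by
    calc (P + S) + (P + S) + (P + S) = P + P + P + (S + S + S) := by abel
      _ = _ := by rw [hS, add_zero]
  have hST : (S + T) + (S + T) + (S + T) = 0 := by
    calc (S + T) + (S + T) + (S + T) = S + S + S + (T + T + T) := by abel
      _ = _ := by rw [hS, hT, add_zero]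
  have k1 := (gp_add h hP0 hS).1
  have k2 := (gp_add h (P := P + S) (by rw [hPS]; exact hP0) hT).1
  have k3 := (gp_add h hP0 hST).1
  rw [add_assoc, k1, k3] at k2
  apply mul_right_cancel₀ hg0
  rw [k2]; ring

/-- The nonvanishing function. -/
noncomputable def hh (b : F) (P : W.Point) : F :=
  if P + P + P = 0 then wt b P else if gp b P = 0 then (tp b P)⁻¹ else gp b P

theorem gp_tp (h : IsE W a b) {P : W.Point} (hP : P + P + P ≠ 0) :
    ∃ hn, P + P + P = Point.some (gp b P * tp b P) (gp b P ^ 3) hn := by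
  obtain ⟨u, v, w, hc, hq⟩ := co_of_three h hP
  obtain ⟨hn, hPP⟩ := hc.tri h hq
  rw [← (hc.gp h).1, ← (hc.gp h).2] at hn
  refine ⟨hn, ?_⟩
  rw [hPP]
  simp only [(hc.gp h).1, (hc.gp h).2]

theorem tp_cube (h : IsE W a b) {P : W.Point} (hP : P + P + P ≠ 0) :
    tp b P ^ 3 = gp b P ^ 3 + a * (gp b P * tp b P) + b := by
  obtain ⟨u, v, w, hc, hq⟩ := co_of_three h hP
  rw [(hc.gp h).1, (hc.gp h).2, gt_cube hq, hc.sum, hc.prod]

theorem tp_ne (h : IsE W a b) {P : W.Point} (hP : P + P + P ≠ 0) (hg : gp b P = 0) :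
    tp b P ≠ 0 := by
  intro h0
  have := tp_cube h hP
  rw [hg, h0] at this
  apply h.neb
  linear_combination -this

theorem hh_ne (h : IsE W a b) (P : W.Point) : hh b P ≠ 0 := by
  unfold hh
  split_ifs with h1 h2
  · exact wt_ne h h1
  · exact inv_ne_zero (tp_ne h h1 h2)
  · exact h2

theorem hh_add (h : IsE W a b) [IsSepClosed F] (P : W.Point) {S : W.Point} (hS : S + S + S = 0) :
    hh b (P + S) = wt b S * hh b P := by
  have hPS : (P + S) + (P + S) + (P + S) = P + P + P := by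
    calc (P + S) + (P + S) + (P + S) = P + P + P + (S + S + S) := by abel
      _ = _ := by rw [hS, add_zero]
  have hw := wt_ne h hS
  have hw3 := wt_three h hS
  unfold hh
  rw [hPS]
  by_cases h1 : P + P + P = 0
  · rw [if_pos h1, if_pos h1, wt_add h h1 hS, mul_comm]
  · rw [if_neg h1, if_neg h1]
    obtain ⟨k1, k2⟩ := gp_add h h1 hS
    by_cases h2 : gp b P = 0
    · have h2' : gp b (P + S) = 0 := by rw [k1, h2, mul_zero]
      rw [if_pos h2, if_pos h2', k2, mul_inv]
      congr 1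
      rw [inv_eq_iff_eq_inv, eq_comm, inv_eq_of_mul_eq_one_left]
      rw [← hw3]; ring
    · have h2' : gp b (P + S) ≠ 0 := by rw [k1]; exact mul_ne_zero hw h2
      rw [if_neg h2, if_neg h2', k1]

theorem hh_cube (h : IsE W a b) (P : W.Point) : hh b P ^ 3 = dd b (P + P + P) := by
  unfold hh
  split_ifs with h1 h2
  · rw [h1, wt_three h h1]; rfl
  · obtain ⟨hn, e⟩ := gp_tp h h1
    have := tp_cube h h1
    rw [h2] at this
    rw [e]
    have e2 : gp b P ^ 3 = 0 := by rw [h2]; ring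
    simp only [dd]
    rw [if_pos e2, inv_pow, this]
    congr 1
    ring
  · obtain ⟨hn, e⟩ := gp_tp h h1
    rw [e]
    have e2 : gp b P ^ 3 ≠ 0 := pow_ne_zero 3 h2
    simp only [dd]
    rw [if_neg e2]

end Pool.Agent.N181.T3
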