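import Pool.Agent.W309.TD.Kum
import Pool.Agent.N181.T3.Third

/-!
Kummer theory: a locally constant cubic character comes from a cube root.
-/

set_option autoImplicit false
set_option linter.all false

open WeierstrassCurve WeierstrassCurve.Affine
open scoped Classical Pointwise

namespace Pool.Agent.N181.T3

universe u

section cubes

variable {Ω : Type u} [Field Ω]

theorem cube_cases {z x : Ω} (hz : z ^ 2 + z + 1 = 0) (hx : x ^ 3 = 1) :
    x = 1 ∨ x = z ∨ x = z ^ 2 := by
  have h1 : (x - 1) * ((x - z) * (x - z ^ 2)) = 0 := by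
    linear_combination hx + (x - x ^ 2 * 1 + (z - 1) * (x - 1) ) * hz
  rcases mul_eq_zero.1 h1 with h | h
  · exact Or.inl (sub_eq_zero.1 h)
  · rcases mul_eq_zero.1 h with h | h
    · exact Or.inr (Or.inl (sub_eq_zero.1 h))
    · exact Or.inr (Or.inr (sub_eq_zero.1 h))

theorem prim_of {x : Ω} (hx : x ^ 3 = 1) (h1 : x ≠ 1) : x ^ 2 + x + 1 = 0 := by
  have : (x - 1) * (x ^ 2 + x + 1) = 0 := by linear_combination hx
  exact (mul_eq_zero.1 this).resolve_left (sub_ne_zero.2 h1)

end cubes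

section kummer

variable {K Ω : Type u} [Field K] [Field Ω] [Algebra K Ω] [IsGalois K Ω]

/-- A locally constant cubic character comes from a cube root. -/
theorem exists_root3 (χ : (Ω ≃ₐ[K] Ω) → Ω) (hχ : ∀ σ, χ σ ^ 3 = 1)
    (hfixχ : ∀ σ τ : Ω ≃ₐ[K] Ω, σ (χ τ) = χ τ)
    (hmul : ∀ σ τ, χ (σ * τ) = χ σ * χ τ) (hc : IsLocallyConstant χ) :
    ∃ (s : Ω) (a : K), s ≠ 0 ∧ s ^ 3 = algebraMap K Ω a ∧ ∀ σ, σ s = χ σ * s := by
  have hfix : ∀ s : Ω, (∀ σ, σ s = χ σ * s) → ∃ a : K, s ^ 3 = algebraMap K Ω a := by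
    intro s hs
    have : s ^ 3 ∈ Set.range (algebraMap K Ω) := by
      rw [InfiniteGalois.mem_range_algebraMap_iff_fixed]
      intro σ
      rw [map_pow, hs, mul_pow, hχ, one_mul]
    obtain ⟨a, ha⟩ := this
    exact ⟨a, ha.symm⟩
  have hne : ∀ σ, χ σ ≠ 0 := by
    intro σ h
    have := hχ σ
    rw [h] at this
    norm_num at this
  have hone : χ 1 = 1 := by
    have := hmul 1 1
    rw [mul_one] at this
    exact mul_left_cancel₀ (hne 1) (by rw [mul_one]; exact this.symm)
  by_cases htriv : ∀ σ, χ σ = 1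
  · obtain ⟨a, ha⟩ := hfix 1 (fun σ => by rw [htriv σ, map_one, mul_one])
    exact ⟨1, a, one_ne_zero, ha, fun σ => by rw [htriv σ, map_one, mul_one]⟩
  · push Not at htriv
    obtain ⟨τ, hτ⟩ := htriv
    obtain ⟨z, hzdef⟩ : ∃ z, z = χ τ := ⟨_, rfl⟩
    have hz : z ^ 2 + z + 1 = 0 := by rw [hzdef]; exact prim_of (hχ τ) hτ
    have hz3 : z ^ 3 = 1 := z3 hz
    let H : Subgroup (Ω ≃ₐ[K] Ω) :=
      { carrier := {σ | χ σ = 1}
        mul_mem' := by
          intro a b ha hb
          show χ (a * b) = 1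
          rw [hmul, show χ a = 1 from ha, show χ b = 1 from hb, mul_one]
        one_mem' := hone
        inv_mem' := by
          intro a ha
          show χ a⁻¹ = 1
          have := hmul a⁻¹ a
          rw [inv_mul_cancel, hone, show χ a = 1 from ha, mul_one] at this
          exact this.symm }
    have hHo : IsOpen (H : Set (Ω ≃ₐ[K] Ω)) := hc.isOpen_fiber 1
    let Hc : ClosedSubgroup (Ω ≃ₐ[K] Ω) := ⟨H, H.isClosed_of_isOpen hHo⟩
    have hfx := InfiniteGalois.fixingSubgroup_fixedField Hc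
    have hτn : τ ∉ (IntermediateField.fixedField (Hc : Subgroup (Ω ≃ₐ[K] Ω))).fixingSubgroup := by
      rw [hfx]
      intro h
      exact hτ h
    rw [IntermediateField.mem_fixingSubgroup_iff] at hτn
    push Not at hτn
    obtain ⟨x, hx, hx'⟩ := hτn
    have hxH : ∀ σ, χ σ = 1 → σ x = x := by
      intro σ hσ
      exact hx ⟨σ, hσ⟩
    -- the Lagrange resolvent
    have key : ∀ y : Ω, (∀ σ, χ σ = 1 → σ y = y) →
        ∀ σ, σ (y + z ^ 2 * τ y + z * τ (τ y)) = χ σ * (y + z ^ 2 * τ y + z * τ (τ y)) := by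
      intro y hy
      have hdep : ∀ σ σ', χ σ = χ σ' → σ y = σ' y := by
        intro σ σ' h
        have h3 : χ (σ'⁻¹ * σ) = 1 := by
          rw [hmul, h, ← hmul, inv_mul_cancel, hone]
        have h4 := hy _ h3
        rw [AlgEquiv.mul_apply] at h4
        have h5 := congrArg σ' h4
        rw [← AlgEquiv.mul_apply σ' σ'⁻¹, mul_inv_cancel, AlgEquiv.one_apply] at h5
        exact h5
      have hzσ : ∀ σ : Ω ≃ₐ[K] Ω, σ z = z := fun σ => by rw [hzdef]; exact hfixχ σ τ
      have hττ : χ (τ * τ) = z ^ 2 := by rw [hmul, ← hzdef]; ring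
      intro σ
      have e0 : σ (y + z ^ 2 * τ y + z * τ (τ y)) = σ y + z ^ 2 * (σ * τ) y +
          z * (σ * (τ * τ)) y := by
        rw [map_add, map_add, map_mul, map_mul, map_pow, hzσ]
        rfl
      rw [e0]
      rcases cube_cases hz (hχ σ) with h | h | h
      · have e1 : σ y = y := by
          have := hdep σ 1 (by rw [h, hone])
          rwa [AlgEquiv.one_apply] at this
        have e2 : (σ * τ) y = τ y := hdep _ _ (by rw [hmul, h, one_mul])
        have e3 : (σ * (τ * τ)) y = τ (τ y) := hdep _ (τ * τ) (by rw [hmul, h, one_mul])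
        rw [e1, e2, e3, h, one_mul]
      · have e1 : σ y = τ y := hdep _ _ (by rw [h, hzdef])
        have e2 : (σ * τ) y = τ (τ y) := hdep _ (τ * τ) (by rw [hmul, h, hττ, ← hzdef]; ring)
        have e3 : (σ * (τ * τ)) y = y := by
          have := hdep (σ * (τ * τ)) 1 (by rw [hmul, h, hττ, hone]; linear_combination hz3)
          rwa [AlgEquiv.one_apply] at this
        rw [e1, e2, e3, h]
        linear_combination -(τ y) * hz3
      · have e1 : σ y = τ (τ y) := hdep _ (τ * τ) (by rw [h, hττ])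
        have e2 : (σ * τ) y = y := by
          have := hdep (σ * τ) 1 (by rw [hmul, h, ← hzdef, hone]; linear_combination hz3)
          rwa [AlgEquiv.one_apply] at this
        have e3 : (σ * (τ * τ)) y = τ y := hdep _ _ (by
          rw [hmul, h, hττ, ← hzdef]; linear_combination z * hz3)
        rw [e1, e2, e3, h]
        linear_combination -(z * τ y + τ (τ y)) * hz3
    by_cases hS : x + z ^ 2 * τ x + z * τ (τ x) = 0
    · have hx2 : ∀ σ, χ σ = 1 → σ (x ^ 2) = x ^ 2 := fun σ h => by rw [map_pow, hxH σ h]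
      have hS2 : x ^ 2 + z ^ 2 * τ (x ^ 2) + z * τ (τ (x ^ 2)) ≠ 0 := by
        intro h2
        rw [map_pow, map_pow] at h2
        have h4 : (τ x - τ (τ x)) ^ 2 = 0 := by
          have h5 : x = -(z ^ 2 * τ x) - z * τ (τ x) := by linear_combination hS
          rw [h5] at h2
          have h6 : ∀ q r : Ω, (-(z ^ 2 * q) - z * r) ^ 2 + z ^ 2 * q ^ 2 + z * r ^ 2 =
              -(q - r) ^ 2 + (q ^ 2 + r ^ 2) * (z ^ 2 + z + 1) + (z * q ^ 2 + 2 * q * r) *
                (z ^ 3 - 1) := by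
            intro q r; ring
          have h7 := h6 (τ x) (τ (τ x))
          rw [hz, hz3] at h7
          have h8 : τ (-(z ^ 2 * τ x) - z * τ (τ x)) = τ x := by rw [← h5]
          rw [h8] at h2
          rw [h7] at h2
          linear_combination -h2
        have h9 : τ x = τ (τ x) := by
          have := pow_eq_zero_iff (two_ne_zero) |>.1 h4
          exact sub_eq_zero.1 this
        exact hx' (τ.injective h9).symm
      obtain ⟨a, ha⟩ := hfix _ (key _ hx2)
      exact ⟨_, a, hS2, ha, key _ hx2⟩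
    · obtain ⟨a, ha⟩ := hfix _ (key _ hxH)
      exact ⟨_, a, hS, ha, key _ hxH⟩

end kummer

end Pool.Agent.N181.T3
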