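import Pool.Agent.TH115.ID.Kum
import Pool.Agent.N181.T3.Root

/-!
The action of homomorphisms on the functions of a point.
-/

set_option autoImplicit false
set_option linter.all false

open WeierstrassCurve WeierstrassCurve.Affine
open scoped Classical

namespace Pool.Agent.N181.T3

open Pool.Agent.TH115.GD (Pt act incl rs ak act_zero act_some act_inj act_act)

universe u

section he

variable {F : Type u} [Field F] {W : Affine F} {a b z : F}

/-- The function of the second step: `he (P + (0, 0)) = z he (P)`. -/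
noncomputable def he (z b : F) : W.Point → F
  | .zero => 1
  | .some x y h => if x = 0 then (if y = 0 then z else z ^ 2) else
      if rb z (cu (Point.some x y h)) (cv b (Point.some x y h)) (cw (Point.some x y h)) = 0 then
        (ra z (cu (Point.some x y h)) (cv b (Point.some x y h)) (cw (Point.some x y h)))⁻¹ else
        rb z (cu (Point.some x y h)) (cv b (Point.some x y h)) (cw (Point.some x y h))

theorem he_zero : he z b (0 : W.Point) = 1 := rfl

theorem he_T (h : IsE W a b) : he z b (ptT h) = z := by simp [he, ptT]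

theorem he_negT (h : IsE W a b) : he z b (-(ptT h)) = z ^ 2 := by
  rw [negT h]
  simp [he, h.neb]

variable {u v w : F}

theorem Co.he (h : IsE W a b) {P : W.Point} (hP : Co a b P u v w) :
    he z b P = if rb z u v w = 0 then (ra z u v w)⁻¹ else rb z u v w := by
  obtain ⟨e1, e2, e3⟩ := hP.coord h
  obtain ⟨hu, hv, hw⟩ := hP.ne h
  obtain ⟨hn, rfl⟩ := hP.eq
  simp only [T3.he]
  rw [if_neg (neg_ne_zero.2 (mul_ne_zero hu hw)), e1, e2, e3]

/-- The multiples of `(0, 0)`. -/
def InT (h : IsE W a b) (S : W.Point) : Prop := S = 0 ∨ S = ptT h ∨ S = -(ptT h)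

theorem res_both (h : IsE W a b) (hz : z ^ 2 + z + 1 = 0) {P : W.Point} (hP : Co a b P u v w)
    (h0 : rb z u v w = 0) : ra z u v w ≠ 0 := by
  intro h1
  have := hP.res hz
  rw [h0, h1] at this
  apply h.ned
  linear_combination this

theorem he_ne (h : IsE W a b) (hz : z ^ 2 + z + 1 = 0) (P : W.Point) : he z b P ≠ 0 := by
  by_cases h0 : P = 0
  · rw [h0, he_zero]; exact one_ne_zero
  by_cases h1 : P = ptT h
  · rw [h1, he_T]; exact z_ne hz
  by_cases h2 : P = -(ptT h)
  · rw [h2, he_negT]; exact pow_ne_zero 2 (z_ne hz)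
  obtain ⟨u, v, w, hc⟩ := exists_co h P h0 h1 h2
  rw [hc.he h]
  split_ifs with h3
  · exact inv_ne_zero (res_both h hz hc h3)
  · exact h3

theorem he_addT (h : IsE W a b) (hz : z ^ 2 + z + 1 = 0) (P : W.Point) :
    he z b (P + ptT h) = z * he z b P := by
  have hz3 := z3 hz
  by_cases h0 : P = 0
  · rw [h0, zero_add, he_zero, he_T, mul_one]
  by_cases h1 : P = ptT h
  · rw [h1, TT, he_T, he_negT]; ring
  by_cases h2 : P = -(ptT h)
  · rw [h2, neg_add_cancel, he_zero, he_negT]
    linear_combination -hz3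
  obtain ⟨u, v, w, hc⟩ := exists_co h P h0 h1 h2
  have hz0 := z_ne hz
  rw [hc.he h, (hc.addT h).he h]
  have e1 : ra z v w u = z ^ 2 * ra z u v w := by
    rw [← ra_cyc hz u v w]
    linear_combination -(ra z v w u) * hz3
  have e2 : rb z v w u = z * rb z u v w := by
    rw [← rb_cyc hz u v w]
    linear_combination -(rb z v w u) * hz3
  rw [e1, e2]
  by_cases h3 : rb z u v w = 0
  · rw [if_pos h3, if_pos (by rw [h3, mul_zero])]
    have hA := res_both h hz hc h3
    field_simp
    linear_combination -hz3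
  · rw [if_neg h3, if_neg (mul_ne_zero hz0 h3)]

theorem he_add (h : IsE W a b) (hz : z ^ 2 + z + 1 = 0) (P : W.Point) {S : W.Point}
    (hS : InT h S) : he z b (P + S) = he z b S * he z b P := by
  have hz3 := z3 hz
  rcases hS with rfl | rfl | rfl
  · rw [add_zero, he_zero, one_mul]
  · rw [he_addT h hz, he_T]
  · have := he_addT h hz (P + -(ptT h))
    rw [neg_add_cancel_right] at this
    rw [he_negT, this]
    linear_combination -(he z b (P + -(ptT h))) * hz3

theorem InT.add (h : IsE W a b) {S T : W.Point} (hS : InT h S) (hT : InT h T) : InT h (S + T) := by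
  have h2 := TT h
  have h3 := TTT h
  have h4 : -(ptT h) + -(ptT h) = ptT h := by
    rw [← neg_add, h2, neg_neg]
  rcases hS with rfl | rfl | rfl <;> rcases hT with rfl | rfl | rfl
  · exact Or.inl (add_zero _)
  · exact Or.inr (Or.inl (zero_add _))
  · exact Or.inr (Or.inr (zero_add _))
  · exact Or.inr (Or.inl (add_zero _))
  · exact Or.inr (Or.inr h2)
  · exact Or.inl (add_neg_cancel _)
  · exact Or.inr (Or.inr (add_zero _))
  · exact Or.inl (neg_add_cancel _)
  · exact Or.inr (Or.inl h4)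

theorem InT.neg (h : IsE W a b) {S : W.Point} (hS : InT h S) : InT h (-S) := by
  rcases hS with rfl | rfl | rfl
  · exact Or.inl neg_zero
  · exact Or.inr (Or.inr rfl)
  · exact Or.inr (Or.inl (neg_neg _))

theorem InT.sub (h : IsE W a b) {S T : W.Point} (hS : InT h S) (hT : InT h T) : InT h (S - T) := by
  rw [sub_eq_add_neg]
  exact hS.add h (hT.neg h)

theorem InT.three (h : IsE W a b) {S : W.Point} (hS : InT h S) : S + S + S = 0 := by
  have h3 := TTT h
  rcases hS with rfl | rfl | rfl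
  · simp
  · exact h3
  · calc -(ptT h) + -(ptT h) + -(ptT h) = -(ptT h + ptT h + ptT h) := by abel
      _ = 0 := by rw [h3, neg_zero]

theorem InT.inj (h : IsE W a b) (hz : z ^ 2 + z + 1 = 0) {S T : W.Point} (hS : InT h S)
    (hT : InT h T) (e : he z b S = he z b T) : S = T := by
  have hz1 : z ≠ 1 := z_ne_one hz h.three
  have hz3 := z3 hz
  have hz2 : z ^ 2 ≠ 1 := by
    intro h'
    apply hz1
    linear_combination hz3 - z * h'
  have hzz : z ^ 2 ≠ z := by
    intro h'
    apply hz1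
    apply mul_left_cancel₀ (z_ne hz)
    linear_combination h'
  rcases hS with rfl | rfl | rfl <;> rcases hT with rfl | rfl | rfl <;>
    simp only [he_zero, he_T, he_negT] at e
  · rfl
  · exact absurd e.symm hz1
  · exact absurd e.symm hz2
  · exact absurd e hz1
  · rfl
  · exact absurd e.symm hzz
  · exact absurd e hz2
  · exact absurd e hzz
  · rfl

end he

section action

variable {K Ω Ω' : Type u} [Field K] [Field Ω] [Field Ω'] [Algebra K Ω] [Algebra K Ω'] {a b : K}

theorem isE (h3 : (3 : K) ≠ 0) (hb : b ≠ 0) (hd : a ^ 3 - 27 * b ≠ 0) (Ω : Type u) [Field Ω]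
    [Algebra K Ω] : IsE ((crv3 a b).baseChange Ω).toAffine (algebraMap K Ω a)
      (algebraMap K Ω b) := by
  refine ⟨rfl, map_zero _, rfl, map_zero _, map_zero _, ?_, ?_, ?_⟩
  · rw [← map_ofNat (algebraMap K Ω) 3]
    exact (map_ne_zero _).2 h3
  · exact (map_ne_zero _).2 hb
  · have : algebraMap K Ω a ^ 3 - 27 * algebraMap K Ω b = algebraMap K Ω (a ^ 3 - 27 * b) := by
      rw [map_sub, map_pow, map_mul, map_ofNat]
    rw [this]
    exact (map_ne_zero _).2 hd

variable (W : WeierstrassCurve K)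

theorem cu_act (φ : Ω →ₐ[K] Ω') (P : Pt W Ω) : cu (act W φ P) = φ (cu P) := by
  rcases P with _ | ⟨x, y, hxy⟩
  · rw [act_zero]; simp [cu]
  · obtain ⟨h, hh⟩ := act_some W φ hxy
    rw [hh]
    simp only [cu, map_div₀, map_neg]

theorem cv_act (φ : Ω →ₐ[K] Ω') (b : Ω) (P : Pt W Ω) : cv (φ b) (act W φ P) = φ (cv b P) := by
  rcases P with _ | ⟨x, y, hxy⟩
  · rw [act_zero]; simp [cv]
  · obtain ⟨h, hh⟩ := act_some W φ hxy
    rw [hh]
    simp only [cv, map_div₀, map_neg]

theorem cw_act (φ : Ω →ₐ[K] Ω') (P : Pt W Ω) : cw (act W φ P) = φ (cw P) := by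
  rcases P with _ | ⟨x, y, hxy⟩
  · rw [act_zero]; simp [cw]
  · obtain ⟨h, hh⟩ := act_some W φ hxy
    rw [hh]
    simp only [cw, map_div₀, map_pow]

theorem gg_map (φ : Ω →ₐ[K] Ω') (u v w : Ω) : gg (φ u) (φ v) (φ w) = φ (gg u v w) := by
  unfold gg qq
  simp only [map_div₀, map_sub, map_add, map_mul, map_pow, map_ofNat]

theorem gt_map (φ : Ω →ₐ[K] Ω') (u v w : Ω) : gt (φ u) (φ v) (φ w) = φ (gt u v w) := by
  unfold gt qq
  simp only [map_div₀, map_sub, map_add, map_mul, map_pow, map_ofNat, map_neg]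

theorem ra_map (φ : Ω →ₐ[K] Ω') (z u v w : Ω) : ra (φ z) (φ u) (φ v) (φ w) = φ (ra z u v w) := by
  unfold ra
  simp only [map_add, map_mul, map_pow]

theorem rb_map (φ : Ω →ₐ[K] Ω') (z u v w : Ω) : rb (φ z) (φ u) (φ v) (φ w) = φ (rb z u v w) := by
  unfold rb
  simp only [map_add, map_mul, map_pow]

theorem gp_act (φ : Ω →ₐ[K] Ω') (b : Ω) (P : Pt W Ω) : gp (φ b) (act W φ P) = φ (gp b P) := by
  unfold gp
  rw [cu_act, cv_act, cw_act, gg_map]

theorem tp_act (φ : Ω →ₐ[K] Ω') (b : Ω) (P : Pt W Ω) : tp (φ b) (act W φ P) = φ (tp b P) := by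
  unfold tp
  rw [cu_act, cv_act, cw_act, gt_map]

theorem three_act (φ : Ω →ₐ[K] Ω') (P : Pt W Ω) :
    act W φ P + act W φ P + act W φ P = 0 ↔ P + P + P = 0 := by
  rw [← map_add, ← map_add]
  constructor
  · intro h
    apply act_inj W φ
    rw [h, map_zero]
  · intro h
    rw [h, map_zero]

theorem wt_act (φ : Ω →ₐ[K] Ω') (b : Ω) (P : Pt W Ω) : wt (φ b) (act W φ P) = φ (wt b P) := by
  rcases P with _ | ⟨x, y, hxy⟩
  · rw [act_zero]; simp [wt]
  · obtain ⟨h, hh⟩ := act_some W φ hxy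
    rw [hh]
    simp only [wt, map_eq_zero]
    split_ifs <;> simp [map_div₀]

theorem dd_act (φ : Ω →ₐ[K] Ω') (b : Ω) (P : Pt W Ω) : dd (φ b) (act W φ P) = φ (dd b P) := by
  rcases P with _ | ⟨x, y, hxy⟩
  · rw [act_zero]; simp [dd]
  · obtain ⟨h, hh⟩ := act_some W φ hxy
    rw [hh]
    simp only [dd, map_eq_zero]
    split_ifs <;> simp

theorem hh_act (φ : Ω →ₐ[K] Ω') (b : Ω) (P : Pt W Ω) : hh (φ b) (act W φ P) = φ (hh b P) := by
  unfold hh
  rw [gp_act, tp_act, wt_act]
  simp only [three_act, map_eq_zero]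
  split_ifs <;> simp

theorem he_act (φ : Ω →ₐ[K] Ω') (z b : Ω) (P : Pt W Ω) :
    he (φ z) (φ b) (act W φ P) = φ (he z b P) := by
  rcases P with _ | ⟨x, y, hxy⟩
  · rw [act_zero]; simp [he]
  · have e1 := cu_act W φ (Point.some x y hxy)
    have e2 := cv_act W φ b (Point.some x y hxy)
    have e3 := cw_act W φ (Point.some x y hxy)
    obtain ⟨h, hh⟩ := act_some W φ hxy
    rw [hh] at e1 e2 e3 ⊢
    simp only [he]
    rw [e1, e2, e3, ra_map, rb_map]
    simp only [map_eq_zero]
    split_ifs <;> simp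

theorem ptT_act (φ : Ω →ₐ[K] Ω')
    (h : IsE ((crv3 a b).baseChange Ω).toAffine (algebraMap K Ω a) (algebraMap K Ω b))
    (h' : IsE ((crv3 a b).baseChange Ω').toAffine (algebraMap K Ω' a) (algebraMap K Ω' b)) :
    act (crv3 a b) φ (ptT h) = ptT h' := by
  unfold ptT
  obtain ⟨h, hh⟩ := act_some (crv3 a b) φ (h.nonsingular.2 (by ring) :
    ((crv3 a b).baseChange Ω).toAffine.Nonsingular 0 0)
  rw [hh]
  simp only [map_zero]

theorem InT.act {φ : Ω →ₐ[K] Ω'}
    {h : IsE ((crv3 a b).baseChange Ω).toAffine (algebraMap K Ω a) (algebraMap K Ω b)}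
    (h' : IsE ((crv3 a b).baseChange Ω').toAffine (algebraMap K Ω' a) (algebraMap K Ω' b))
    {S : Pt (crv3 a b) Ω} (hS : InT h S) : InT h' (act (crv3 a b) φ S) := by
  rcases hS with rfl | rfl | rfl
  · exact Or.inl (map_zero _)
  · exact Or.inr (Or.inl (ptT_act φ h h'))
  · exact Or.inr (Or.inr (by rw [map_neg, ptT_act φ h h']))

/-- The multiples of `(0, 0)` are rational. -/
theorem InT.fix {φ : Ω →ₐ[K] Ω}
    {h : IsE ((crv3 a b).baseChange Ω).toAffine (algebraMap K Ω a) (algebraMap K Ω b)}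
    {S : Pt (crv3 a b) Ω} (hS : InT h S) : Pool.Agent.TH115.GD.act (crv3 a b) φ S = S := by
  rcases hS with rfl | rfl | rfl
  · exact map_zero _
  · exact ptT_act φ h h
  · rw [map_neg, ptT_act φ h h]

end action

end Pool.Agent.N181.T3
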