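import Mathlib

/-!
Group law formulas for the curves `y ^ 2 + a x y + b y = x ^ 3` over a field in which `3 ≠ 0`, in the
coordinates `u = - y / x`, `v = - b / x`, `w = x ^ 2 / y` with `u + v + w = a`, `u v w = b`.
-/

set_option autoImplicit false
set_option linter.all false

open WeierstrassCurve WeierstrassCurve.Affine

namespace Pool.Agent.N181.T3

/-- The Weierstrass curve `y ^ 2 + a x y + b y = x ^ 3`. -/
structure IsE {F : Type*} [Field F] (W : Affine F) (a b : F) : Prop where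
  a1 : W.a₁ = a
  a2 : W.a₂ = 0
  a3 : W.a₃ = b
  a4 : W.a₄ = 0
  a6 : W.a₆ = 0
  three : (3 : F) ≠ 0
  neb : b ≠ 0
  ned : a ^ 3 - 27 * b ≠ 0

variable {F : Type*} [Field F] {W : Affine F} {a b : F}

theorem IsE.equation (h : IsE W a b) {x y : F} :
    W.Equation x y ↔ y ^ 2 + a * x * y + b * y = x ^ 3 := by
  rw [W.equation_iff, h.a1, h.a2, h.a3, h.a4, h.a6]
  constructor <;> intro h' <;> linear_combination h'

theorem IsE.nonsingular (h : IsE W a b) {x y : F} :
    W.Nonsingular x y ↔ y ^ 2 + a * x * y + b * y = x ^ 3 := by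
  rw [W.nonsingular_iff, h.equation, h.a1, h.a2, h.a3, h.a4]
  refine ⟨fun h' => h'.1, fun h' => ⟨h', ?_⟩⟩
  by_contra hc
  push Not at hc
  obtain ⟨h1, h2⟩ := hc
  have e1 : a * y = 3 * x ^ 2 := by linear_combination h1
  have e2 : b = -(2 * y) - a * x := by linear_combination h2
  have e3 : y ^ 2 = -x ^ 3 := by
    rw [e2] at h'
    linear_combination -h'
  have hy : y ≠ 0 := by
    rintro rfl
    have hx : x = 0 := by
      have : x ^ 3 = 0 := by linear_combination e3
      exact pow_eq_zero_iff (three_ne_zero) |>.1 this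
    apply h.neb
    rw [e2, hx]; ring
  have e4 : b = y := by
    apply mul_right_cancel₀ hy
    linear_combination y * e2 - x * e1 - 3 * e3
  have e5 : a ^ 3 = 27 * y := by
    apply mul_right_cancel₀ (pow_ne_zero 3 hy)
    have : (a * y) ^ 3 = 27 * (y ^ 2) ^ 2 := by rw [e1, e3]; ring
    linear_combination this
  exact h.ned (by rw [e4, e5]; ring)

theorem IsE.negY (h : IsE W a b) (x y : F) : W.negY x y = -(y + a * x + b) := by
  simp [WeierstrassCurve.Affine.negY, h.a1, h.a3]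
  ring

/-- The coordinates `u`, `v`, `w`. -/
noncomputable def cu : W.Point → F
  | .zero => 0
  | .some x y _ => -y / x

/-- The coordinate `v`. -/
noncomputable def cv (b : F) : W.Point → F
  | .zero => 0
  | .some x _ _ => -b / x

/-- The coordinate `w`. -/
noncomputable def cw : W.Point → F
  | .zero => 0
  | .some x y _ => x ^ 2 / y

/-- `P` is the point with coordinates `u`, `v`, `w`. -/
structure Co (a b : F) (P : W.Point) (u v w : F) : Prop where
  sum : u + v + w = a
  prod : u * v * w = b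
  eq : ∃ h : W.Nonsingular (-(u * w)) (u ^ 2 * w), P = Point.some _ _ h

section co

variable {u v w : F}

theorem IsE.nons (h : IsE W a b) (h1 : u + v + w = a) (h2 : u * v * w = b) :
    W.Nonsingular (-(u * w)) (u ^ 2 * w) := by
  rw [h.nonsingular, ← h1, ← h2]
  ring

theorem IsE.co (h : IsE W a b) (h1 : u + v + w = a) (h2 : u * v * w = b) :
    ∃ P : W.Point, Co a b P u v w := ⟨Point.some _ _ (h.nons h1 h2), h1, h2, h.nons h1 h2, rfl⟩

theorem Co.ne (h : IsE W a b) {P : W.Point} (hP : Co a b P u v w) : u ≠ 0 ∧ v ≠ 0 ∧ w ≠ 0 := by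
  refine ⟨?_, ?_, ?_⟩ <;> rintro rfl <;> apply h.neb <;> rw [← hP.prod] <;> ring

theorem Co.coord (h : IsE W a b) {P : W.Point} (hP : Co a b P u v w) :
    cu P = u ∧ cv b P = v ∧ cw P = w := by
  obtain ⟨hu, hv, hw⟩ := hP.ne h
  obtain ⟨hn, rfl⟩ := hP.eq
  refine ⟨?_, ?_, ?_⟩
  · simp only [cu]; field_simp
  · simp only [cv]; rw [← hP.prod]; field_simp
  · simp only [cw]; field_simp

/-- The point `(0, 0)` of order three. -/
noncomputable def ptT (h : IsE W a b) : W.Point := Point.some 0 0 (h.nonsingular.2 (by ring))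

theorem x_zero (h : IsE W a b) {y : F} (hn : W.Nonsingular 0 y) : y = 0 ∨ y = -b := by
  have := h.nonsingular.1 hn
  have h1 : y * (y + b) = 0 := by linear_combination this
  rcases mul_eq_zero.1 h1 with h2 | h2
  · exact Or.inl h2
  · exact Or.inr (by linear_combination h2)

theorem negT (h : IsE W a b) : -(ptT h) = Point.some 0 (-b) (h.nonsingular.2 (by ring)) := by
  unfold ptT
  rw [Point.neg_some]
  simp only [h.negY, mul_zero, add_zero, zero_add]

/-- Every point which is not a multiple of `(0, 0)` has coordinates `u`, `v`, `w`. -/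
theorem exists_co (h : IsE W a b) (P : W.Point) (h0 : P ≠ 0) (h1 : P ≠ ptT h) (h2 : P ≠ -(ptT h)) :
    ∃ u v w, Co a b P u v w := by
  rcases P with _ | ⟨x, y, hxy⟩
  · exact absurd rfl h0
  have hx : x ≠ 0 := by
    rintro rfl
    rcases x_zero h hxy with rfl | rfl
    · exact h1 rfl
    · rw [negT h] at h2
      exact h2 rfl
  have he := h.nonsingular.1 hxy
  have hy : y ≠ 0 := by
    rintro rfl
    apply pow_ne_zero 3 hx
    rw [← he]; ring
  have e1 : -(-y / x * (x ^ 2 / y)) = x := by field_simp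
  have e2 : (-y / x) ^ 2 * (x ^ 2 / y) = y := by field_simp
  refine ⟨-y / x, -b / x, x ^ 2 / y, ?_, ?_, ?_⟩
  · field_simp
    linear_combination -he
  · field_simp
  · have hn : W.Nonsingular (-(-y / x * (x ^ 2 / y))) ((-y / x) ^ 2 * (x ^ 2 / y)) := by
      rw [e1, e2]; exact hxy
    exact ⟨hn, by simp only [e1, e2]⟩

theorem Co.notT (h : IsE W a b) {P : W.Point} (hP : Co a b P u v w) :
    P ≠ 0 ∧ P ≠ ptT h ∧ P ≠ -(ptT h) := by
  obtain ⟨hu, hv, hw⟩ := hP.ne h
  obtain ⟨hn, rfl⟩ := hP.eq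
  refine ⟨Point.some_ne_zero _, ?_, ?_⟩
  · intro h'
    have := (Point.some.inj h').1
    exact mul_ne_zero hu hw (by linear_combination -this)
  · intro h'
    rw [negT h] at h'
    have := (Point.some.inj h').1
    exact mul_ne_zero hu hw (by linear_combination -this)

theorem Co.neg (h : IsE W a b) {P : W.Point} (hP : Co a b P u v w) : Co a b (-P) w v u := by
  obtain ⟨hn, rfl⟩ := hP.eq
  have h1 : w + v + u = a := by rw [← hP.sum]; ring
  have h2 : w * v * u = b := by rw [← hP.prod]; ring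
  refine ⟨h1, h2, h.nons h1 h2, ?_⟩
  rw [Point.neg_some]
  have e1 : -(u * w) = -(w * u) := by ring
  have e2 : W.negY (-(w * u)) (u ^ 2 * w) = w ^ 2 * u := by
    rw [h.negY, ← hP.sum, ← hP.prod]; ring
  simp only [e1, e2]

theorem Co.ext {P Q : W.Point} (hP : Co a b P u v w) (hQ : Co a b Q u v w) : P = Q := by
  obtain ⟨h1, rfl⟩ := hP.eq
  obtain ⟨h2, rfl⟩ := hQ.eq
  rfl

variable [DecidableEq F]

/-- Translation by `(0, 0)`. -/
theorem Co.addT (h : IsE W a b) {P : W.Point} (hP : Co a b P u v w) :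
    Co a b (P + ptT h) v w u := by
  obtain ⟨hu, hv, hw⟩ := hP.ne h
  obtain ⟨hn, rfl⟩ := hP.eq
  have h1 : v + w + u = a := by rw [← hP.sum]; ring
  have h2 : v * w * u = b := by rw [← hP.prod]; ring
  refine ⟨h1, h2, h.nons h1 h2, ?_⟩
  have hx : -(u * w) ≠ 0 := neg_ne_zero.2 (mul_ne_zero hu hw)
  unfold ptT
  rw [Point.add_of_X_ne hx]
  have e1 : W.addX (-(u * w)) 0 (W.slope (-(u * w)) 0 (u ^ 2 * w) 0) = -(v * u) := by
    rw [slope_of_X_ne hx, addX, h.a1, h.a2, ← hP.sum]
    field_simp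
    ring
  have e2 : W.addY (-(u * w)) 0 (u ^ 2 * w) (W.slope (-(u * w)) 0 (u ^ 2 * w) 0) = v ^ 2 * u := by
    rw [addY, negAddY, e1, slope_of_X_ne hx, h.negY, ← hP.sum, ← hP.prod]
    field_simp
    ring
  simp only [e1, e2]

theorem TT (h : IsE W a b) : ptT h + ptT h = -(ptT h) := by
  have hb := h.neb
  have hy : (0 : F) ≠ W.negY 0 0 := by
    rw [h.negY]
    intro h'
    apply hb
    linear_combination h'
  rw [negT]
  unfold ptT
  rw [Point.add_self_of_Y_ne hy]
  have hs : W.slope 0 0 0 0 = 0 := by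
    rw [slope_of_Y_ne rfl hy, h.a1, h.a2, h.a4]
    simp
  have e1 : W.addX 0 0 (W.slope 0 0 0 0) = 0 := by
    rw [hs, addX, h.a1, h.a2]; ring
  have e2 : W.addY 0 0 0 (W.slope 0 0 0 0) = -b := by
    rw [addY, negAddY, e1, hs, h.negY]; ring
  simp only [e1, e2]

theorem TTT (h : IsE W a b) : ptT h + ptT h + ptT h = 0 := by
  rw [TT]; exact neg_add_cancel _

theorem Co.subT (h : IsE W a b) {P : W.Point} (hP : Co a b P u v w) :
    Co a b (P - ptT h) w u v := by
  have h1 := ((hP.addT h).addT h)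
  have h2 : P + ptT h + ptT h = P - ptT h := by
    rw [add_assoc, TT]; abel
  rwa [h2] at h1

/-- The double of a point. -/
theorem Co.dbl (h : IsE W a b) {P : W.Point} (hP : Co a b P u v w) (hne : u ≠ w) :
    ∃ hn, P + P = Point.some (-(u * w * (v - w) * (u - v)) / (w - u) ^ 2)
      (u * w ^ 2 * (u - v) ^ 3 / (w - u) ^ 3) hn := by
  obtain ⟨hu, hv, hw⟩ := hP.ne h
  obtain ⟨hn, rfl⟩ := hP.eq
  have hd : w - u ≠ 0 := sub_ne_zero.2 (Ne.symm hne)
  have hd' : u - w ≠ 0 := sub_ne_zero.2 hne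
  have hsub : u ^ 2 * w - W.negY (-(u * w)) (u ^ 2 * w) = u * w * (u - w) := by
    rw [h.negY, ← hP.sum, ← hP.prod]; ring
  have hy : u ^ 2 * w ≠ W.negY (-(u * w)) (u ^ 2 * w) := by
    rw [← sub_ne_zero, hsub]
    exact mul_ne_zero (mul_ne_zero hu hw) hd'
  have hs : W.slope (-(u * w)) (-(u * w)) (u ^ 2 * w) (u ^ 2 * w) =
      u * (2 * w - u - v) / (u - w) := by
    rw [slope_of_Y_ne rfl hy, hsub, h.a1, h.a2, h.a4, ← hP.sum]
    field_simp
    ring
  have e1 : W.addX (-(u * w)) (-(u * w)) (W.slope (-(u * w)) (-(u * w)) (u ^ 2 * w) (u ^ 2 * w)) =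
      -(u * w * (v - w) * (u - v)) / (w - u) ^ 2 := by
    rw [hs, addX, h.a1, h.a2, ← hP.sum]
    have : (w - u) ^ 2 = (u - w) ^ 2 := by ring
    rw [this]
    field_simp
    ring
  have e2 : W.addY (-(u * w)) (-(u * w)) (u ^ 2 * w)
      (W.slope (-(u * w)) (-(u * w)) (u ^ 2 * w) (u ^ 2 * w)) =
      u * w ^ 2 * (u - v) ^ 3 / (w - u) ^ 3 := by
    rw [addY, negAddY, e1, hs, h.negY, ← hP.sum, ← hP.prod]
    have : (w - u) = -(u - w) := by ring
    rw [this]
    field_simp
    ring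
  have hn' : W.Nonsingular (-(u * w * (v - w) * (u - v)) / (w - u) ^ 2)
      (u * w ^ 2 * (u - v) ^ 3 / (w - u) ^ 3) := by
    rw [← e1, ← e2]
    exact nonsingular_add hn hn fun hxy => hy hxy.2
  refine ⟨hn', ?_⟩
  rw [Point.add_self_of_Y_ne hy]
  simp only [e1, e2]

end co

end Pool.Agent.N181.T3
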