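import Pool.Agent.N181.T3.Trans

/-!
The functions `g` on the points, and the character of the points of order three.
-/

set_option autoImplicit false
set_option linter.all false

open WeierstrassCurve WeierstrassCurve.Affine

namespace Pool.Agent.N181.T3

section res

variable {F : Type*} [Field F] {a b z u v w : F}

theorem gg_res (hz : z ^ 2 + z + 1 = 0) (hq : qq u v w ≠ 0) :
    9 * gg u v w * (ra z u v w * rb z u v w) =
      -(1 - z) * ra z u v w ^ 3 - (1 - z ^ 2) * rb z u v w ^ 3 +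
        3 * (u + v + w) * (ra z u v w * rb z u v w) := by
  rw [← num_gg hz, ra_mul_rb hz]
  unfold gg
  field_simp

theorem gt_res (hz : z ^ 2 + z + 1 = 0) (hq : qq u v w ≠ 0) :
    9 * gt u v w * (ra z u v w * rb z u v w) =
      (1 - z) * rb z u v w ^ 3 + (1 - z ^ 2) * ra z u v w ^ 3 -
        3 * (u + v + w) * (ra z u v w * rb z u v w) := by
  have e : (1 - z) * rb z u v w ^ 3 + (1 - z ^ 2) * ra z u v w ^ 3 -
        3 * (u + v + w) * (ra z u v w * rb z u v w) = -(-(1 - z) * rb z u v w ^ 3 -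
        (1 - z ^ 2) * ra z u v w ^ 3 + 3 * (u + v + w) * (ra z u v w * rb z u v w)) := by ring
  rw [e, ← num_gt hz, ra_mul_rb hz]
  unfold gt
  field_simp

end res

variable {F : Type*} [Field F] {W : Affine F} {a b z u v w : F}

/-- The character of the group of points of order three with kernel generated by `(0, 0)`. -/
noncomputable def wt (b : F) [DecidableEq F] : W.Point → F
  | .zero => 1
  | .some x y _ => if x = 0 then 1 else (x ^ 2 / y - -y / x) / (-b / x - x ^ 2 / y)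

/-- The function `g` on the points. -/
noncomputable def gp (b : F) (P : W.Point) : F := gg (cu P) (cv b P) (cw P)

/-- The function `g'` on the points. -/
noncomputable def tp (b : F) (P : W.Point) : F := gt (cu P) (cv b P) (cw P)

theorem Co.gp (h : IsE W a b) {P : W.Point} (hP : Co a b P u v w) :
    gp b P = gg u v w ∧ tp b P = gt u v w := by
  obtain ⟨e1, e2, e3⟩ := hP.coord h
  unfold T3.gp tp
  rw [e1, e2, e3]
  exact ⟨rfl, rfl⟩

theorem Co.vw (h : IsE W a b) {P : W.Point} (hP : Co a b P u v w) (hq : qq u v w = 0) : v ≠ w := by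
  rintro rfl
  have h1 : (u - v) ^ 2 = 0 := by rw [← hq]; unfold qq; ring
  have h2 : u = v := by
    have := pow_eq_zero_iff (two_ne_zero) |>.1 h1
    linear_combination this
  apply h.ned
  rw [← hP.sum, ← hP.prod, h2]; ring

variable [DecidableEq F]

theorem Co.wt (h : IsE W a b) {P : W.Point} (hP : Co a b P u v w) :
    wt b P = (w - u) / (v - w) := by
  obtain ⟨e1, e2, e3⟩ := hP.coord h
  obtain ⟨hu, hv, hw⟩ := hP.ne h
  obtain ⟨hn, rfl⟩ := hP.eq
  simp only [T3.wt]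
  rw [if_neg (neg_ne_zero.2 (mul_ne_zero hu hw))]
  simp only [cu, cv, cw] at e1 e2 e3
  rw [e1, e2, e3]

theorem Co.wt_eq (h : IsE W a b) {P : W.Point} (hP : Co a b P u v w) (hq : qq u v w = 0) :
    T3.wt b P ^ 2 + T3.wt b P + 1 = 0 ∧ ra (T3.wt b P) u v w = 0 := by
  have hvw : v - w ≠ 0 := sub_ne_zero.2 (hP.vw h hq)
  rw [hP.wt h]
  have h1 : ((w - u) / (v - w)) ^ 2 + (w - u) / (v - w) + 1 = 0 := by
    have : ((w - u) / (v - w)) ^ 2 + (w - u) / (v - w) + 1 = qq u v w / (v - w) ^ 2 := by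
      field_simp
      unfold qq
      ring
    rw [this, hq, zero_div]
  refine ⟨h1, ?_⟩
  have h2 : ra ((w - u) / (v - w)) u v w = (u - w) + (w - u) / (v - w) * (v - w) := by
    unfold ra
    linear_combination w * h1
  rw [h2]
  field_simp
  ring

theorem Co.wt_of (h : IsE W a b) (hz : z ^ 2 + z + 1 = 0) {P : W.Point} (hP : Co a b P u v w)
    (h0 : ra z u v w = 0) : T3.wt b P = z := by
  have hq : qq u v w = 0 := by rw [← ra_mul_rb hz, h0, zero_mul]
  have hvw : v - w ≠ 0 := sub_ne_zero.2 (hP.vw h hq)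
  rw [hP.wt h, div_eq_iff hvw]
  unfold ra at h0
  linear_combination w * hz - h0

omit [DecidableEq F] in
theorem three_zero (h : IsE W a b) {P : W.Point} : True := trivial

theorem wt_zero : T3.wt b (0 : W.Point) = 1 := rfl

theorem wt_T (h : IsE W a b) : T3.wt b (ptT h) = 1 := by simp [T3.wt, ptT]

theorem wt_negT (h : IsE W a b) : T3.wt b (-(ptT h)) = 1 := by
  rw [negT h]; simp [T3.wt]

/-- The points of order three. -/
theorem tor_cases (h : IsE W a b) {S : W.Point} (hS : S + S + S = 0) :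
    (S = 0 ∨ S = ptT h ∨ S = -(ptT h)) ∨
      (∃ u v w, Co a b S u v w ∧ qq u v w = 0 ∧ T3.wt b S ^ 2 + T3.wt b S + 1 = 0 ∧
        ra (T3.wt b S) u v w = 0) := by
  by_cases h0 : S = 0
  · exact Or.inl (Or.inl h0)
  by_cases h1 : S = ptT h
  · exact Or.inl (Or.inr (Or.inl h1))
  by_cases h2 : S = -(ptT h)
  · exact Or.inl (Or.inr (Or.inr h2))
  obtain ⟨u, v, w, hc⟩ := exists_co h S h0 h1 h2
  have hq := (hc.three h).1 hS
  exact Or.inr ⟨u, v, w, hc, hq, hc.wt_eq h hq⟩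

theorem wt_three (h : IsE W a b) {S : W.Point} (hS : S + S + S = 0) : T3.wt b S ^ 3 = 1 := by
  rcases tor_cases h hS with (rfl | rfl | rfl) | ⟨u, v, w, -, -, h1, -⟩
  · rw [wt_zero, one_pow]
  · rw [wt_T, one_pow]
  · rw [wt_negT, one_pow]
  · exact z3 h1

theorem wt_ne (h : IsE W a b) {S : W.Point} (hS : S + S + S = 0) : T3.wt b S ≠ 0 := by
  intro h0
  have := wt_three h hS
  rw [h0] at this
  norm_num at this

theorem wt_one (h : IsE W a b) {S : W.Point} (hS : S + S + S = 0) (h1 : T3.wt b S = 1) :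
    S = 0 ∨ S = ptT h ∨ S = -(ptT h) := by
  rcases tor_cases h hS with h2 | ⟨u, v, w, -, -, h2, -⟩
  · exact h2
  · exact absurd h1 (z_ne_one h2 h.three)

theorem sum3 {P : W.Point} (h : IsE W a b) : P + ptT h + (P + ptT h) + (P + ptT h) = P + P + P := by
  have := TTT h
  calc P + ptT h + (P + ptT h) + (P + ptT h) = P + P + P + (ptT h + ptT h + ptT h) := by abel
    _ = _ := by rw [this, add_zero]

/-- A point which is not of order three has coordinates. -/
theorem co_of_three (h : IsE W a b) {P : W.Point} (hP : P + P + P ≠ 0) :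
    ∃ u v w, Co a b P u v w ∧ qq u v w ≠ 0 := by
  have h0 : P ≠ 0 := by
    rintro rfl
    apply hP; simp
  have h1 : P ≠ ptT h := by
    rintro rfl
    exact hP (TTT h)
  have h2 : P ≠ -(ptT h) := by
    rintro rfl
    apply hP
    have := TTT h
    calc -(ptT h) + -(ptT h) + -(ptT h) = -(ptT h + ptT h + ptT h) := by abel
      _ = 0 := by rw [this, neg_zero]
  obtain ⟨u, v, w, hc⟩ := exists_co h P h0 h1 h2
  exact ⟨u, v, w, hc, fun hq => hP ((hc.three h).2 hq)⟩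

theorem gp_add (h : IsE W a b) {P S : W.Point} (hP : P + P + P ≠ 0) (hS : S + S + S = 0) :
    T3.gp b (P + S) = T3.wt b S * T3.gp b P ∧ tp b (P + S) = T3.wt b S ^ 2 * tp b P := by
  obtain ⟨u, v, w, hc, hq⟩ := co_of_three h hP
  obtain ⟨eg, et⟩ := hc.gp h
  rcases tor_cases h hS with (rfl | rfl | rfl) | ⟨u0, v0, w0, hc0, hq0, hz, hr0⟩
  · rw [add_zero, wt_zero]
    constructor <;> ring
  · obtain ⟨eg', et'⟩ := (hc.addT h).gp h
    rw [wt_T, eg', et', gg_cyc, gt_cyc, eg, et]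
    constructor <;> ring
  · obtain ⟨eg', et'⟩ := (hc.subT h).gp h
    rw [← sub_eq_add_neg, wt_negT, eg', et', eg, et, ← gg_cyc w u v, ← gt_cyc w u v]
    constructor <;> ring
  · obtain ⟨u', v', w', hc', hra, hrb⟩ := hc.add_tor h hz hc0 hq hr0
    obtain ⟨eg', et'⟩ := hc'.gp h
    rw [eg', et', eg, et]
    set z := T3.wt b S with hzdef
    obtain ⟨hA, hB⟩ := res_ne hz hq
    have hrel1 := hc.res hz
    have hrel2 := hc0.res hz
    have hr : rb z u0 v0 w0 ≠ 0 := rb_ne h hz hc0 hr0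
    rw [hr0] at hrel2
    have hz0 := z_ne hz
    have hA' : ra z u' v' w' ≠ 0 := by
      rw [hra]
      exact div_ne_zero (mul_ne_zero (pow_ne_zero 2 hz0) (pow_ne_zero 2 hr)) hB
    have hB' : rb z u' v' w' ≠ 0 := by
      rw [hrb]
      exact div_ne_zero (neg_ne_zero.2 (mul_ne_zero (mul_ne_zero hz0 hr) hA)) hB
    have hq' : qq u' v' w' ≠ 0 := by
      rw [← ra_mul_rb hz]
      exact mul_ne_zero hA' hB'
    have k1 := gg_res hz hq
    have k2 := gt_res hz hq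
    have k1' := gg_res hz hq'
    have k2' := gt_res hz hq'
    rw [hc.sum] at k1 k2
    rw [hc'.sum] at k1' k2'
    have h9 : (9 : F) ≠ 0 := by
      have : (9 : F) = 3 ^ 2 := by norm_num
      rw [this]; exact pow_ne_zero 2 h.three
    have hAB' : 9 * (ra z u' v' w' * rb z u' v' w') ≠ 0 := mul_ne_zero h9 (mul_ne_zero hA' hB')
    have hratio : ra z u' v' w' * rb z u' v' w' =
        -(z ^ 3 * rb z u0 v0 w0 ^ 3) / rb z u v w ^ 3 * (ra z u v w * rb z u v w) := by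
      rw [hra, hrb]
      field_simp
    set A := ra z u v w with hAdef
    set B := rb z u v w with hBdef
    set r := rb z u0 v0 w0 with hrdef
    have hrel : r ^ 3 = A ^ 3 + B ^ 3 - 3 * a * (A * B) := by linear_combination hrel2 - hrel1
    constructor
    · apply mul_left_cancel₀ hAB'
      have e1 : 9 * (ra z u' v' w' * rb z u' v' w') * gg u' v' w' =
          9 * gg u' v' w' * (ra z u' v' w' * rb z u' v' w') := by ring
      have e2 : 9 * (ra z u' v' w' * rb z u' v' w') * (z * gg u v w) =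
          -(z ^ 3 * r ^ 3) / B ^ 3 * z * (9 * gg u v w * (A * B)) := by
        rw [hratio]; ring
      rw [e1, e2, k1', k1, hra, hrb]
      have eL : -(1 - z) * (z ^ 2 * r ^ 2 / B) ^ 3 - (1 - z ^ 2) * (-(z * r * A) / B) ^ 3 +
          3 * a * (z ^ 2 * r ^ 2 / B * (-(z * r * A) / B)) =
          (-(1 - z) * z ^ 6 * r ^ 6 + (1 - z ^ 2) * z ^ 3 * r ^ 3 * A ^ 3 -
            3 * a * z ^ 3 * r ^ 3 * A * B) / B ^ 3 := by
        field_simp
        ring
      have eR : -(z ^ 3 * r ^ 3) / B ^ 3 * z * (-(1 - z) * A ^ 3 - (1 - z ^ 2) * B ^ 3 +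
          3 * a * (A * B)) =
          (-(z ^ 4 * r ^ 3) * (-(1 - z) * A ^ 3 - (1 - z ^ 2) * B ^ 3 + 3 * a * (A * B))) /
            B ^ 3 := by ring
      rw [eL, eR]
      congr 1
      linear_combination (r ^ 6 * z ^ 5 + B ^ 3 * r ^ 3 * z ^ 4 - 2 * r ^ 6 * z ^ 4 - B ^ 3 * r ^ 3 * z ^ 3 + r ^ 6 * z ^ 3 + 3 * A * B * a * r ^ 3 * z ^ 2 - A ^ 3 * r ^ 3 * z ^ 2 - B ^ 3 * r ^ 3 * z ^ 2 + r ^ 6 * z ^ 2 - 6 * A * B * a * r ^ 3 * z + 2 * A ^ 3 * r ^ 3 * z + 2 * B ^ 3 * r ^ 3 * z - 2 * r ^ 6 * z + 3 * A * B * a * r ^ 3 - A ^ 3 * r ^ 3 - B ^ 3 * r ^ 3 + r ^ 6) * hz + (r ^ 3 * z - r ^ 3) * hrel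
    · apply mul_left_cancel₀ hAB'
      have e1 : 9 * (ra z u' v' w' * rb z u' v' w') * gt u' v' w' =
          9 * gt u' v' w' * (ra z u' v' w' * rb z u' v' w') := by ring
      have e2 : 9 * (ra z u' v' w' * rb z u' v' w') * (z ^ 2 * gt u v w) =
          -(z ^ 3 * r ^ 3) / B ^ 3 * z ^ 2 * (9 * gt u v w * (A * B)) := by
        rw [hratio]; ring
      rw [e1, e2, k2', k2, hra, hrb]
      have eL : (1 - z) * (-(z * r * A) / B) ^ 3 + (1 - z ^ 2) * (z ^ 2 * r ^ 2 / B) ^ 3 -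
          3 * a * (z ^ 2 * r ^ 2 / B * (-(z * r * A) / B)) =
          (-(1 - z) * z ^ 3 * r ^ 3 * A ^ 3 + (1 - z ^ 2) * z ^ 6 * r ^ 6 +
            3 * a * z ^ 3 * r ^ 3 * A * B) / B ^ 3 := by
        field_simp
        ring
      have eR : -(z ^ 3 * r ^ 3) / B ^ 3 * z ^ 2 * ((1 - z) * B ^ 3 + (1 - z ^ 2) * A ^ 3 -
          3 * a * (A * B)) =
          (-(z ^ 5 * r ^ 3) * ((1 - z) * B ^ 3 + (1 - z ^ 2) * A ^ 3 - 3 * a * (A * B))) /
            B ^ 3 := by ring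
      rw [eL, eR]
      congr 1
      linear_combination (-r ^ 6 * z ^ 6 - A ^ 3 * r ^ 3 * z ^ 5 + r ^ 6 * z ^ 5 + A ^ 3 * r ^ 3 * z ^ 4 - B ^ 3 * r ^ 3 * z ^ 4 + r ^ 6 * z ^ 4 - 3 * A * B * a * r ^ 3 * z ^ 3 + A ^ 3 * r ^ 3 * z ^ 3 + 2 * B ^ 3 * r ^ 3 * z ^ 3 - 2 * r ^ 6 * z ^ 3 + 3 * A * B * a * r ^ 3 * z ^ 2 - A ^ 3 * r ^ 3 * z ^ 2 - B ^ 3 * r ^ 3 * z ^ 2 + r ^ 6 * z ^ 2 + 3 * A * B * a * r ^ 3 * z - A ^ 3 * r ^ 3 * z - B ^ 3 * r ^ 3 * z + r ^ 6 * z - 6 * A * B * a * r ^ 3 + 2 * A ^ 3 * r ^ 3 + 2 * B ^ 3 * r ^ 3 - 2 * r ^ 6) * hz + (r ^ 3 * z + 2 * r ^ 3) * hrel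

end Pool.Agent.N181.T3
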