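import Pool.Agent.N181.T3.Place

/-!
The global step: a function on the roots of a polynomial which is permuted by the Galois group.
-/

set_option autoImplicit false
set_option linter.all false

open Polynomial IsDedekindDomain WeierstrassCurve WeierstrassCurve.Affine
open scoped Classical

namespace Pool.Agent.N181.T3

open Pool.Agent.TH115.GD (pl val_poly desc_poly lift exists_root_of_mem splits_of_sep)

/-- The polynomial `π` stays irreducible over all the extensions of `k` in `k'` of degree at most
three. -/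
def Stays {k : Type} (k' : Type) [Field k] [Field k'] [Algebra k k'] (π : k[X]) : Prop :=
  ∀ k1 : IntermediateField k k', FiniteDimensional k k1 → Module.finrank k k1 ≤ 3 →
    Irreducible (π.map (algebraMap k k1))

section const

variable {k k' : Type} [Field k] [Field k'] [Algebra k k'] [IsSepClosure k k']

/-- A function with at most three values on the roots of `π` which is permuted by the Galois group
is constant if `π` stays irreducible over the extensions of degree at most three. -/
theorem const_roots {π : k[X]} (hs : π.Separable) (hst : Stays k' π) (f : k' → ZMod 3)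
    (hf : ∀ s : k' ≃ₐ[k] k', ∃ g : ZMod 3 → ZMod 3, Function.Injective g ∧
      ∀ θ, aeval θ π = 0 → f (s θ) = g (f θ)) {θ0 θ1 : k'} (h0 : aeval θ0 π = 0)
    (h1 : aeval θ1 π = 0) : f θ1 = f θ0 := by
  haveI : IsSepClosed k' := IsSepClosure.sep_closed k
  haveI : IsGalois k k' := inferInstance
  set ι := algebraMap k k' with hι
  have injk := ι.injective
  have hπ0 : π ≠ 0 := hs.ne_zero
  have hπm : π.map ι ≠ 0 := (Polynomial.map_ne_zero_iff injk).2 hπ0
  set O : Finset k' := (π.map ι).roots.toFinset with hO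
  have hmem : ∀ θ, θ ∈ O ↔ aeval θ π = 0 := fun θ => by
    rw [hO, Multiset.mem_toFinset, mem_roots hπm, IsRoot.def, hι, eval_map_algebraMap]
  have hOs : ∀ (s : k' ≃ₐ[k] k') θ, θ ∈ O → s θ ∈ O := by
    intro s θ h
    rw [hmem] at h ⊢
    have h5 : aeval (s θ) π = s (aeval θ π) := Polynomial.aeval_algHom_apply s.toAlgHom θ π
    rw [h5, h, map_zero]
  -- the level polynomials
  set A : ZMod 3 → k'[X] := fun z => ∏ θ ∈ O.filter (fun θ => f θ = z), (X - C θ) with hA
  have hAs : ∀ s : k' ≃ₐ[k] k', ∀ z, ∃ z', (A z).map (s : k' →+* k') = A z' := by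
    intro s z
    obtain ⟨g, hg, hgf⟩ := hf s
    refine ⟨g z, Pool.Agent.TH115.GD.map_prod_lin s _ _ ?_ ?_⟩
    · intro θ hθ
      rw [Finset.mem_filter] at hθ ⊢
      exact ⟨hOs s θ hθ.1, by rw [hgf θ ((hmem θ).1 hθ.1), hθ.2]⟩
    · intro θ hθ
      rw [Finset.mem_filter] at hθ ⊢
      have h5 := hOs s.symm θ hθ.1
      refine ⟨h5, ?_⟩
      have h6 := hgf (s.symm θ) ((hmem _).1 h5)
      rw [AlgEquiv.apply_symm_apply, hθ.2] at h6
      exact (hg h6).symm
  set z0 := f θ0 with hz0
  -- the field generated by the coefficients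
  set k1 : IntermediateField k k' := IntermediateField.adjoin k ((A z0).coeffs : Set k') with hk1
  haveI hfd : FiniteDimensional k k1 := by
    apply IntermediateField.finiteDimensional_adjoin
    intro x _
    exact Algebra.IsIntegral.isIntegral x
  haveI : Algebra.IsSeparable k k1 := inferInstance
  have hlift : ∀ φ : k1 →ₐ[k] k', ∃ s : k' ≃ₐ[k] k', ∀ x : k1, s (x : k') = φ x := by
    intro φ
    have hb : Function.Bijective (φ.liftNormal k') :=
      Algebra.IsAlgebraic.algHom_bijective _
    exact ⟨AlgEquiv.ofBijective (φ.liftNormal k') hb, fun x => φ.liftNormal_commutes k' x⟩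
  have hcoef : ∀ n, (A z0).coeff n ∈ k1 := by
    intro n
    by_cases h : (A z0).coeff n = 0
    · rw [h]; exact k1.zero_mem
    · exact IntermediateField.subset_adjoin _ _ (by
        rw [Finset.mem_coe, Polynomial.mem_coeffs_iff]
        exact ⟨n, Polynomial.mem_support_iff.2 h, rfl⟩)
  have hcard : Module.finrank k k1 ≤ 3 := by
    have h2 : Fintype.card (k1 →ₐ[k] k') = Module.finrank k k1 :=
      AlgHom.card_of_splits k k1 k' (fun x => by
        have e : minpoly k (algebraMap k1 k' x) = minpoly k x :=
          minpoly.algebraMap_eq (algebraMap k1 k').injective x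
        rw [← e]
        exact Normal.splits (inferInstance : Normal k k') _)
    rw [← h2]
    have h4 : Fintype.card (ZMod 3) = 3 := ZMod.card 3
    choose S hS using hlift
    choose Z hZ using fun φ : k1 →ₐ[k] k' => hAs (S φ) z0
    have hinj : Function.Injective Z := by
      intro φ ψ h
      have e : (A z0).map (S φ : k' →+* k') = (A z0).map (S ψ : k' →+* k') := by
        rw [hZ, hZ, h]
      apply IntermediateField.adjoin_algHom_ext
      intro x hx
      rw [Finset.mem_coe, Polynomial.mem_coeffs_iff] at hx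
      obtain ⟨n, hn, rfl⟩ := hx
      rw [← hS φ, ← hS ψ]
      have e2 := congrArg (fun p => p.coeff n) e
      simp only [coeff_map] at e2
      exact e2
    calc Fintype.card (k1 →ₐ[k] k') ≤ Fintype.card (ZMod 3) := Fintype.card_le_of_injective Z hinj
      _ ≤ 3 := h4.le
  have hirr := hst k1 hfd hcard
  -- the level polynomial over `k1`
  obtain ⟨B, hB⟩ : ∃ B : k1[X], B.map (algebraMap k1 k') = A z0 := by
    have hl : A z0 ∈ Polynomial.lifts (algebraMap k1 k') := by
      rw [Polynomial.lifts_iff_coeff_lifts]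
      intro n
      exact ⟨⟨_, hcoef n⟩, rfl⟩
    exact (Polynomial.mem_lifts _).1 hl
  have hmap : (π.map (algebraMap k k1)).map (algebraMap k1 k') = π.map ι := by
    rw [Polynomial.map_map]
    congr 1
  have hnd : (π.map ι).roots.Nodup := nodup_roots hs.map
  have hsub : (O.filter (fun θ => f θ = z0)).val ≤ (π.map ι).roots := by
    rw [Multiset.le_iff_subset (Finset.nodup _)]
    intro θ hθ
    have h5 : θ ∈ O := (Finset.mem_filter.1 hθ).1
    rw [hO, Multiset.mem_toFinset] at h5
    exact h5
  have hdvd : B ∣ π.map (algebraMap k k1) := by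
    rw [← Polynomial.map_dvd_map' (algebraMap k1 k'), hB, hmap]
    exact (Multiset.prod_X_sub_C_dvd_iff_le_roots hπm (O.filter (fun θ => f θ = z0)).val).2 hsub
  have hθ0 : θ0 ∈ O.filter (fun θ => f θ = z0) := Finset.mem_filter.2 ⟨(hmem _).2 h0, rfl⟩
  have hroot0 : (A z0).IsRoot θ0 := by
    rw [IsRoot.def, hA, eval_prod]
    exact Finset.prod_eq_zero hθ0 (by simp)
  have hnu : ¬ IsUnit B := by
    intro hu
    obtain ⟨c, hc, hcB⟩ := Polynomial.isUnit_iff.1 hu
    rw [← hB, ← hcB, map_C, IsRoot.def, eval_C] at hroot0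
    exact hc.ne_zero ((map_eq_zero _).1 hroot0)
  obtain ⟨q, hq⟩ := hdvd
  have hqu : IsUnit q := (hirr.isUnit_or_isUnit hq).resolve_left hnu
  obtain ⟨c, hc, hcq⟩ := Polynomial.isUnit_iff.1 hqu
  have hfin : π.map ι = A z0 * C (algebraMap k1 k' c) := by
    rw [← hmap, hq, Polynomial.map_mul, hB, ← hcq, map_C]
  have hroot1 : (π.map ι).IsRoot θ1 := by
    rw [IsRoot.def, hι, eval_map_algebraMap]; exact h1
  rw [hfin, IsRoot.def, eval_mul, eval_C] at hroot1
  rcases mul_eq_zero.1 hroot1 with h6 | h6
  · rw [hA, eval_prod, Finset.prod_eq_zero_iff] at h6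
    obtain ⟨θ, hθ, h7⟩ := h6
    rw [eval_sub, eval_X, eval_C, sub_eq_zero] at h7
    rw [h7]
    exact (Finset.mem_filter.1 hθ).2
  · exact absurd ((map_eq_zero _).1 h6) hc.ne_zero

end const

end Pool.Agent.N181.T3
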