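import Pool.Agent.N181.T3.Glob

/-!
The global step: classes modulo cubes which are fixed by the Galois group.
-/

set_option autoImplicit false
set_option linter.all false

open Polynomial IsDedekindDomain WeierstrassCurve WeierstrassCurve.Affine
open scoped Classical

namespace Pool.Agent.N181.T3

open Pool.Agent.TH115.GD (pl val_poly desc_poly lift exists_root_of_mem splits_of_sep)

section core

variable {k k' K F Ω : Type} [Field k] [Field k'] [Algebra k k'] [IsSepClosure k k']
  [Field K] [Algebra k[X] K] [IsFractionRing k[X] K] [Field F] [Algebra k'[X] F]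
  [IsFractionRing k'[X] F] [Algebra K F]
  (hKF : ∀ p : k[X], algebraMap K F (algebraMap k[X] K p) =
    algebraMap k'[X] F (p.map (algebraMap k k')))
  (h3 : (3 : k) ≠ 0) {p : k[X]} (hp : p ≠ 0)
  (hsep : ∀ π : k[X], Irreducible π → π ∣ p → π.Separable)
  (hst : ∀ π : k[X], Irreducible π → π ∣ p → Stays k' π)
  [Field Ω] [Algebra F Ω] [Algebra K Ω] [IsScalarTower K F Ω] [IsSepClosure F Ω]

theorem mult_gal (p : k[X]) (s : k' ≃ₐ[k] k') (θ : k') :
    rootMultiplicity (s θ) (p.map (algebraMap k k')) =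
      rootMultiplicity θ (p.map (algebraMap k k')) := by
  have e : (p.map (algebraMap k k')).map (s : k' →+* k') = p.map (algebraMap k k') := by
    rw [Polynomial.map_map]
    congr 1
    ext x
    exact s.commutes x
  have h := eq_rootMultiplicity_map (p := p.map (algebraMap k k')) (f := (s : k' →+* k'))
    s.injective θ
  rw [e] at h
  exact h.symm

theorem mem_pl_iff {q : k'[X]} {θ : k'} : q ∈ (pl θ).asIdeal ↔ q.IsRoot θ := by
  show q ∈ Ideal.span {X - C θ} ↔ _
  rw [Ideal.mem_span_singleton, dvd_iff_isRoot]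

include hKF in
theorem p3_root (p : k[X]) (hp : p ≠ 0) (θ : k') :
    p3 (pl θ) (algebraMap K F (algebraMap k[X] K p)) =
      (rootMultiplicity θ (p.map (algebraMap k k')) : ZMod 3) := by
  rw [hKF, p3_poly]
  exact (Polynomial.map_ne_zero_iff (algebraMap k k').injective).2 hp

include hKF hp hsep hst in
/-- The valuations modulo three of a class which is fixed up to powers of `p` (and up to inversion)
are constant on the Galois orbits. -/
theorem inv_roots {a0 : F} (n0 : a0 ≠ 0)
    (hloc : ∀ v : HeightOneSpectrum k'[X], p.map (algebraMap k k') ∉ v.asIdeal → p3 v a0 = 0)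
    (hfix : ∀ τ : Ω ≃ₐ[K] Ω, ∃ (u : F) (e j : ℕ), u ≠ 0 ∧ (e = 1 ∨ e = 2) ∧
      τ (algebraMap F Ω a0) = algebraMap F Ω
        (u ^ 3 * (a0 ^ e * (algebraMap K F (algebraMap k[X] K p)) ^ j)))
    (s : k' ≃ₐ[k] k') (θ : k') : p3 (pl (s θ)) a0 = p3 (pl θ) a0 := by
  haveI : IsSepClosed k' := IsSepClosure.sep_closed k
  haveI : IsGalois k k' := inferInstance
  have injk := (algebraMap k k').injective
  have hpF : algebraMap K F (algebraMap k[X] K p) ≠ 0 := by simpa using hp
  have hpp : p.map (algebraMap k k') ≠ 0 := (Polynomial.map_ne_zero_iff injk).2 hp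
  have rel : ∀ s : k' ≃ₐ[k] k', ∃ e j : ZMod 3, (e * e = 1) ∧ ∀ θ, p3 (pl θ) a0 =
      e * p3 (pl (s θ)) a0 + j * (rootMultiplicity θ (p.map (algebraMap k k')) : ZMod 3) := by
    intro s
    obtain ⟨τ, hτ⟩ := lift (Ω := Ω) hKF s
    obtain ⟨u, e, j, hu, he, h⟩ := hfix τ
    refine ⟨e, j, ?_, fun θ => ?_⟩
    · rcases he with rfl | rfl <;> decide
    · rw [← p3_galois τ s hτ n0 h θ, p3_cube _ hu (mul_ne_zero (pow_ne_zero e n0)
        (pow_ne_zero j hpF)), p3_mul _ (pow_ne_zero e n0) (pow_ne_zero j hpF), p3_pow _ n0,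
        p3_pow _ hpF, p3_root hKF p hp, mult_gal]
  by_cases hθ : aeval θ p = 0
  · have hint : IsIntegral k θ := Algebra.IsIntegral.isIntegral θ
    have hirr : Irreducible (minpoly k θ) := minpoly.irreducible hint
    have hdvd : minpoly k θ ∣ p := minpoly.dvd k θ hθ
    refine const_roots (hsep _ hirr hdvd) (hst _ hirr hdvd) (fun θ => p3 (pl θ) a0) (fun s => ?_)
      (minpoly.aeval k θ) ?_
    · obtain ⟨e, j, hee, h⟩ := rel s
      refine ⟨fun x => e * (x - j * (rootMultiplicity θ (p.map (algebraMap k k')) : ZMod 3)),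
        fun x y hxy => ?_, fun θ' hθ' => ?_⟩
      · have h1 := congrArg (fun t => e * t) hxy
        simp only [← mul_assoc, hee, one_mul] at h1
        exact sub_left_injective h1
      · -- the multiplicity is constant
        have hm : minpoly k θ' = minpoly k θ :=
          (minpoly.eq_of_irreducible_of_monic hirr hθ' (minpoly.monic hint)).symm
        obtain ⟨s', hs'⟩ := isConjRoot_iff_exists_algEquiv.1 (show IsConjRoot k θ' θ from hm)
        have h2 := h θ'
        have h4 : rootMultiplicity θ' (p.map (algebraMap k k')) =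
            rootMultiplicity θ (p.map (algebraMap k k')) := by
          rw [← hs', mult_gal]
        show p3 (pl (s θ')) a0 = e * (p3 (pl θ') a0 - _)
        rw [h2, h4, add_sub_cancel_right, ← mul_assoc, hee, one_mul]
    · rw [Polynomial.aeval_algHom_apply s.toAlgHom θ (minpoly k θ) |> fun h => (h :
        aeval (s θ) (minpoly k θ) = s (aeval θ (minpoly k θ))), minpoly.aeval, map_zero]
  · have h1 : ∀ θ : k', aeval θ p ≠ 0 → p3 (pl θ) a0 = 0 := by
      intro θ h
      apply hloc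
      rw [mem_pl_iff, IsRoot.def, eval_map_algebraMap]
      exact h
    rw [h1 θ hθ, h1 (s θ)]
    intro h
    apply hθ
    have h5 : aeval (s θ) p = s (aeval θ p) := Polynomial.aeval_algHom_apply s.toAlgHom θ p
    rw [h5] at h
    exact (map_eq_zero s).1 h

include hKF h3 hp hsep hst in
/-- The first conclusion: a polynomial over `k` with irreducible factors dividing `p`. -/
theorem glob_A {a0 : F} (n0 : a0 ≠ 0)
    (hloc : ∀ v : HeightOneSpectrum k'[X], p.map (algebraMap k k') ∉ v.asIdeal → p3 v a0 = 0)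
    (hfix : ∀ τ : Ω ≃ₐ[K] Ω, ∃ (u : F) (e j : ℕ), u ≠ 0 ∧ (e = 1 ∨ e = 2) ∧
      τ (algebraMap F Ω a0) = algebraMap F Ω
        (u ^ 3 * (a0 ^ e * (algebraMap K F (algebraMap k[X] K p)) ^ j))) :
    ∃ A : k[X], A ≠ 0 ∧ (∀ π : k[X], Irreducible π → π ∣ A → π ∣ p) ∧ ∃ c : F, c ≠ 0 ∧
      a0 = c ^ 3 * algebraMap K F (algebraMap k[X] K A) := by
  haveI : IsSepClosed k' := IsSepClosure.sep_closed k
  haveI : IsGalois k k' := inferInstance
  have key := inv_roots (Ω := Ω) hKF hp hsep hst n0 hloc hfix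
  have injk := (algebraMap k k').injective
  set pp := p.map (algebraMap k k') with hpp
  have hpp0 : pp ≠ 0 := (Polynomial.map_ne_zero_iff injk).2 hp
  have hsplit : pp.Splits := splits_of_sep hp hsep
  have h3' : (3 : k') ≠ 0 := by
    rw [← map_ofNat (algebraMap k k') 3]
    exact (_root_.map_ne_zero _).2 h3
  set Z : Finset k' := pp.roots.toFinset with hZ
  have hZmem : ∀ θ, θ ∈ Z ↔ aeval θ p = 0 := by
    intro θ
    rw [hZ, Multiset.mem_toFinset, mem_roots hpp0, IsRoot.def, hpp, eval_map_algebraMap]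
  obtain ⟨c, hc, r⟩ := rep3 h3' n0 Z (fun v hv => hloc v fun hm => by
    obtain ⟨θ, hθ, h4⟩ := exists_root_of_mem hpp0 hsplit hm
    exact hv θ (Multiset.mem_toFinset.2 hθ) h4)
  have hZs : ∀ (s : k' ≃ₐ[k] k') (θ : k'), θ ∈ Z → s θ ∈ Z := by
    intro s θ h
    rw [hZmem] at h ⊢
    have h5 : aeval (s θ) p = s (aeval θ p) := Polynomial.aeval_algHom_apply s.toAlgHom θ p
    rw [h5, h, map_zero]
  obtain ⟨A, hA⟩ := desc_poly (k := k) (P := ∏ θ ∈ Z, (X - C θ) ^ (p3 (pl θ) a0).val) (by
    intro s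
    rw [Polynomial.map_prod]
    refine Finset.prod_nbij' (fun θ => s θ) (fun θ => s.symm θ) (fun θ h => hZs s θ h)
      (fun θ h => hZs s.symm θ h) (fun θ _ => s.symm_apply_apply θ)
      (fun θ _ => s.apply_symm_apply θ) (fun θ _ => ?_)
    rw [Polynomial.map_pow, Polynomial.map_sub, map_X, map_C, key]
    rfl)
  have hA0 : A ≠ 0 := by
    rintro rfl
    rw [Polynomial.map_zero] at hA
    have : ∏ θ ∈ Z, (X - C θ) ^ (p3 (pl θ) a0).val ≠ 0 :=
      Finset.prod_ne_zero_iff.2 fun θ _ => pow_ne_zero _ (X_sub_C_ne_zero θ)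
    exact this hA.symm
  refine ⟨A, hA0, fun π hπ hd => ?_, c, hc, ?_⟩
  · have h1 : A ∣ p ^ 2 := by
      rw [← Polynomial.map_dvd_map' (algebraMap k k'), hA, Polynomial.map_pow]
      have h2 : ∏ θ ∈ Z, (X - C θ) ∣ pp := by
        have := (Multiset.prod_X_sub_C_dvd_iff_le_roots hpp0 Z.val).2 (by
          rw [Multiset.le_iff_subset Z.nodup]
          intro θ hθ
          exact Multiset.mem_toFinset.1 hθ)
        exact this
      refine dvd_trans ?_ (pow_dvd_pow_of_dvd h2 2)
      rw [← Finset.prod_pow]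
      refine Finset.prod_dvd_prod_of_dvd _ _ fun θ _ => pow_dvd_pow _ ?_
      have := ZMod.val_lt (p3 (pl θ) a0)
      omega
    exact hπ.prime.dvd_of_dvd_pow (hd.trans h1)
  · rw [r, hKF, hA]

include hKF h3 hp hsep hst in
/-- The second conclusion: if some automorphism inverts the class, the class is a power of `p`. -/
theorem glob_B {a0 : F} (n0 : a0 ≠ 0)
    (hloc : ∀ v : HeightOneSpectrum k'[X], p.map (algebraMap k k') ∉ v.asIdeal → p3 v a0 = 0)
    (hfix : ∀ τ : Ω ≃ₐ[K] Ω, ∃ (u : F) (e j : ℕ), u ≠ 0 ∧ (e = 1 ∨ e = 2) ∧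
      τ (algebraMap F Ω a0) = algebraMap F Ω
        (u ^ 3 * (a0 ^ e * (algebraMap K F (algebraMap k[X] K p)) ^ j)))
    (htw : ∃ (τ : Ω ≃ₐ[K] Ω) (u : F) (j : ℕ), u ≠ 0 ∧ τ (algebraMap F Ω a0) = algebraMap F Ω
        (u ^ 3 * (a0 ^ 2 * (algebraMap K F (algebraMap k[X] K p)) ^ j))) :
    ∃ (c : F) (i : ℕ), c ≠ 0 ∧ a0 = c ^ 3 * algebraMap K F (algebraMap k[X] K p) ^ i := by
  haveI : IsSepClosed k' := IsSepClosure.sep_closed k
  haveI : IsGalois k k' := inferInstance
  have key := inv_roots (Ω := Ω) hKF hp hsep hst n0 hloc hfix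
  have injk := (algebraMap k k').injective
  have hpF : algebraMap K F (algebraMap k[X] K p) ≠ 0 := by simpa using hp
  have hpp0 : p.map (algebraMap k k') ≠ 0 := (Polynomial.map_ne_zero_iff injk).2 hp
  have hsplit : (p.map (algebraMap k k')).Splits := splits_of_sep hp hsep
  have h3' : (3 : k') ≠ 0 := by
    rw [← map_ofNat (algebraMap k k') 3]
    exact (_root_.map_ne_zero _).2 h3
  obtain ⟨τ, u, j, hu, hτ⟩ := htw
  obtain ⟨s, hs⟩ := Pool.Agent.TH115.GD.restr (Ω := Ω) hKF τ
  have hrel : ∀ θ, p3 (pl θ) a0 + (j : ZMod 3) *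
      (rootMultiplicity θ (p.map (algebraMap k k')) : ZMod 3) = 0 := by
    intro θ
    have h1 := p3_galois τ s hs n0 hτ θ
    rw [p3_cube _ hu (mul_ne_zero (pow_ne_zero 2 n0) (pow_ne_zero j hpF)),
      p3_mul _ (pow_ne_zero 2 n0) (pow_ne_zero j hpF), p3_pow _ n0, p3_pow _ hpF,
      p3_root hKF p hp, mult_gal, key] at h1
    push_cast at h1
    linear_combination h1
  have hall : ∀ v : HeightOneSpectrum k'[X],
      p3 v (a0 * algebraMap K F (algebraMap k[X] K p) ^ j) = 0 := by
    intro v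
    rw [p3_mul _ n0 (pow_ne_zero j hpF), p3_pow _ hpF]
    by_cases hv : p.map (algebraMap k k') ∈ v.asIdeal
    · obtain ⟨θ, hθ, rfl⟩ := exists_root_of_mem hpp0 hsplit hv
      rw [p3_root hKF p hp]
      exact hrel θ
    · have h4 : v.valuation F (algebraMap K F (algebraMap k[X] K p)) = 1 := by
        rw [hKF, v.valuation_of_algebraMap, HeightOneSpectrum.intValuation_eq_one_iff]
        exact hv
      have h5 : p3 v (algebraMap K F (algebraMap k[X] K p)) = 0 := by
        rw [p3_eq_zero, h4, WithZero.log_one]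
        exact dvd_zero _
      rw [hloc v hv, h5]; ring
  obtain ⟨w, t, ht, e⟩ := cube_rep (R := k'[X]) (mul_ne_zero n0 (pow_ne_zero j hpF)) hall
  obtain ⟨c, hc, hcw⟩ := Polynomial.isUnit_iff.1 w.isUnit
  haveI : NeZero ((3 : ℕ) : k') := ⟨by exact_mod_cast h3'⟩
  obtain ⟨ρ, hρ⟩ := IsSepClosed.exists_pow_nat_eq c 3
  have hρ0 : ρ ≠ 0 := by
    rintro rfl
    rw [zero_pow three_ne_zero] at hρ
    exact hc.ne_zero hρ.symm
  have hρF : algebraMap k'[X] F (C ρ) ≠ 0 := by simpa using hρ0
  refine ⟨algebraMap k'[X] F (C ρ) * t / algebraMap K F (algebraMap k[X] K p) ^ j, 2 * j,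
    div_ne_zero (mul_ne_zero hρF ht) (pow_ne_zero j hpF), ?_⟩
  rw [← hcw, ← hρ, C_pow, map_pow] at e
  apply mul_right_cancel₀ (pow_ne_zero j hpF)
  rw [e]
  field_simp
  try ring

include hKF h3 in
/-- If `p` is a cube in `F`, it is a constant times a cube over `k`. -/
theorem not_cube (hp : p ≠ 0) (hsep : ∀ π : k[X], Irreducible π → π ∣ p → π.Separable)
    (hc : ∀ (u : k) (q : k[X]), p ≠ C u * q ^ 3) (g : F) :
    g ^ 3 ≠ algebraMap K F (algebraMap k[X] K p) := by
  intro hg
  haveI : IsSepClosed k' := IsSepClosure.sep_closed k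
  haveI : IsGalois k k' := inferInstance
  have injk := (algebraMap k k').injective
  have hpF : algebraMap K F (algebraMap k[X] K p) ≠ 0 := by simpa using hp
  have hg0 : g ≠ 0 := by
    rintro rfl
    rw [zero_pow three_ne_zero] at hg
    exact hpF hg.symm
  have hpp0 : p.map (algebraMap k k') ≠ 0 := (Polynomial.map_ne_zero_iff injk).2 hp
  have hsplit : (p.map (algebraMap k k')).Splits := splits_of_sep hp hsep
  have hm : ∀ θ, 3 ∣ rootMultiplicity θ (p.map (algebraMap k k')) := by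
    intro θ
    have h1 := p3_root (F := F) hKF p hp θ
    rw [← hg, p3_pow _ hg0] at h1
    have : ((3 : ℕ) : ZMod 3) = 0 := rfl
    rw [this, zero_mul] at h1
    exact (ZMod.natCast_eq_zero_iff _ _).1 h1.symm
  set Z : Finset k' := (p.map (algebraMap k k')).roots.toFinset with hZ
  have hZmem : ∀ θ, θ ∈ Z ↔ aeval θ p = 0 := by
    intro θ
    rw [hZ, Multiset.mem_toFinset, mem_roots hpp0, IsRoot.def, eval_map_algebraMap]
  have hZs : ∀ (s : k' ≃ₐ[k] k') (θ : k'), θ ∈ Z → s θ ∈ Z := by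
    intro s θ h
    rw [hZmem] at h ⊢
    have h5 : aeval (s θ) p = s (aeval θ p) := Polynomial.aeval_algHom_apply s.toAlgHom θ p
    rw [h5, h, map_zero]
  obtain ⟨q, hq⟩ := desc_poly (k := k) (P := ∏ θ ∈ Z, (X - C θ) ^
      (rootMultiplicity θ (p.map (algebraMap k k')) / 3)) (by
    intro s
    rw [Polynomial.map_prod]
    refine Finset.prod_nbij' (fun θ => s θ) (fun θ => s.symm θ) (fun θ h => hZs s θ h)
      (fun θ h => hZs s.symm θ h) (fun θ _ => s.symm_apply_apply θ)
      (fun θ _ => s.apply_symm_apply θ) (fun θ _ => ?_)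
    rw [Polynomial.map_pow, Polynomial.map_sub, map_X, map_C, mult_gal]
    rfl)
  apply hc p.leadingCoeff q
  apply Polynomial.map_injective _ injk
  rw [Polynomial.map_mul, Polynomial.map_pow, hq, map_C, ← Finset.prod_pow]
  have h6 := hsplit.eq_prod_roots
  rw [Polynomial.leadingCoeff_map] at h6
  conv_lhs => rw [h6]
  congr 1
  rw [Finset.prod_multiset_map_count]
  refine Finset.prod_congr rfl fun θ _ => ?_
  rw [count_roots, ← pow_mul, Nat.div_mul_cancel (hm θ)]

end core

end Pool.Agent.N181.T3
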