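import Mathlib

/-!
Alternating groups and homomorphisms to permutation groups of at most three elements.
-/

set_option autoImplicit false
set_option linter.all false

open scoped Classical

namespace Pool.Agent.N181.T3

section grp

theorem comm_le_alt (α : Type) [Fintype α] [DecidableEq α] :
    derivedSeries (Equiv.Perm α) 1 ≤ alternatingGroup α := by
  rw [derivedSeries_one]
  exact Abelianization.commutator_subset_ker (Equiv.Perm.sign)

/-- The alternating group on at least five elements is perfect. -/
theorem alt_perfect (α : Type) [Fintype α] [DecidableEq α] (h5 : 5 ≤ Nat.card α) :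
    alternatingGroup α ≤ ⁅alternatingGroup α, alternatingGroup α⁆ := by
  haveI : (⁅alternatingGroup α, alternatingGroup α⁆).Normal := inferInstance
  have hnt : Nontrivial (⁅alternatingGroup α, alternatingGroup α⁆ : Subgroup (Equiv.Perm α)) := by
    rw [Subgroup.nontrivial_iff_ne_bot]
    intro hbot
    have h1 : derivedSeries (Equiv.Perm α) 2 = ⊥ := by
      rw [eq_bot_iff, ← hbot]
      show ⁅derivedSeries (Equiv.Perm α) 1, derivedSeries (Equiv.Perm α) 1⁆ ≤ _
      exact Subgroup.commutator_mono (comm_le_alt α) (comm_le_alt α)
    have h2 : Group.IsSolvable (Equiv.Perm α) := ⟨⟨2, h1⟩⟩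
    refine Equiv.Perm.not_solvable α ?_ h2
    rw [Cardinal.mk_fintype, ← Nat.card_eq_fintype_card]
    exact_mod_cast h5
  exact Equiv.Perm.alternatingGroup_le_of_normal h5 hnt

theorem small_der (β : Type) [Finite β] (h3 : Nat.card β ≤ 3) :
    derivedSeries (Equiv.Perm β) 2 = ⊥ := by
  haveI := Fintype.ofFinite β
  have hcomm : ∀ x ∈ alternatingGroup β, ∀ y ∈ alternatingGroup β, x * y = y * x := by
    intro x hx y hy
    rcases subsingleton_or_nontrivial β with hs | hn
    · haveI : Subsingleton (Equiv.Perm β) := inferInstance
      exact Subsingleton.elim _ _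
    · have h4 := two_mul_nat_card_alternatingGroup (α := β)
      rw [Nat.card_perm] at h4
      have h5 : 2 ≤ Nat.card β := by
        rw [Nat.card_eq_fintype_card]
        exact Fintype.one_lt_card
      have h6 : Nat.card β = 2 ∨ Nat.card β = 3 := by omega
      rcases h6 with h6 | h6
      · rw [h6] at h4
        have h7 : Nat.card (alternatingGroup β) = 1 := by
          have : (2 : ℕ).factorial = 2 := rfl
          omega
        have h8 := (Nat.card_eq_one_iff_unique.1 h7).1
        have h9 : (⟨x, hx⟩ : alternatingGroup β) = ⟨y, hy⟩ := Subsingleton.elim _ _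
        have : x = y := congrArg Subtype.val h9
        rw [this]
      · rw [h6] at h4
        have h7 : Nat.card (alternatingGroup β) = 3 := by
          have : (3 : ℕ).factorial = 6 := rfl
          omega
        haveI : Fact (Nat.Prime 3) := ⟨Nat.prime_three⟩
        haveI : IsCyclic (alternatingGroup β) := isCyclic_of_prime_card (p := 3) h7
        have h8 := (IsCyclic.commutative (α := alternatingGroup β)).is_comm.comm ⟨x, hx⟩ ⟨y, hy⟩
        exact congrArg Subtype.val h8
  rw [eq_bot_iff]
  show ⁅derivedSeries (Equiv.Perm β) 1, derivedSeries (Equiv.Perm β) 1⁆ ≤ _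
  rw [Subgroup.commutator_le]
  intro x hx y hy
  rw [Subgroup.mem_bot, commutatorElement_eq_one_iff_mul_comm]
  exact hcomm x (comm_le_alt β hx) y (comm_le_alt β hy)

/-- If the image of `G` in the permutations of `α` contains the alternating group, then so does the
image of the kernel of a homomorphism to the permutations of at most three elements. -/
theorem alt_ker {G : Type} [Group G] {α β : Type} [Fintype α] [DecidableEq α] [Finite β]
    (h5 : 5 ≤ Nat.card α) (h3 : Nat.card β ≤ 3) (f : G →* Equiv.Perm α) (g : G →* Equiv.Perm β)
    (hf : alternatingGroup α ≤ f.range) : alternatingGroup α ≤ g.ker.map f := by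
  have h1 : ∀ n, alternatingGroup α ≤ (derivedSeries G n).map f := by
    intro n
    induction n with
    | zero =>
      rw [derivedSeries_zero, ← MonoidHom.range_eq_map]
      exact hf
    | succ n ih =>
      rw [derivedSeries_succ, Subgroup.map_commutator]
      exact (alt_perfect α h5).trans (Subgroup.commutator_mono ih ih)
  have h2 : derivedSeries G 2 ≤ g.ker := by
    rw [← Subgroup.map_eq_bot_iff, eq_bot_iff, ← small_der β h3]
    exact map_derivedSeries_le_derivedSeries g 2
  exact (h1 2).trans (Subgroup.map_mono h2)

end grp

end Pool.Agent.N181.T3
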