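import Pool.Agent.N181.T3.Place
import Pool.Agent.TH115.GD.Final

/-!
The local condition at infinity.
-/

set_option autoImplicit false
set_option linter.all false

open Polynomial IsDedekindDomain WeierstrassCurve WeierstrassCurve.Affine
open scoped Classical

namespace Pool.Agent.N181.T3

open Pool.Agent.TH115.GD (pl AtInf CompInf vInf vInf_poly wInf)

universe u

/-- Scaling of the equation. -/
theorem LocC.scale {L : Type u} [Field L] {a b d : L} (h : LocC a b d) {s : L} (hs : s ≠ 0)
    (hb : b ≠ 0) : LocC (s * a) (s ^ 3 * b) d := by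
  obtain ⟨c, y, hc, e, hy⟩ := h
  rcases hy with rfl | rfl | ⟨h, x, v, h1, h2⟩
  · exact ⟨c, 1, hc, e, Or.inl rfl⟩
  · refine ⟨c * s, (s ^ 3 * b)⁻¹, mul_ne_zero hc hs, ?_, Or.inr (Or.inl rfl)⟩
    rw [e]
    field_simp
  · refine ⟨c / s, s ^ 3 * y, div_ne_zero hc hs, ?_, Or.inr (Or.inr ⟨mul_ne_zero (pow_ne_zero 3 hs) h,
      s ^ 2 * x, s ^ 3 * v, ?_, ?_⟩)⟩
    · rw [e]
      field_simp
    · linear_combination s ^ 6 * h1
    · linear_combination s ^ 3 * h2

section inf

variable {k k' K F : Type} [Field k] [Field k'] [Algebra k k'] [Field K] [Algebra k[X] K]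
    [Field F] [Algebra k'[X] F] [IsFractionRing k'[X] F] [Algebra K F]
  (hKF : ∀ p : k[X], algebraMap K F (algebraMap k[X] K p) =
    algebraMap k'[X] F (p.map (algebraMap k k')))

include hKF in
theorem vInf_K {p : k[X]} (hp : p ≠ 0) : vInf k' F (algebraMap K F (algebraMap k[X] K p)) =
    WithZero.exp (p.natDegree : ℤ) := by
  rw [hKF, vInf_poly ((Polynomial.map_ne_zero_iff (algebraMap k k').injective).2 hp), natDegree_map]

include hKF in
/-- The local condition at infinity. -/
theorem trInf {p q : k[X]} {n : ℕ} {d : F} (hp : p.natDegree ≤ n) (hq : q ≠ 0)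
    (hqn : q.natDegree = 3 * n)
    (h : LocC (algebraMap K (CompInf k' F) (algebraMap k[X] K p))
      (algebraMap K (CompInf k' F) (algebraMap k[X] K q)) (algebraMap F (CompInf k' F) d)) :
    (3 : ℤ) ∣ WithZero.log (vInf k' F d) := by
  have hX : algebraMap k'[X] F X ≠ 0 := by simp
  obtain ⟨s, hs⟩ : ∃ s : F, s = (algebraMap k'[X] F X)⁻¹ ^ n := ⟨_, rfl⟩
  have hs0 : s ≠ 0 := hs ▸ pow_ne_zero n (inv_ne_zero hX)
  have vs : vInf k' F s = WithZero.exp (-(n : ℤ)) := by
    have h1 := vInf_poly (k' := k') (F := F) (p := (X : k'[X]) ^ n) (pow_ne_zero n X_ne_zero)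
    rw [natDegree_X_pow, map_pow] at h1
    rw [hs, inv_pow, map_inv₀, h1, ← WithZero.exp_neg]
  have hsI : algebraMap F (CompInf k' F) s ≠ 0 := (_root_.map_ne_zero _).2 hs0
  have key : ∀ x : K, algebraMap K (CompInf k' F) x =
      algebraMap F (CompInf k' F) (algebraMap K F x) := fun x =>
    IsScalarTower.algebraMap_apply K F (CompInf k' F) x
  have hqI : algebraMap K (CompInf k' F) (algebraMap k[X] K q) ≠ 0 := by
    rw [key, hKF, _root_.map_ne_zero, Ne, map_eq_zero_iff _ (IsFractionRing.injective k'[X] F)]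
    exact (Polynomial.map_ne_zero_iff (algebraMap k k').injective).2 hq
  have h2 := h.scale hsI hqI
  have hb1 : algebraMap F (CompInf k' F) s ^ 3 * algebraMap K (CompInf k' F) (algebraMap k[X] K q) =
      algebraMap F (CompInf k' F) (s ^ 3 * algebraMap K F (algebraMap k[X] K q)) := by
    rw [key, ← map_pow, ← map_mul]
  have h3 := locC_val (Valued.v (R := (pl (0 : k')).adicCompletion (AtInf F))
    (Γ₀ := WithZero (Multiplicative ℤ)))
    (a := algebraMap F (CompInf k' F) s * algebraMap K (CompInf k' F) (algebraMap k[X] K p))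
    (b := algebraMap F (CompInf k' F) s ^ 3 * algebraMap K (CompInf k' F) (algebraMap k[X] K q))
    (d := algebraMap F (CompInf k' F) d) (by
      rw [key, ← map_mul]
      refine (wInf _).le.trans ?_
      rw [map_mul, vs]
      by_cases hp0 : p = 0
      · rw [hp0, map_zero, map_zero, map_zero, mul_zero]
        exact zero_le_one
      · rw [vInf_K hKF hp0, ← WithZero.exp_add, ← WithZero.exp_zero, WithZero.exp_le_exp]
        have : (p.natDegree : ℤ) ≤ n := by exact_mod_cast hp
        linarith) (by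
      refine (congrArg _ hb1).trans ((wInf _).trans ?_)
      rw [map_mul, map_pow, vs, vInf_K hKF hq, hqn, ← WithZero.exp_nsmul, ← WithZero.exp_add,
        ← WithZero.exp_zero]
      congr 1
      push_cast
      ring) h2
  rw [wInf] at h3
  exact h3

include hKF in
/-- The degree of a polynomial which is a cube times an element with valuation divisible by three. -/
theorem deg_of_inf {A : k[X]} (hA : A ≠ 0) {c a0 : F} (hc : c ≠ 0)
    (e : a0 = c ^ 3 * algebraMap K F (algebraMap k[X] K A))
    (h : (3 : ℤ) ∣ WithZero.log (vInf k' F a0)) : 3 ∣ A.natDegree := by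
  have hc0 : vInf k' F c ≠ 0 := (Valuation.ne_zero_iff _).2 hc
  rw [e, map_mul, map_pow, vInf_K hKF hA, WithZero.log_mul (pow_ne_zero 3 hc0) WithZero.exp_ne_zero,
    WithZero.log_pow, WithZero.log_exp] at h
  have h1 : (3 : ℤ) ∣ (3 : ℕ) • WithZero.log (vInf k' F c) := ⟨WithZero.log (vInf k' F c), by simp⟩
  have h2 := (Int.dvd_add_right h1).1 h
  exact_mod_cast h2

end inf

end Pool.Agent.N181.T3
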