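import Pool.Agent.N181.T3.Kum
import Pool.Agent.TH115.ID.Inv

/-!
Torsion points over `F`, and invariance of the Kummer generators.
-/

set_option autoImplicit false
set_option linter.all false

open WeierstrassCurve WeierstrassCurve.Affine
open scoped Classical

namespace Pool.Agent.N181.T3

open Pool.Agent.TH115.GD (Pt act incl rs ak act_zero act_some act_inj act_act IsCoc LocTriv
  fixed_point exists_restrict rs_act_incl Preserves exists_conj)
open Pool.Agent.W309.TD (locConst_apply compare)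

universe u

section dd

variable {F : Type u} [Field F] {W : Affine F} {a b : F}

theorem dd_T (h : IsE W a b) : dd b (ptT h) = b⁻¹ := by simp [dd, ptT]

theorem dd_negT (h : IsE W a b) : dd b (-(ptT h)) = -b := by
  rw [negT h]
  simp [dd, h.neb]

theorem dd_zero : dd b (0 : W.Point) = 1 := rfl

end dd

section tor

variable {K F Ω : Type u} [Field K] [Field F] [Field Ω] [Algebra K F] [Algebra F Ω] [Algebra K Ω]
  [IsScalarTower K F Ω] [IsSepClosed Ω] {a b : K}
  (hE : IsE ((crv3 a b).baseChange Ω).toAffine (algebraMap K Ω a) (algebraMap K Ω b))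
  {z : Ω} (hz : z ^ 2 + z + 1 = 0) (hzF : ∀ σ : Ω ≃ₐ[F] Ω, σ z = z)

include hE

omit [IsSepClosed Ω] in
/-- The Galois action on the resolvent of a point whose translates are by multiples of `(0, 0)`. -/
theorem he_rs (hz : z ^ 2 + z + 1 = 0) {φ : Ω →ₐ[K] Ω} (hφ : φ z = z) {H : Pt (crv3 a b) Ω}
    (hH : InT hE (act (crv3 a b) φ H - H)) :
    φ (he z (algebraMap K Ω b) H) = he z (algebraMap K Ω b) (act (crv3 a b) φ H - H) *
      he z (algebraMap K Ω b) H := by
  have h1 := he_act (crv3 a b) φ z (algebraMap K Ω b) H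
  rw [φ.commutes, hφ] at h1
  have e : act (crv3 a b) φ H = H + (act (crv3 a b) φ H - H) := by abel
  rw [e, he_add hE hz _ hH] at h1
  exact h1.symm

omit [IsSepClosed Ω] in
/-- Points of order three outside the group generated by `(0, 0)`. -/
theorem tor_val {R : Pt (crv3 a b) Ω} (hR : R + R + R = 0) (hn : ¬ InT hE R) :
    wt (algebraMap K Ω b) R ^ 2 + wt (algebraMap K Ω b) R + 1 = 0 ∧
      he (wt (algebraMap K Ω b) R) (algebraMap K Ω b) R ^ 3 =
        -(algebraMap K Ω (a ^ 3 - 27 * b)) ∧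
      he (wt (algebraMap K Ω b) R) (algebraMap K Ω b) R ≠ 0 := by
  rcases tor_cases hE hR with h | ⟨u, v, w, hc, hq, hw, hra⟩
  · exact absurd h hn
  · refine ⟨hw, ?_, he_ne hE hw R⟩
    have h1 := rb_ne hE hw hc hra
    rw [hc.he hE, if_neg h1]
    have h2 := hc.res hw
    rw [hra] at h2
    rw [map_sub, map_pow, map_mul, map_ofNat]
    linear_combination h2

/-- A point of order three on which the character has the value `z`. -/
theorem exists_S (hz : z ^ 2 + z + 1 = 0) : ∃ S : Pt (crv3 a b) Ω, S + S + S = 0 ∧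
    wt (algebraMap K Ω b) S = z ∧ ¬ InT hE S := by
  obtain ⟨r, hr⟩ := exists_cb hE.three (-(algebraMap K Ω a ^ 3 - 27 * algebraMap K Ω b))
  obtain ⟨u, v, w, hs, h0, h1⟩ := exists_res hz hE.three (algebraMap K Ω a) 0 r
  have hp : u * v * w = algebraMap K Ω b := by
    have h27 : (27 : Ω) ≠ 0 := by
      have : (27 : Ω) = 3 ^ 3 := by norm_num
      rw [this]; exact pow_ne_zero 3 hE.three
    apply mul_left_cancel₀ h27
    rw [← prod_res hz, hs, h0, h1, hr]
    ring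
  obtain ⟨S, hS⟩ := hE.co hs hp
  have hw := hS.wt_of hE hz h0
  have h3 : S + S + S = 0 := (hS.three hE).2 (by rw [← ra_mul_rb hz, h0, zero_mul])
  refine ⟨S, h3, hw, fun h => ?_⟩
  obtain ⟨n0, n1, n2⟩ := hS.notT hE
  rcases h with h | h | h
  · exact n0 h
  · exact n1 h
  · exact n2 h

include hz hzF

/-- For a point `R` of order three, the coboundary of `R` for the Galois group of `F` is a multiple
of `(0, 0)`. -/
theorem tor_cob {R : Pt (crv3 a b) Ω} (hR : R + R + R = 0) (σ : Ω ≃ₐ[F] Ω) :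
    InT hE (act (crv3 a b) (rs K σ) R - R) := by
  have h1 : act (crv3 a b) (rs K σ) R + act (crv3 a b) (rs K σ) R +
      act (crv3 a b) (rs K σ) R = 0 := (three_act _ _ _).2 hR
  have h3 : (act (crv3 a b) (rs K σ) R - R) + (act (crv3 a b) (rs K σ) R - R) +
      (act (crv3 a b) (rs K σ) R - R) = 0 := by
    calc _ = (act (crv3 a b) (rs K σ) R + act (crv3 a b) (rs K σ) R +
          act (crv3 a b) (rs K σ) R) - (R + R + R) := by abel
      _ = 0 := by rw [h1, hR, sub_zero]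
  apply wt_one hE h3
  have h4 := wt_add hE h3 hR
  rw [sub_add_cancel, wt_rs hE hz hzF hR] at h4
  exact mul_right_cancel₀ (wt_ne hE hR) (by rw [one_mul]; exact h4.symm)

variable [IsGalois F Ω] (hbs : ∀ g : F, g ^ 3 ≠ algebraMap K F b)
  (hds : ∀ g : F, g ^ 3 ≠ algebraMap K F (a ^ 3 - 27 * b))

omit hz hzF in
include hbs in
/-- There is no point with rational function `hh` whose triple is `(0, 0)` or its inverse. -/
theorem no_third {R : Pt (crv3 a b) Ω} (hfix : ∀ σ : Ω ≃ₐ[F] Ω,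
    σ (hh (algebraMap K Ω b) R) = hh (algebraMap K Ω b) R) (hT : InT hE (R + R + R)) :
    R + R + R = 0 := by
  obtain ⟨g, hg⟩ : hh (algebraMap K Ω b) R ∈ Set.range (algebraMap F Ω) := by
    rw [InfiniteGalois.mem_range_algebraMap_iff_fixed]
    exact hfix
  have h4 := hh_cube hE R
  rcases hT with h | h | h
  · exact h
  · exfalso
    rw [h, dd_T, ← hg, ← map_pow] at h4
    apply hbs g⁻¹
    apply (algebraMap F Ω).injective
    rw [inv_pow, map_inv₀, h4, inv_inv, IsScalarTower.algebraMap_apply K F Ω]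
  · exfalso
    rw [h, dd_negT, ← hg, ← map_pow] at h4
    apply hbs (-g)
    apply (algebraMap F Ω).injective
    rw [← IsScalarTower.algebraMap_apply K F Ω]
    have e : (-g) ^ 3 = -(g ^ 3) := by ring
    rw [e, map_neg, h4, neg_neg]

include hbs hds

/-- The torsion points of 3-power order over `F`. -/
theorem torsF3 (m : ℕ) : ∀ X : Pt (crv3 a b) Ω,
    (∀ σ : Ω ≃ₐ[F] Ω, act (crv3 a b) (rs K σ) X = X) → 3 ^ m • X = 0 → InT hE X := by
  induction m with
  | zero =>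
    intro X _ h
    rw [pow_zero, one_smul] at h
    exact Or.inl h
  | succ m ih =>
    intro X hX h
    have e3 : X + X + X = 3 • X := by
      rw [show (3 : ℕ) = 1 + 1 + 1 from rfl, add_smul, add_smul, one_smul]
    have h1 : 3 ^ m • (X + X + X) = 0 := by
      rw [e3, smul_smul, ← pow_succ, h]
    have h2 := ih (X + X + X) (fun σ => by rw [map_add, map_add, hX]) h1
    have h3 : X + X + X = 0 := by
      refine no_third hE hbs (fun σ => ?_) h2
      have := hh_act (crv3 a b) (rs K σ) (algebraMap K Ω b) X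
      rw [(rs K σ).commutes, hX] at this
      exact this.symm
    by_contra hn
    obtain ⟨hw, hcube, hne⟩ := tor_val hE h3 hn
    obtain ⟨g, hg⟩ : he (wt (algebraMap K Ω b) X) (algebraMap K Ω b) X ∈
        Set.range (algebraMap F Ω) := by
      rw [InfiniteGalois.mem_range_algebraMap_iff_fixed]
      intro σ
      have := he_act (crv3 a b) (rs K σ) (wt (algebraMap K Ω b) X) (algebraMap K Ω b) X
      rw [(rs K σ).commutes, hX] at this
      have h5 : (rs K σ) (wt (algebraMap K Ω b) X) = wt (algebraMap K Ω b) X :=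
        wt_fix hE hz hzF h3 σ
      rw [h5] at this
      exact this.symm
    rw [← hg, ← map_pow] at hcube
    apply hds (-g)
    apply (algebraMap F Ω).injective
    rw [← IsScalarTower.algebraMap_apply K F Ω]
    have e : (-g) ^ 3 = -(g ^ 3) := by ring
    rw [e, map_neg, hcube, neg_neg]

end tor

/-- Invariance in the first layer. -/
def InvOne3 {K F Ω : Type u} [Field K] [Field F] [Field Ω] [Algebra K F] [Algebra F Ω] [Algebra K Ω]
    [IsScalarTower K F Ω] (W : WeierstrassCurve K) (f : (Ω ≃ₐ[F] Ω) → Pt W Ω) : Prop :=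
  ∀ τ : Ω ≃ₐ[K] Ω, ∃ R : Pt W Ω, (∃ m : ℕ, 3 ^ m • R = 0) ∧
    ∀ σ σ' : Ω ≃ₐ[F] Ω, (∀ x, τ (σ' x) = σ (τ x)) →
      act W (ak τ) (f σ') - f σ = act W (rs K σ) R - R

section inv

variable {K F Ω : Type u} [Field K] [Field F] [Field Ω] [Algebra K F] [Algebra F Ω] [Algebra K Ω]
  [IsScalarTower K F Ω] [IsSepClosed Ω] {a b : K}
  (hE : IsE ((crv3 a b).baseChange Ω).toAffine (algebraMap K Ω a) (algebraMap K Ω b))
  {z : Ω} (hz : z ^ 2 + z + 1 = 0) (hzF : ∀ σ : Ω ≃ₐ[F] Ω, σ z = z)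
  [IsGalois F Ω] (hbs : ∀ g : F, g ^ 3 ≠ algebraMap K F b)
  (hds : ∀ g : F, g ^ 3 ≠ algebraMap K F (a ^ 3 - 27 * b))

include hE hz hzF hbs hds

omit hz hzF hbs hds in
theorem three_cob (hN : Preserves K F Ω) {f : (Ω ≃ₐ[F] Ω) → Pt (crv3 a b) Ω}
    (hf3 : ∀ σ, f σ + f σ + f σ = 0) {τ : Ω ≃ₐ[K] Ω} {R : Pt (crv3 a b) Ω}
    (hrel : ∀ σ σ' : Ω ≃ₐ[F] Ω, (∀ x, τ (σ' x) = σ (τ x)) →
      act (crv3 a b) (ak τ) (f σ') - f σ = act (crv3 a b) (rs K σ) R - R) (σ : Ω ≃ₐ[F] Ω) :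
    (act (crv3 a b) (rs K σ) R - R) + (act (crv3 a b) (rs K σ) R - R) +
      (act (crv3 a b) (rs K σ) R - R) = 0 ∧
    act (crv3 a b) (rs K σ) (R + R + R) = R + R + R := by
  obtain ⟨σ', hσ'⟩ := exists_conj hN τ σ
  have h0 : (act (crv3 a b) (rs K σ) R - R) + (act (crv3 a b) (rs K σ) R - R) +
      (act (crv3 a b) (rs K σ) R - R) = 0 := by
    rw [← hrel σ σ' hσ']
    have h1 : act (crv3 a b) (ak τ) (f σ') + act (crv3 a b) (ak τ) (f σ') +
      act (crv3 a b) (ak τ) (f σ') = 0 := (three_act _ (ak τ) _).2 (hf3 σ')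
    calc _ = (act (crv3 a b) (ak τ) (f σ') + act (crv3 a b) (ak τ) (f σ') +
          act (crv3 a b) (ak τ) (f σ')) - (f σ + f σ + f σ) := by abel
      _ = 0 := by rw [h1, hf3, sub_zero]
  refine ⟨h0, ?_⟩
  rw [← sub_eq_zero, map_add, map_add]
  calc _ = (act (crv3 a b) (rs K σ) R - R) + (act (crv3 a b) (rs K σ) R - R) +
      (act (crv3 a b) (rs K σ) R - R) := by abel
    _ = 0 := h0

theorem inv0 (hN : Preserves K F Ω) {f : (Ω ≃ₐ[F] Ω) → Pt (crv3 a b) Ω}
    (hf3 : ∀ σ, f σ + f σ + f σ = 0) (hi : InvOne3 (crv3 a b) f) {t0 : Ω} {a0 : F} (n0 : t0 ≠ 0)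
    (e0 : t0 ^ 3 = algebraMap F Ω a0) (k0 : ∀ σ, σ t0 = wt (algebraMap K Ω b) (f σ) * t0)
    (τ : Ω ≃ₐ[K] Ω) :
    ∃ (u : F) (j : ℕ), u ≠ 0 ∧
      τ (algebraMap F Ω a0) = algebraMap F Ω (u ^ 3 * (a0 * algebraMap K F b ^ j)) := by
  obtain ⟨R, ⟨m, hm⟩, hrel⟩ := hi τ
  have hcob := three_cob hE hN hf3 hrel
  have e3 : R + R + R = 3 • R := by
    rw [show (3 : ℕ) = 1 + 1 + 1 from rfl, add_smul, add_smul, one_smul]
  have hRR : InT hE (R + R + R) := by
    apply torsF3 hE hz hzF hbs hds m (R + R + R) (fun σ => (hcob σ).2)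
    rw [e3, smul_comm, hm, smul_zero]
  have key : ∀ σ σ' : Ω ≃ₐ[F] Ω, (∀ x, τ (σ' x) = σ (τ x)) →
      act (crv3 a b) (ak τ) (f σ') = f σ + (act (crv3 a b) (rs K σ) R - R) := by
    intro σ σ' h
    rw [← hrel σ σ' h]; abel
  have wτ : ∀ P : Pt (crv3 a b) Ω, τ (wt (algebraMap K Ω b) P) =
      wt (algebraMap K Ω b) (act (crv3 a b) (ak τ) P) := by
    intro P
    have h1 := wt_act (crv3 a b) (ak τ) (algebraMap K Ω b) P
    rw [(ak τ).commutes] at h1
    exact h1.symm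
  obtain ⟨u0, hu0, q0⟩ := compare (K := F) (t := τ t0) (u := t0 * hh (algebraMap K Ω b) R)
    ((map_ne_zero τ).2 n0) (mul_ne_zero n0 (hh_ne hE R))
    (fun σ => wt (algebraMap K Ω b) (f σ) *
      wt (algebraMap K Ω b) (act (crv3 a b) (rs K σ) R - R))
    (fun σ => mul_ne_zero (wt_ne hE (hf3 σ)) (wt_ne hE (hcob σ).1)) (fun σ => by
      obtain ⟨σ', hσ'⟩ := exists_conj hN τ σ
      rw [← hσ', k0, map_mul, wτ, key σ σ' hσ', wt_add hE (hf3 σ) (hcob σ).1])
    (fun σ => by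
      rw [map_mul, k0, (sgn0 hE (fun σ => (hcob σ).2) σ).2]; ring)
  have e1 : τ (algebraMap F Ω a0) = algebraMap F Ω u0 ^ 3 * (algebraMap F Ω a0 *
      dd (algebraMap K Ω b) (R + R + R)) := by
    rw [← e0, map_pow, q0, mul_pow, mul_pow, hh_cube hE]
  have hb0 : algebraMap K Ω b ≠ 0 := hE.neb
  rcases hRR with h | h | h
  · refine ⟨u0, 0, hu0, ?_⟩
    rw [e1, h, map_mul, map_pow, dd_zero, mul_one, pow_zero, mul_one]
  · have hbF : algebraMap K F b ≠ 0 := by
      intro h0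
      apply hb0
      rw [IsScalarTower.algebraMap_apply K F Ω, h0, map_zero]
    refine ⟨u0 * (algebraMap K F b)⁻¹, 2, mul_ne_zero hu0 (inv_ne_zero hbF), ?_⟩
    rw [e1, h, dd_T]
    simp only [map_mul, map_pow, map_inv₀]
    rw [← IsScalarTower.algebraMap_apply K F Ω]
    field_simp
  · refine ⟨-u0, 1, neg_ne_zero.2 hu0, ?_⟩
    rw [e1, h, dd_negT]
    simp only [map_mul, map_pow, map_neg]
    rw [← IsScalarTower.algebraMap_apply K F Ω]
    ring

theorem inv1 (hN : Preserves K F Ω) {f : (Ω ≃ₐ[F] Ω) → Pt (crv3 a b) Ω}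
    (hf3 : ∀ σ, InT hE (f σ)) (hi : InvOne3 (crv3 a b) f) {t1 : Ω} {a1 : F}
    (n1 : t1 ≠ 0) (e1 : t1 ^ 3 = algebraMap F Ω a1)
    (k1 : ∀ σ, σ t1 = he z (algebraMap K Ω b) (f σ) * t1) (τ : Ω ≃ₐ[K] Ω) :
    (τ z = z ∧ ∃ (u : F) (j : ℕ), u ≠ 0 ∧
      τ (algebraMap F Ω a1) = algebraMap F Ω (u ^ 3 * (a1 * algebraMap K F (a ^ 3 - 27 * b) ^ j))) ∨
    (τ z = z ^ 2 ∧ ∃ (u : F) (j : ℕ), u ≠ 0 ∧
      τ (algebraMap F Ω a1) =
        algebraMap F Ω (u ^ 3 * (a1 ^ 2 * algebraMap K F (a ^ 3 - 27 * b) ^ j))) := by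
  have hz3 := z3 hz
  have hzz : (z ^ 2) ^ 2 + z ^ 2 + 1 = 0 := z_sq hz
  obtain ⟨R, ⟨m, hm⟩, hrel⟩ := hi τ
  have hf0 : ∀ σ, f σ + f σ + f σ = 0 := fun σ => (hf3 σ).three hE
  have hcob := three_cob hE hN hf0 hrel
  have e3 : R + R + R = 3 • R := by
    rw [show (3 : ℕ) = 1 + 1 + 1 from rfl, add_smul, add_smul, one_smul]
  have hRR0 : InT hE (R + R + R) := by
    apply torsF3 hE hz hzF hbs hds m (R + R + R) (fun σ => (hcob σ).2)
    rw [e3, smul_comm, hm, smul_zero]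
  have hτf : ∀ σ', act (crv3 a b) (ak τ) (f σ') = f σ' := fun σ' => (hf3 σ').fix
  have key : ∀ σ σ' : Ω ≃ₐ[F] Ω, (∀ x, τ (σ' x) = σ (τ x)) →
      f σ' = f σ + (act (crv3 a b) (rs K σ) R - R) := by
    intro σ σ' h
    rw [← hrel σ σ' h, hτf]; abel
  have hd : ∀ σ : Ω ≃ₐ[F] Ω, InT hE (act (crv3 a b) (rs K σ) R - R) := by
    intro σ
    obtain ⟨σ', hσ'⟩ := exists_conj hN τ σ
    rw [← hrel σ σ' hσ', hτf]
    exact (hf3 σ').sub hE (hf3 σ)
  have hRR : R + R + R = 0 := by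
    refine no_third hE hbs (fun σ => ?_) hRR0
    rw [(sgn0 hE (fun σ => (hcob σ).2) σ).2]
    rcases hd σ with h | h | h
    · rw [h, wt_zero, one_mul]
    · rw [h, wt_T, one_mul]
    · rw [h, wt_negT, one_mul]
  -- values at `z ^ 2`
  have he2 : ∀ S : Pt (crv3 a b) Ω, InT hE S →
      he (z ^ 2) (algebraMap K Ω b) S = he z (algebraMap K Ω b) S ^ 2 := by
    intro S hS
    rcases hS with rfl | rfl | rfl
    · rw [he_zero, he_zero, one_pow]
    · rw [he_T, he_T]
    · rw [he_negT, he_negT]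
  have he3 : ∀ S : Pt (crv3 a b) Ω, InT hE S → he z (algebraMap K Ω b) S ^ 3 = 1 :=
    fun S hS => (he_val hE hz hzF hS).1
  -- an element with the coboundary of `R`
  obtain ⟨t, j, c, hc, ht, htj, hts⟩ : ∃ (t : Ω) (j : ℕ) (c : F), c ≠ 0 ∧ t ≠ 0 ∧
      t ^ 3 = algebraMap F Ω (c ^ 3 * algebraMap K F (a ^ 3 - 27 * b) ^ j) ∧
      ∀ σ : Ω ≃ₐ[F] Ω, σ t = he z (algebraMap K Ω b) (act (crv3 a b) (rs K σ) R - R) * t := by
    by_cases hRT : InT hE R
    · refine ⟨1, 0, 1, one_ne_zero, one_ne_zero, by simp, fun σ => ?_⟩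
      rw [hRT.fix, sub_self, he_zero, map_one, one_mul]
    · obtain ⟨hw, hcube, hne⟩ := tor_val hE hRR hRT
      have hw3 := wt_three hE hRR
      rcases cube_cases hz hw3 with h | h | h
      · exfalso
        rw [h] at hw
        apply hE.three
        linear_combination hw
      · rw [h] at hcube hne
        refine ⟨he z (algebraMap K Ω b) R, 1, -1, neg_ne_zero.2 one_ne_zero, hne, ?_, fun σ => ?_⟩
        · rw [hcube, IsScalarTower.algebraMap_apply K F Ω, map_mul, map_pow, map_pow, map_neg,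
            map_one, pow_one]
          ring
        · exact he_rs hE hz (hzF σ) (hd σ)
      · rw [h] at hcube hne
        refine ⟨he (z ^ 2) (algebraMap K Ω b) R ^ 2, 2, 1, one_ne_zero, pow_ne_zero 2 hne, ?_,
          fun σ => ?_⟩
        · have e : (he (z ^ 2) (algebraMap K Ω b) R ^ 2) ^ 3 =
              (he (z ^ 2) (algebraMap K Ω b) R ^ 3) ^ 2 := by ring
          rw [e, hcube, IsScalarTower.algebraMap_apply K F Ω, map_mul, map_pow, map_pow, map_one]
          ring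
        · have h5 : σ (he (z ^ 2) (algebraMap K Ω b) R) =
              he (z ^ 2) (algebraMap K Ω b) (act (crv3 a b) (rs K σ) R - R) *
                he (z ^ 2) (algebraMap K Ω b) R :=
            he_rs hE hzz (φ := rs K σ) (by
              show σ (z ^ 2) = z ^ 2
              rw [map_pow, hzF]) (hd σ)
          rw [map_pow, h5, he2 _ (hd σ)]
          have h6 := he3 _ (hd σ)
          linear_combination (he z (algebraMap K Ω b) (act (crv3 a b) (rs K σ) R - R) *
            he (z ^ 2) (algebraMap K Ω b) R ^ 2) * h6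
  have hτz : τ z = z ∨ τ z = z ^ 2 := by
    have h4 : (τ z) ^ 3 = 1 := by rw [← map_pow, hz3, map_one]
    rcases cube_cases hz h4 with h | h | h
    · exfalso
      have h5 : z = 1 := τ.injective (by rw [h, map_one])
      exact z_ne_one hz hE.three h5
    · exact Or.inl h
    · exact Or.inr h
  have heτ : ∀ S : Pt (crv3 a b) Ω, InT hE S → τ (he z (algebraMap K Ω b) S) =
      he (τ z) (algebraMap K Ω b) S := by
    intro S hS
    have h1 := he_act (crv3 a b) (ak τ) z (algebraMap K Ω b) S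
    rw [(ak τ).commutes, hS.fix] at h1
    exact h1.symm
  rcases hτz with hτ | hτ
  · left
    refine ⟨hτ, ?_⟩
    obtain ⟨u, hu, q⟩ := compare (K := F) (t := τ t1) (u := t1 * t)
      ((map_ne_zero τ).2 n1) (mul_ne_zero n1 ht)
      (fun σ => he z (algebraMap K Ω b) (f σ) *
        he z (algebraMap K Ω b) (act (crv3 a b) (rs K σ) R - R))
      (fun σ => mul_ne_zero (he_ne hE hz _) (he_ne hE hz _)) (fun σ => by
        obtain ⟨σ', hσ'⟩ := exists_conj hN τ σ
        rw [← hσ', k1, map_mul, heτ _ (hf3 σ'), hτ, key σ σ' hσ', he_add hE hz _ (hd σ),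
          mul_comm (he z (algebraMap K Ω b) (f σ))]) (fun σ => by
        rw [map_mul, k1, hts]; ring)
    refine ⟨u * c, j, mul_ne_zero hu hc, ?_⟩
    rw [← e1, map_pow, q, mul_pow, mul_pow, htj, e1]
    simp only [map_mul, map_pow]
    ring
  · right
    refine ⟨hτ, ?_⟩
    obtain ⟨u, hu, q⟩ := compare (K := F) (t := τ t1) (u := (t1 * t) ^ 2)
      ((map_ne_zero τ).2 n1) (pow_ne_zero 2 (mul_ne_zero n1 ht))
      (fun σ => (he z (algebraMap K Ω b) (f σ) *
        he z (algebraMap K Ω b) (act (crv3 a b) (rs K σ) R - R)) ^ 2)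
      (fun σ => pow_ne_zero 2 (mul_ne_zero (he_ne hE hz _) (he_ne hE hz _))) (fun σ => by
        obtain ⟨σ', hσ'⟩ := exists_conj hN τ σ
        rw [← hσ', k1, map_mul, heτ _ (hf3 σ'), hτ, he2 _ (hf3 σ'), key σ σ' hσ',
          he_add hE hz _ (hd σ), mul_comm (he z (algebraMap K Ω b) (f σ))]) (fun σ => by
        rw [map_pow, map_mul, k1, hts]; ring)
    refine ⟨u * c ^ 2, j * 2, mul_ne_zero hu (pow_ne_zero 2 hc), ?_⟩
    have e5 : ((t1 * t) ^ 2) ^ 3 = (t1 ^ 3) ^ 2 * (t ^ 3) ^ 2 := by ring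
    rw [← e1, map_pow, q, mul_pow, e5, htj, e1]
    simp only [map_mul, map_pow]
    ring

end inv

end Pool.Agent.N181.T3
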