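import Pool.Agent.N181.T3.Act

/-!
Kummer theory for the two steps of the descent by isogenies of degree three.
-/

set_option autoImplicit false
set_option linter.all false

open WeierstrassCurve WeierstrassCurve.Affine
open scoped Classical

namespace Pool.Agent.N181.T3

open Pool.Agent.TH115.GD (Pt act incl rs ak act_zero act_some act_inj act_act IsCoc LocTriv
  fixed_point exists_restrict rs_act_incl)
open Pool.Agent.W309.TD (locConst_apply compare)

universe u

section cocycle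

variable {K F Ω : Type u} [Field K] [Field F] [Field Ω] [Algebra K F] [Algebra F Ω] [Algebra K Ω]
  [IsScalarTower K F Ω] [IsGalois F Ω] [IsSepClosed Ω] {a b : K}
  (hE : IsE ((crv3 a b).baseChange Ω).toAffine (algebraMap K Ω a) (algebraMap K Ω b))
  {z : Ω} (hz : z ^ 2 + z + 1 = 0) (hzF : ∀ σ : Ω ≃ₐ[F] Ω, σ z = z)

include hE

omit [IsGalois F Ω] in
theorem sgn0 {H : Pt (crv3 a b) Ω}
    (hH : ∀ σ : Ω ≃ₐ[F] Ω, act (crv3 a b) (rs K σ) (H + H + H) = H + H + H) (σ : Ω ≃ₐ[F] Ω) :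
    (act (crv3 a b) (rs K σ) H - H) + (act (crv3 a b) (rs K σ) H - H) +
      (act (crv3 a b) (rs K σ) H - H) = 0 ∧
    σ (hh (algebraMap K Ω b) H) = wt (algebraMap K Ω b) (act (crv3 a b) (rs K σ) H - H) *
      hh (algebraMap K Ω b) H := by
  set T := act (crv3 a b) (rs K σ) H - H with hT
  have hTT : T + T + T = 0 := by
    have := hH σ
    rw [map_add, map_add] at this
    calc T + T + T = (act (crv3 a b) (rs K σ) H + act (crv3 a b) (rs K σ) H +
          act (crv3 a b) (rs K σ) H) - (H + H + H) := by rw [hT]; abel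
      _ = 0 := by rw [this, sub_self]
  refine ⟨hTT, ?_⟩
  have hTH : act (crv3 a b) (rs K σ) H = H + T := by rw [hT]; abel
  have h1 := hh_act (crv3 a b) (rs K σ) (algebraMap K Ω b) H
  rw [(rs K σ).commutes, hTH, hh_add hE _ hTT] at h1
  exact h1.symm

include hz hzF

omit [IsGalois F Ω] [IsSepClosed Ω] in
theorem wt_fix {S : Pt (crv3 a b) Ω} (hS : S + S + S = 0) (σ : Ω ≃ₐ[F] Ω) :
    σ (wt (algebraMap K Ω b) S) = wt (algebraMap K Ω b) S := by
  rcases cube_cases hz (wt_three hE hS) with h | h | h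
  · rw [h, map_one]
  · rw [h, hzF]
  · rw [h, map_pow, hzF]

omit [IsGalois F Ω] [IsSepClosed Ω] in
theorem wt_rs {S : Pt (crv3 a b) Ω} (hS : S + S + S = 0) (σ : Ω ≃ₐ[F] Ω) :
    wt (algebraMap K Ω b) (act (crv3 a b) (rs K σ) S) = wt (algebraMap K Ω b) S := by
  have h1 := wt_act (crv3 a b) (rs K σ) (algebraMap K Ω b) S
  rw [(rs K σ).commutes] at h1
  rw [h1]
  exact wt_fix hE hz hzF hS σ

/-- The first Kummer generator. -/
theorem kum0 {f : (Ω ≃ₐ[F] Ω) → Pt (crv3 a b) Ω} (hf : IsCoc (crv3 a b) f)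
    (hf3 : ∀ σ, f σ + f σ + f σ = 0) :
    ∃ (t0 : Ω) (a0 : F), t0 ≠ 0 ∧ t0 ^ 3 = algebraMap F Ω a0 ∧
      ∀ σ, σ t0 = wt (algebraMap K Ω b) (f σ) * t0 :=
  exists_root3 (K := F) (fun σ => wt (algebraMap K Ω b) (f σ)) (fun σ => wt_three hE (hf3 σ))
    (fun σ τ => wt_fix hE hz hzF (hf3 τ) σ) (fun σ τ => by
      show wt (algebraMap K Ω b) (f (σ * τ)) = _
      rw [hf.mul, wt_add hE (hf3 σ) ((three_act _ _ _).2 (hf3 τ)), wt_rs hE hz hzF (hf3 τ)])
    (hf.lc.comp (wt (algebraMap K Ω b)))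

omit [IsGalois F Ω] [IsSepClosed Ω] in
theorem he_val {S : Pt (crv3 a b) Ω} (hS : InT hE S) :
    he z (algebraMap K Ω b) S ^ 3 = 1 ∧
      ∀ σ : Ω ≃ₐ[F] Ω, σ (he z (algebraMap K Ω b) S) = he z (algebraMap K Ω b) S := by
  have hz3 := z3 hz
  rcases hS with rfl | rfl | rfl
  · rw [he_zero]
    exact ⟨one_pow 3, fun σ => map_one σ⟩
  · rw [he_T]
    exact ⟨hz3, hzF⟩
  · rw [he_negT]
    refine ⟨?_, fun σ => by rw [map_pow, hzF]⟩
    calc (z ^ 2) ^ 3 = (z ^ 3) ^ 2 := by ring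
      _ = 1 := by rw [hz3, one_pow]

omit [IsSepClosed Ω] in
/-- The second Kummer generator. -/
theorem kum1 {f : (Ω ≃ₐ[F] Ω) → Pt (crv3 a b) Ω} (hf : IsCoc (crv3 a b) f)
    (hf3 : ∀ σ, InT hE (f σ)) :
    ∃ (t1 : Ω) (a1 : F), t1 ≠ 0 ∧ t1 ^ 3 = algebraMap F Ω a1 ∧
      ∀ σ, σ t1 = he z (algebraMap K Ω b) (f σ) * t1 :=
  exists_root3 (K := F) (fun σ => he z (algebraMap K Ω b) (f σ))
    (fun σ => (he_val hE hz hzF (hf3 σ)).1)
    (fun σ τ => (he_val hE hz hzF (hf3 τ)).2 σ) (fun σ τ => by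
      show he z (algebraMap K Ω b) (f (σ * τ)) = _
      rw [hf.mul, (hf3 τ).fix, he_add hE hz _ (hf3 τ), mul_comm])
    (hf.lc.comp (he z (algebraMap K Ω b)))

omit [IsGalois F Ω] in
/-- If the first generator is that of a third `H` of a point, then `f` and the coboundary of `H`
differ by a multiple of `(0, 0)`. -/
theorem stp0 {f : (Ω ≃ₐ[F] Ω) → Pt (crv3 a b) Ω} (hf3 : ∀ σ, f σ + f σ + f σ = 0) {t0 : Ω}
    (n0 : t0 ≠ 0) (k0 : ∀ σ, σ t0 = wt (algebraMap K Ω b) (f σ) * t0) {H : Pt (crv3 a b) Ω}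
    (hH : ∀ σ : Ω ≃ₐ[F] Ω, act (crv3 a b) (rs K σ) (H + H + H) = H + H + H) {c0 : F}
    (e0 : t0 ^ 3 = algebraMap F Ω c0 ^ 3 * dd (algebraMap K Ω b) (H + H + H)) (σ : Ω ≃ₐ[F] Ω) :
    InT hE (f σ - (act (crv3 a b) (rs K σ) H - H)) := by
  obtain ⟨hTT, m0⟩ := sgn0 hE hH σ
  rw [← hh_cube hE, ← mul_pow] at e0
  have hc : algebraMap F Ω c0 * hh (algebraMap K Ω b) H ≠ 0 := by
    intro h
    rw [h] at e0
    exact n0 (pow_eq_zero_iff (three_ne_zero) |>.1 (by rw [e0]; ring))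
  set S := act (crv3 a b) (rs K σ) H - H with hS
  have hnegS : -S + -S + -S = 0 := by
    calc -S + -S + -S = -(S + S + S) := by abel
      _ = 0 := by rw [hTT, neg_zero]
  have key : wt (algebraMap K Ω b) (f σ) = wt (algebraMap K Ω b) S := by
    have hr : (t0 / (algebraMap F Ω c0 * hh (algebraMap K Ω b) H)) ^ 3 = 1 := by
      rw [div_pow, e0, div_self (pow_ne_zero 3 hc)]
    obtain ⟨ζ, hζ, hζσ⟩ : ∃ ζ : Ω, t0 / (algebraMap F Ω c0 * hh (algebraMap K Ω b) H) = ζ ∧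
        σ ζ = ζ := by
      rcases cube_cases hz hr with h | h | h
      · exact ⟨1, h, map_one σ⟩
      · exact ⟨z, h, hzF σ⟩
      · exact ⟨z ^ 2, h, by rw [map_pow, hzF]⟩
    have e1 : t0 = ζ * (algebraMap F Ω c0 * hh (algebraMap K Ω b) H) := by
      rw [← hζ, div_mul_cancel₀ _ hc]
    have e2 : σ t0 = wt (algebraMap K Ω b) S * t0 := by
      rw [e1, map_mul, map_mul, hζσ, σ.commutes, m0]; ring
    rw [k0] at e2
    exact mul_right_cancel₀ n0 e2
  have h3 : (f σ - S) + (f σ - S) + (f σ - S) = 0 := by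
    calc (f σ - S) + (f σ - S) + (f σ - S) = (f σ + f σ + f σ) - (S + S + S) := by abel
      _ = 0 := by rw [hf3, hTT, sub_zero]
  have h4 : wt (algebraMap K Ω b) (f σ - S) = 1 := by
    have h5 := wt_add hE h3 hTT
    rw [sub_add_cancel, key] at h5
    exact mul_right_cancel₀ (wt_ne hE hTT) (by rw [one_mul]; exact h5.symm)
  exact wt_one hE h3 h4

omit [IsGalois F Ω] [IsSepClosed Ω] in
/-- If the second generator is that of `H`, then `f` is the coboundary of `H`. -/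
theorem stp1 {f : (Ω ≃ₐ[F] Ω) → Pt (crv3 a b) Ω} (hf3 : ∀ σ, InT hE (f σ))
    {t1 : Ω} (n1 : t1 ≠ 0) (k1 : ∀ σ, σ t1 = he z (algebraMap K Ω b) (f σ) * t1)
    {H : Pt (crv3 a b) Ω} {t : Ω}
    (hH : ∀ σ : Ω ≃ₐ[F] Ω, InT hE (act (crv3 a b) (rs K σ) H - H) ∧
      σ t = he z (algebraMap K Ω b) (act (crv3 a b) (rs K σ) H - H) * t) {c1 : F}
    (e1 : t1 ^ 3 = algebraMap F Ω c1 ^ 3 * t ^ 3) (σ : Ω ≃ₐ[F] Ω) :
    f σ = act (crv3 a b) (rs K σ) H - H := by
  obtain ⟨hT, m1⟩ := hH σ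
  rw [← mul_pow] at e1
  have hc : algebraMap F Ω c1 * t ≠ 0 := by
    intro h
    rw [h] at e1
    exact n1 (pow_eq_zero_iff (three_ne_zero) |>.1 (by rw [e1]; ring))
  have hr : (t1 / (algebraMap F Ω c1 * t)) ^ 3 = 1 := by
    rw [div_pow, e1, div_self (pow_ne_zero 3 hc)]
  obtain ⟨ζ, hζ, hζσ⟩ : ∃ ζ : Ω, t1 / (algebraMap F Ω c1 * t) = ζ ∧ σ ζ = ζ := by
    rcases cube_cases hz hr with h | h | h
    · exact ⟨1, h, map_one σ⟩
    · exact ⟨z, h, hzF σ⟩
    · exact ⟨z ^ 2, h, by rw [map_pow, hzF]⟩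
  have e3 : t1 = ζ * (algebraMap F Ω c1 * t) := by
    rw [← hζ, div_mul_cancel₀ _ hc]
  have e2 : σ t1 = he z (algebraMap K Ω b) (act (crv3 a b) (rs K σ) H - H) * t1 := by
    rw [e3, map_mul, map_mul, hζσ, σ.commutes, m1]; ring
  rw [k1] at e2
  exact InT.inj hE hz (hf3 σ) hT (mul_right_cancel₀ n1 e2)

end cocycle

section loc

/-- The local condition: `d` is a cube times `1`, `1 / b` or the ordinate `y` of a point of
`y ^ 2 + a x y + b y = x ^ 3`. -/
def LocC {L : Type u} [Field L] (a b d : L) : Prop :=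
  ∃ c y : L, c ≠ 0 ∧ d = c ^ 3 * y ∧ (y = 1 ∨ y = b⁻¹ ∨
    (y ≠ 0 ∧ ∃ x v : L, y * v = x ^ 3 ∧ v - y - a * x = b))

variable {K F Ω L Ω' : Type u} [Field K] [Field F] [Field Ω] [Field L] [Field Ω']
  [Algebra K F] [Algebra F Ω] [Algebra K Ω] [IsScalarTower K F Ω] [IsGalois F Ω]
  [Algebra K L] [Algebra F L] [IsScalarTower K F L]
  [Algebra L Ω'] [Algebra K Ω'] [Algebra F Ω'] [IsScalarTower K L Ω'] [IsScalarTower F L Ω']
  [IsScalarTower K F Ω'] [IsGalois L Ω'] [IsSepClosed Ω'] {a b : K}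
  (hE : IsE ((crv3 a b).baseChange Ω).toAffine (algebraMap K Ω a) (algebraMap K Ω b))
  (hE' : IsE ((crv3 a b).baseChange Ω').toAffine (algebraMap K Ω' a) (algebraMap K Ω' b))
  {z : Ω} (hz : z ^ 2 + z + 1 = 0) {zF : F} (hzF : algebraMap F Ω zF = z)

include hE hE'

theorem loc0 {f : (Ω ≃ₐ[F] Ω) → Pt (crv3 a b) Ω} (hf3 : ∀ σ, f σ + f σ + f σ = 0)
    (hloc : LocTriv (crv3 a b) L Ω' f) {t0 : Ω} {a0 : F} (n0 : t0 ≠ 0)
    (e0 : t0 ^ 3 = algebraMap F Ω a0) (k0 : ∀ σ, σ t0 = wt (algebraMap K Ω b) (f σ) * t0) :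
    LocC (algebraMap K L a) (algebraMap K L b) (algebraMap F L a0) := by
  obtain ⟨ι, P, hP⟩ := hloc
  choose res hres using exists_restrict (F := F) (Ω := Ω) (L := L) (Ω' := Ω') ι
  set ι' : Ω →ₐ[K] Ω' := ι.restrictScalars K with hι'
  have hT : ∀ τ : Ω' ≃ₐ[L] Ω', act (crv3 a b) ι' (f (res τ)) = act (crv3 a b) (rs K τ) P - P :=
    fun τ => hP τ (res τ) (hres τ)
  have hTT : ∀ τ : Ω' ≃ₐ[L] Ω', act (crv3 a b) ι' (f (res τ)) + act (crv3 a b) ι' (f (res τ)) +
      act (crv3 a b) ι' (f (res τ)) = 0 :=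
    fun τ => (three_act _ ι' _).2 (hf3 _)
  have hTP : ∀ τ : Ω' ≃ₐ[L] Ω', act (crv3 a b) (rs K τ) P = P + act (crv3 a b) ι' (f (res τ)) := by
    intro τ; rw [hT]; abel
  have hPP : ∀ τ : Ω' ≃ₐ[L] Ω', act (crv3 a b) (rs K τ) (P + P + P) = P + P + P := by
    intro τ
    rw [map_add, map_add, hTP]
    calc P + act (crv3 a b) ι' (f (res τ)) + (P + act (crv3 a b) ι' (f (res τ))) +
          (P + act (crv3 a b) ι' (f (res τ))) = P + P + P + (act (crv3 a b) ι' (f (res τ)) +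
          act (crv3 a b) ι' (f (res τ)) + act (crv3 a b) ι' (f (res τ))) := by abel
      _ = _ := by rw [hTT, add_zero]
  obtain ⟨Q, hQ⟩ := fixed_point (K := K) (F := L) (crv3 a b) (P + P + P) hPP
  have gb : incl K L Ω' (algebraMap K L b) = algebraMap K Ω' b :=
    (IsScalarTower.algebraMap_apply K L Ω' b).symm
  have m0 : ∀ τ : Ω' ≃ₐ[L] Ω', τ (hh (algebraMap K Ω' b) P) =
      wt (algebraMap K Ω' b) (act (crv3 a b) ι' (f (res τ))) * hh (algebraMap K Ω' b) P := by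
    intro τ
    rw [hT]
    exact (sgn0 hE' hPP τ).2
  have l0 : ∀ τ : Ω' ≃ₐ[L] Ω', τ (ι t0) =
      wt (algebraMap K Ω' b) (act (crv3 a b) ι' (f (res τ))) * ι t0 := by
    intro τ
    have h1 := wt_act (crv3 a b) ι' (algebraMap K Ω b) (f (res τ))
    rw [ι'.commutes] at h1
    rw [hres τ t0, k0, map_mul, h1]
    rfl
  obtain ⟨c0, hc0, q0⟩ := compare (K := L) ((map_ne_zero ι).2 n0) (hh_ne hE' P) _
    (fun τ => wt_ne hE' (hTT τ)) l0 m0
  have w1 : (ι t0) ^ 3 = algebraMap F Ω' a0 := by rw [← map_pow, e0, ι.commutes]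
  refine ⟨c0, dd (algebraMap K L b) Q, hc0, ?_, ?_⟩
  · apply (algebraMap L Ω').injective
    rw [← IsScalarTower.algebraMap_apply F L Ω', ← w1, q0, mul_pow, hh_cube hE', ← hQ,
      ← gb, dd_act, map_mul, map_pow]
    rfl
  · rcases Q with _ | ⟨x, y, hxy⟩
    · exact Or.inl rfl
    · simp only [dd]
      split_ifs with hy
      · exact Or.inr (Or.inl rfl)
      · refine Or.inr (Or.inr ⟨hy, x, y + algebraMap K L a * x + algebraMap K L b, ?_, by ring⟩)
        have h1 := hxy.1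
        rw [Affine.equation_iff] at h1
        have e1 : ((crv3 a b).baseChange L).toAffine.a₁ = algebraMap K L a := rfl
        have e2 : ((crv3 a b).baseChange L).toAffine.a₂ = 0 := map_zero _
        have e3 : ((crv3 a b).baseChange L).toAffine.a₃ = algebraMap K L b := rfl
        have e4 : ((crv3 a b).baseChange L).toAffine.a₄ = 0 := map_zero _
        have e6 : ((crv3 a b).baseChange L).toAffine.a₆ = 0 := map_zero _
        rw [e1, e2, e3, e4, e6] at h1
        linear_combination h1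

include hz hzF

theorem loc1 {f : (Ω ≃ₐ[F] Ω) → Pt (crv3 a b) Ω} (hf3 : ∀ σ, InT hE (f σ))
    (hloc : LocTriv (crv3 a b) L Ω' f) {t1 : Ω} {a1 : F} (n1 : t1 ≠ 0)
    (e1 : t1 ^ 3 = algebraMap F Ω a1) (k1 : ∀ σ, σ t1 = he z (algebraMap K Ω b) (f σ) * t1) :
    LocC (algebraMap K L (3 * a)) (algebraMap K L (a ^ 3 - 27 * b)) (algebraMap F L a1) := by
  obtain ⟨ι, P, hP⟩ := hloc
  choose res hres using exists_restrict (F := F) (Ω := Ω) (L := L) (Ω' := Ω') ι
  set ι' : Ω →ₐ[K] Ω' := ι.restrictScalars K with hι'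
  set z' : Ω' := algebraMap L Ω' (algebraMap F L zF) with hz'def
  have hιz : ι z = z' := by
    rw [← hzF, ι.commutes, hz'def, ← IsScalarTower.algebraMap_apply F L Ω']
  have hz' : z' ^ 2 + z' + 1 = 0 := by
    rw [← hιz, ← map_pow, ← map_add, ← map_one ι, ← map_add, hz, map_zero]
  have hz3 := z3 hz'
  have hz'L : ∀ τ : Ω' ≃ₐ[L] Ω', τ z' = z' := fun τ => by rw [hz'def, τ.commutes]
  have hT : ∀ τ : Ω' ≃ₐ[L] Ω', act (crv3 a b) ι' (f (res τ)) = act (crv3 a b) (rs K τ) P - P :=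
    fun τ => hP τ (res τ) (hres τ)
  have hIn : ∀ τ : Ω' ≃ₐ[L] Ω', InT hE' (act (crv3 a b) ι' (f (res τ))) :=
    fun τ => (hf3 _).act hE'
  have hTP : ∀ τ : Ω' ≃ₐ[L] Ω', act (crv3 a b) (rs K τ) P = P + act (crv3 a b) ι' (f (res τ)) := by
    intro τ; rw [hT]; abel
  have m1 : ∀ τ : Ω' ≃ₐ[L] Ω', τ (he z' (algebraMap K Ω' b) P) =
      he z' (algebraMap K Ω' b) (act (crv3 a b) ι' (f (res τ))) * he z' (algebraMap K Ω' b) P := by
    intro τ
    have h1 := he_act (crv3 a b) (rs K τ) z' (algebraMap K Ω' b) P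
    rw [(rs K τ).commutes, hTP, he_add hE' (by
      show (τ z') ^ 2 + τ z' + 1 = 0
      rw [hz'L]; exact hz') _ (hIn τ)] at h1
    have h2 : (rs K τ) z' = z' := hz'L τ
    rw [h2] at h1
    exact h1.symm
  have l1 : ∀ τ : Ω' ≃ₐ[L] Ω', τ (ι t1) =
      he z' (algebraMap K Ω' b) (act (crv3 a b) ι' (f (res τ))) * ι t1 := by
    intro τ
    have h1 := he_act (crv3 a b) ι' z (algebraMap K Ω b) (f (res τ))
    rw [ι'.commutes] at h1
    have h2 : ι' z = z' := hιz
    rw [h2] at h1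
    rw [hres τ t1, k1, map_mul, h1]
    rfl
  obtain ⟨c, hc, q⟩ := compare (K := L) ((map_ne_zero ι).2 n1) (he_ne hE' hz' P) _
    (fun τ => he_ne hE' hz' _) l1 m1
  have w1 : (ι t1) ^ 3 = algebraMap F Ω' a1 := by rw [← map_pow, e1, ι.commutes]
  have inj := (algebraMap L Ω').injective
  rw [q, mul_pow] at w1
  have hval : ∀ τ : Ω' ≃ₐ[L] Ω',
      he z' (algebraMap K Ω' b) (act (crv3 a b) ι' (f (res τ))) ^ 3 = 1 := by
    intro τ
    rcases hIn τ with h | h | h
    · rw [h, he_zero, one_pow]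
    · rw [h, he_T]; exact hz3
    · rw [h, he_negT]
      calc (z' ^ 2) ^ 3 = (z' ^ 3) ^ 2 := by ring
        _ = 1 := by rw [hz3, one_pow]
  have hda : algebraMap L Ω' (algebraMap K L (a ^ 3 - 27 * b)) =
      algebraMap K Ω' a ^ 3 - 27 * algebraMap K Ω' b := by
    rw [← IsScalarTower.algebraMap_apply K L Ω', map_sub, map_pow, map_mul, map_ofNat]
  have h3a : algebraMap L Ω' (algebraMap K L (3 * a)) = 3 * algebraMap K Ω' a := by
    rw [← IsScalarTower.algebraMap_apply K L Ω', map_mul, map_ofNat]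
  by_cases hPT : InT hE' P
  · refine ⟨c, 1, hc, ?_, Or.inl rfl⟩
    apply inj
    have h3 : he z' (algebraMap K Ω' b) P ^ 3 = 1 := by
      rcases hPT with h | h | h
      · rw [h, he_zero, one_pow]
      · rw [h, he_T]; exact hz3
      · rw [h, he_negT]
        calc (z' ^ 2) ^ 3 = (z' ^ 3) ^ 2 := by ring
          _ = 1 := by rw [hz3, one_pow]
    rw [← IsScalarTower.algebraMap_apply F L Ω', ← w1, h3, map_mul, map_pow, map_one]
  · have hP0 : P ≠ 0 := fun h => hPT (Or.inl h)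
    have hP1 : P ≠ ptT hE' := fun h => hPT (Or.inr (Or.inl h))
    have hP2 : P ≠ -(ptT hE') := fun h => hPT (Or.inr (Or.inr h))
    obtain ⟨u, v, w, hcP⟩ := exists_co hE' P hP0 hP1 hP2
    have hrel := hcP.res hz'
    rw [hcP.he hE'] at w1
    by_cases hB : rb z' u v w = 0
    · rw [if_pos hB] at w1
      rw [hB] at hrel
      refine ⟨-c, (algebraMap K L (a ^ 3 - 27 * b))⁻¹, neg_ne_zero.2 hc, ?_, Or.inr (Or.inl rfl)⟩
      apply inj
      rw [← IsScalarTower.algebraMap_apply F L Ω', ← w1, map_mul, map_pow, map_neg, map_inv₀, hda]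
      have h4 : ra z' u v w ^ 3 = -(algebraMap K Ω' a ^ 3 - 27 * algebraMap K Ω' b) := by
        linear_combination hrel
      rw [inv_pow, h4, inv_neg]
      ring
    · rw [if_neg hB] at w1
      have hA : ∀ τ : Ω' ≃ₐ[L] Ω', (τ (ra z' u v w) * τ (rb z' u v w) =
          ra z' u v w * rb z' u v w) ∧ τ (rb z' u v w) ^ 3 = rb z' u v w ^ 3 := by
        intro τ
        have huvw : (cu P = u ∧ cv (algebraMap K Ω' b) P = v ∧ cw P = w) := hcP.coord hE'
        have hmap : ∀ r : Ω' → Ω' → Ω' → Ω' → Ω', (∀ φ : Ω' →ₐ[K] Ω', ∀ z u v w : Ω',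
            r (φ z) (φ u) (φ v) (φ w) = φ (r z u v w)) →
            τ (r z' u v w) = r z' (cu (act (crv3 a b) (rs K τ) P))
              (cv (algebraMap K Ω' b) (act (crv3 a b) (rs K τ) P))
              (cw (act (crv3 a b) (rs K τ) P)) := by
          intro r hr
          have c1 := cu_act (crv3 a b) (rs K τ) P
          have c2 := cv_act (crv3 a b) (rs K τ) (algebraMap K Ω' b) P
          have c3 := cw_act (crv3 a b) (rs K τ) P
          rw [(rs K τ).commutes] at c2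
          rw [c1, c2, c3, huvw.1, huvw.2.1, huvw.2.2]
          have h5 := hr (rs K τ) z' u v w
          have h6 : (rs K τ) z' = z' := hz'L τ
          rw [h6] at h5
          exact h5.symm
        rw [hmap ra (fun φ z u v w => ra_map φ z u v w), hmap rb (fun φ z u v w => rb_map φ z u v w),
          hTP]
        have e1' : ra z' v w u = z' ^ 2 * ra z' u v w := by
          rw [← ra_cyc hz' u v w]
          linear_combination -(ra z' v w u) * hz3
        have e2' : rb z' v w u = z' * rb z' u v w := by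
          rw [← rb_cyc hz' u v w]
          linear_combination -(rb z' v w u) * hz3
        rcases hIn τ with h | h | h
        · rw [h, add_zero, huvw.1, huvw.2.1, huvw.2.2]
          exact ⟨rfl, rfl⟩
        · obtain ⟨d1, d2, d3⟩ := (hcP.addT hE').coord hE'
          rw [h, d1, d2, d3, e1', e2']
          constructor
          · linear_combination (ra z' u v w * rb z' u v w) * hz3
          · linear_combination (rb z' u v w ^ 3) * hz3
        · obtain ⟨d1, d2, d3⟩ := (hcP.subT hE').coord hE'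
          rw [h, ← sub_eq_add_neg, d1, d2, d3]
          have e3' : ra z' w u v = z' * ra z' u v w := by
            have := ra_cyc hz' w u v
            linear_combination (-1 : Ω') * this
          have e4' : rb z' w u v = z' ^ 2 * rb z' u v w := by
            have := rb_cyc hz' w u v
            linear_combination (-1 : Ω') * this
          rw [e3', e4']
          constructor
          · linear_combination (ra z' u v w * rb z' u v w) * hz3
          · linear_combination (z' ^ 3 + 1) * (rb z' u v w ^ 3) * hz3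
      obtain ⟨y, hy⟩ : rb z' u v w ^ 3 ∈ Set.range (algebraMap L Ω') := by
        rw [InfiniteGalois.mem_range_algebraMap_iff_fixed]
        intro τ
        rw [map_pow, (hA τ).2]
      obtain ⟨x, hx⟩ : -(ra z' u v w * rb z' u v w) ∈ Set.range (algebraMap L Ω') := by
        rw [InfiniteGalois.mem_range_algebraMap_iff_fixed]
        intro τ
        rw [map_neg, map_mul, (hA τ).1]
      refine ⟨c, y, hc, ?_, Or.inr (Or.inr ⟨?_, x, y + algebraMap K L (3 * a) * x +
        algebraMap K L (a ^ 3 - 27 * b), ?_, by ring⟩)⟩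
      · apply inj
        rw [← IsScalarTower.algebraMap_apply F L Ω', ← w1, map_mul, map_pow, hy]
      · rintro rfl
        rw [map_zero] at hy
        exact pow_ne_zero 3 hB hy.symm
      · apply inj
        rw [map_mul, map_add, map_add, map_mul, map_pow, hx, hy, h3a, hda]
        linear_combination (rb z' u v w ^ 3) * hrel

end loc

end Pool.Agent.N181.T3
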