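import Pool.Agent.N181.T3.Sel
import Pool.Agent.N181.T3.Irr

/-!
The case where `b` and `a ^ 3 - 27 b` are constants times powers of irreducible polynomials.
-/

set_option autoImplicit false
set_option linter.all false

open Polynomial IsDedekindDomain WeierstrassCurve WeierstrassCurve.Affine
open scoped Classical

namespace Pool.Agent.N181.T3

open Pool.Agent.TH115.GD (Pt act incl rs ak act_zero act_some act_inj act_act IsCoc LocTriv
  fixed_point exists_restrict rs_act_incl Preserves exists_conj IsTower LocallyTrivial Sep Comp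
  wFin lt_subT cob_isCoc sepKΩ preserves)

section poly

variable {k : Type} [Field k]

theorem pow_of {π : k[X]} (hπ : Irreducible π) : ∀ A : k[X], A ≠ 0 →
    (∀ ρ : k[X], Irreducible ρ → ρ ∣ A → ρ ∣ π) →
    ∃ (w : k) (i : ℕ), w ≠ 0 ∧ A = C w * π ^ i := by
  intro A
  refine WfDvdMonoid.induction_on_irreducible A ?_ ?_ ?_
  · intro h
    exact absurd rfl h
  · intro u hu _ _
    obtain ⟨c, hc, rfl⟩ := Polynomial.isUnit_iff.1 hu
    exact ⟨c, 0, hc.ne_zero, by rw [pow_zero, mul_one]⟩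
  · intro q p hq hp ih _ hd
    obtain ⟨w, i, hw, e⟩ := ih hq fun ρ h1 h2 => hd ρ h1 (h2.mul_left _)
    have h1 : Associated p π := hp.associated_of_dvd hπ (hd p hp (dvd_mul_right _ _))
    obtain ⟨x, hx⟩ := h1.symm
    obtain ⟨c, hc, hcx⟩ := Polynomial.isUnit_iff.1 x.isUnit
    refine ⟨c * w, i + 1, mul_ne_zero hc.ne_zero hw, ?_⟩
    rw [← hx, ← hcx, e, C_mul]
    ring

/-- A constant times a power of an irreducible polynomial is not a constant times a cube. -/
theorem not_cst_cube {π : k[X]} (hπ : Irreducible π) {u : k} (hu : u ≠ 0) {n : ℕ} (hn : ¬ 3 ∣ n)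
    (u' : k) (q : k[X]) : C u * π ^ n ≠ C u' * q ^ 3 := by
  intro e
  have h0 : C u * π ^ n ≠ 0 := mul_ne_zero (C_ne_zero.2 hu) (pow_ne_zero n hπ.ne_zero)
  have hq : q ≠ 0 := by
    rintro rfl
    rw [zero_pow three_ne_zero, mul_zero] at e
    exact h0 e
  have hu' : u' ≠ 0 := by
    rintro rfl
    rw [C_0, zero_mul] at e
    exact h0 e
  obtain ⟨w, i, hw, hqi⟩ := pow_of hπ q hq (fun ρ h1 h2 => by
    have h3 : ρ ∣ C u * π ^ n := by
      rw [e]
      exact (h2.trans (dvd_pow_self q three_ne_zero)).mul_left _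
    rcases h1.prime.dvd_or_dvd h3 with h4 | h4
    · exact absurd (isUnit_of_dvd_unit h4 (isUnit_C.2 (isUnit_iff_ne_zero.2 hu))) h1.not_isUnit
    · exact h1.prime.dvd_of_dvd_pow h4)
  have h1 := congrArg natDegree e
  rw [natDegree_C_mul hu, natDegree_C_mul hu', natDegree_pow, natDegree_pow, hqi,
    natDegree_C_mul hw, natDegree_pow] at h1
  have h2 := hπ.natDegree_pos
  have h3 : n = 3 * i := by
    apply Nat.eq_of_mul_eq_mul_right h2
    rw [h1]; ring
  exact hn ⟨i, h3⟩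

end poly

section rep

variable {k k' K F : Type} [Field k] [Field k'] [Algebra k k'] [IsSepClosure k k']
  [Field K] [Algebra k[X] K] [Field F] [Algebra k'[X] F]
  [IsFractionRing k'[X] F] [Algebra K F]
  (hKF : ∀ p : k[X], algebraMap K F (algebraMap k[X] K p) =
    algebraMap k'[X] F (p.map (algebraMap k k')))
  (h3 : (3 : k) ≠ 0)

include hKF h3 in
theorem const_cube {u : k} (hu : u ≠ 0) : ∃ c : F, c ≠ 0 ∧
    algebraMap K F (algebraMap k[X] K (C u)) = c ^ 3 := by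
  haveI : IsSepClosed k' := IsSepClosure.sep_closed k
  have h3' : (3 : k') ≠ 0 := by
    rw [← map_ofNat (algebraMap k k') 3]
    exact (_root_.map_ne_zero _).2 h3
  obtain ⟨t, ht⟩ := exists_cb h3' (algebraMap k k' u)
  have ht0 : t ≠ 0 := by
    rintro rfl
    rw [zero_pow three_ne_zero] at ht
    exact (_root_.map_ne_zero _).2 hu ht.symm
  refine ⟨algebraMap k'[X] F (C t), by simpa using ht0, ?_⟩
  rw [hKF, map_C, ← ht, C_pow, map_pow]

include hKF h3 in
/-- A polynomial whose irreducible factors divide `p = u π ^ n` is a power of `p` up to cubes. -/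
theorem pow_rep [IsFractionRing k[X] K] {p π : k[X]} (hπ : Irreducible π) {u : k} (hu : u ≠ 0)
    {n : ℕ} (hn : ¬ 3 ∣ n)
    (hp : p = C u * π ^ n) {A : k[X]} (hA : A ≠ 0)
    (h : ∀ ρ : k[X], Irreducible ρ → ρ ∣ A → ρ ∣ p) :
    ∃ (c : F) (j : ℕ), c ≠ 0 ∧ algebraMap K F (algebraMap k[X] K A) =
      c ^ 3 * algebraMap K F (algebraMap k[X] K p) ^ j := by
  have hdv : ∀ ρ : k[X], Irreducible ρ → ρ ∣ A → ρ ∣ π := by
    intro ρ h1 h2
    have h3 := h ρ h1 h2
    rw [hp] at h3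
    rcases h1.prime.dvd_or_dvd h3 with h4 | h4
    · exact absurd (isUnit_of_dvd_unit h4 (isUnit_C.2 (isUnit_iff_ne_zero.2 hu))) h1.not_isUnit
    · exact h1.prime.dvd_of_dvd_pow h4
  obtain ⟨w, i, hw, e⟩ := pow_of hπ A hA hdv
  have hn2 : n ^ 2 % 3 = 1 := by
    have h5 : n % 3 = 1 ∨ n % 3 = 2 := by omega
    rw [Nat.pow_mod]
    rcases h5 with h5 | h5 <;> rw [h5]
  obtain ⟨s, hs⟩ : ∃ s, n ^ 2 = 3 * s + 1 := ⟨n ^ 2 / 3, by omega⟩
  obtain ⟨c1, hc1, e1⟩ := const_cube (K := K) (F := F) hKF h3 hw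
  obtain ⟨c2, hc2, e2⟩ := const_cube (K := K) (F := F) hKF h3 hu
  have injK := IsFractionRing.injective k[X] K
  have hπ0 : algebraMap K F (algebraMap k[X] K π) ≠ 0 := by
    rw [Ne, map_eq_zero, map_eq_zero_iff _ injK]
    exact hπ.ne_zero
  set P := algebraMap K F (algebraMap k[X] K π) with hP
  refine ⟨c1 / (c2 ^ (n * i) * P ^ (s * i)), n * i, ?_, ?_⟩
  · exact div_ne_zero hc1 (mul_ne_zero (pow_ne_zero _ hc2) (pow_ne_zero _ hπ0))
  · rw [e, hp, map_mul, map_mul, map_mul, map_mul, map_pow, map_pow, map_pow, map_pow, e1, e2, ← hP]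
    have e3 : P ^ (n ^ 2 * i) = P ^ i * (P ^ (s * i)) ^ 3 := by
      rw [← pow_mul, ← pow_add, hs]
      congr 1
      ring
    have e4 : (c2 ^ 3 * P ^ n) ^ (n * i) = (c2 ^ (n * i)) ^ 3 * P ^ (n ^ 2 * i) := by
      rw [mul_pow, ← pow_mul, ← pow_mul, ← pow_mul]
      congr 2
      · ring
      · ring
    rw [e4, e3, div_pow, mul_pow]
    have h5 : c2 ^ (n * i) ≠ 0 := pow_ne_zero _ hc2
    have h6 : P ^ (s * i) ≠ 0 := pow_ne_zero _ hπ0
    field_simp

end rep

section torsion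

/-- The powers of `b` are the classes of the multiples of `(0, 0)`. -/
theorem repb {K : Type} [Field K] {a b : K} (h3 : (3 : K) ≠ 0) (hb : b ≠ 0)
    (hd : a ^ 3 - 27 * b ≠ 0) (j : ℕ) :
    ∃ (P : Pt (crv3 a b) K) (c : K), P + P + P = 0 ∧ c ≠ 0 ∧ b ^ j = c ^ 3 * dd b P := by
  have hE : IsE ((crv3 a b).baseChange K).toAffine a b := isE (a := a) (b := b) h3 hb hd K
  obtain ⟨q, r, hr, hj⟩ : ∃ q r, r < 3 ∧ j = 3 * q + r :=
    ⟨j / 3, j % 3, Nat.mod_lt _ (by norm_num), (Nat.div_add_mod j 3).symm⟩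
  subst hj
  have hbq : b ^ q ≠ 0 := pow_ne_zero q hb
  interval_cases r
  · refine ⟨0, b ^ q, by rw [add_zero, add_zero], hbq, ?_⟩
    show _ = _ * 1
    ring
  · refine ⟨-(ptT hE), -b ^ q, ?_, neg_ne_zero.2 hbq, ?_⟩
    · have h1 := TTT hE
      have : -(ptT hE) + -(ptT hE) + -(ptT hE) = -(ptT hE + ptT hE + ptT hE) := by abel
      rw [this, h1, neg_zero]
    · rw [dd_negT hE]
      ring
  · refine ⟨ptT hE, b ^ (q + 1), TTT hE, pow_ne_zero _ hb, ?_⟩
    rw [dd_T hE]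
    field_simp
    ring

variable {K Ω : Type} [Field K] [Field Ω] [Algebra K Ω] [IsSepClosed Ω] {a b : K}
  (hE : IsE ((crv3 a b).baseChange Ω).toAffine (algebraMap K Ω a) (algebraMap K Ω b))

include hE in
theorem S_cob {z : Ω} (hz : z ^ 2 + z + 1 = 0) {S : Pt (crv3 a b) Ω} (hS3 : S + S + S = 0)
    (hSw : wt (algebraMap K Ω b) S = z) {φ : Ω →ₐ[K] Ω} (hφz : φ z = z) :
    InT hE (act (crv3 a b) φ S - S) := by
  have h1 : act (crv3 a b) φ S + act (crv3 a b) φ S + act (crv3 a b) φ S = 0 :=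
    (three_act _ _ _).2 hS3
  have h3 : (act (crv3 a b) φ S - S) + (act (crv3 a b) φ S - S) +
      (act (crv3 a b) φ S - S) = 0 := by
    calc _ = (act (crv3 a b) φ S + act (crv3 a b) φ S +
          act (crv3 a b) φ S) - (S + S + S) := by abel
      _ = 0 := by rw [h1, hS3, sub_zero]
  apply wt_one hE h3
  have h4 := wt_add hE h3 hS3
  have h5 := wt_act (crv3 a b) φ (algebraMap K Ω b) S
  rw [φ.commutes] at h5
  rw [sub_add_cancel, h5, hSw, hφz] at h4
  exact mul_right_cancel₀ (z_ne hz) (by rw [one_mul]; exact h4.symm)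

end torsion

section one

variable {k k' K F : Type} [Field k] [Field k'] [Algebra k k'] [Field K] [Algebra k[X] K]
    [Field F] [Algebra k'[X] F] [IsFractionRing k'[X] F] [Algebra K F]

/-- The data of the generic case. -/
structure Gen3 (k' : Type) [Field k'] [Algebra k k'] (a b : k[X]) : Prop where
  three : (3 : k) ≠ 0
  fb : ∃ (π : k[X]) (u : k) (n : ℕ), π.Separable ∧ Stays k' π ∧ u ≠ 0 ∧ ¬ 3 ∣ n ∧ b = C u * π ^ n
  fd : ∃ (ρ : k[X]) (v : k) (m : ℕ), ρ.Separable ∧ Stays k' ρ ∧ v ≠ 0 ∧ ¬ 3 ∣ m ∧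
    a ^ 3 - 27 * b = C v * ρ ^ m

/-- The invariant classes of the Selmer group for multiplication by three are the classes of the
multiples of `(0, 0)`. -/
theorem one3 (hT : IsTower k k' K F) {a b : k[X]} (hG : Gen3 k' a b)
    {aK bK : K} (haK : aK = algebraMap k[X] K a) (hbK : bK = algebraMap k[X] K b)
    (f : (Sep F ≃ₐ[F] Sep F) → Pt (crv3 aK bK) (Sep F)) (hfc : IsCoc (crv3 aK bK) f)
    (hf3 : ∀ σ, f σ + f σ + f σ = 0) (hfl : LocallyTrivial k' (crv3 aK bK) f)
    (hfi : InvOne3 (crv3 aK bK) f) :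
    ∃ (P : Pt (crv3 aK bK) K) (H : Pt (crv3 aK bK) (Sep F)), P + P + P = 0 ∧
      3 • H = act (crv3 aK bK) (incl K K (Sep F)) P ∧
      ∀ σ, f σ = act (crv3 aK bK) (rs K σ) H - H := by
  haveI := hT.sep
  haveI := hT.fracK
  have hKF := hT.map
  have h3 := hG.three
  have injK := IsFractionRing.injective k[X] K
  obtain ⟨π, u, n, sπ, tπ, hu, hn, hb⟩ := hG.fb
  obtain ⟨ρ, v, m, sρ, tρ, hv, hm, hd⟩ := hG.fd
  have iπ := irr_of_stays tπ
  have iρ := irr_of_stays tρ
  have hb0 : b ≠ 0 := by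
    rw [hb]; exact mul_ne_zero (C_ne_zero.2 hu) (pow_ne_zero n iπ.ne_zero)
  have hd0 : a ^ 3 - 27 * b ≠ 0 := by
    rw [hd]; exact mul_ne_zero (C_ne_zero.2 hv) (pow_ne_zero m iρ.ne_zero)
  have h3X : (3 : k[X]) ≠ 0 := by
    have : (3 : k[X]) = C 3 := by rw [map_ofNat]
    rw [this]
    exact C_ne_zero.2 h3
  have h3K : (3 : K) ≠ 0 := by
    rw [← map_ofNat (algebraMap k[X] K) 3]
    intro h
    exact h3X (injK (by rw [h, map_zero]))
  have hbK0 : bK ≠ 0 := by
    rw [hbK, Ne, map_eq_zero_iff _ injK]; exact hb0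
  have hdK : algebraMap k[X] K (a ^ 3 - 27 * b) = aK ^ 3 - 27 * bK := by
    rw [haK, hbK, map_sub, map_mul, map_pow, map_ofNat]
  have hdK0 : aK ^ 3 - 27 * bK ≠ 0 := by
    rw [← hdK, Ne, map_eq_zero_iff _ injK]; exact hd0
  have dvb : ∀ τ : k[X], Irreducible τ → τ ∣ b → Associated τ π := by
    intro τ h1 h2
    rw [hb] at h2
    rcases h1.prime.dvd_or_dvd h2 with h4 | h4
    · exact absurd (isUnit_of_dvd_unit h4 (isUnit_C.2 (isUnit_iff_ne_zero.2 hu))) h1.not_isUnit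
    · exact h1.associated_of_dvd iπ (h1.prime.dvd_of_dvd_pow h4)
  have dvd' : ∀ τ : k[X], Irreducible τ → τ ∣ a ^ 3 - 27 * b → Associated τ ρ := by
    intro τ h1 h2
    rw [hd] at h2
    rcases h1.prime.dvd_or_dvd h2 with h4 | h4
    · exact absurd (isUnit_of_dvd_unit h4 (isUnit_C.2 (isUnit_iff_ne_zero.2 hv))) h1.not_isUnit
    · exact h1.associated_of_dvd iρ (h1.prime.dvd_of_dvd_pow h4)
  have sep_as : ∀ {τ π : k[X]}, Associated τ π → π.Separable → τ.Separable :=
    fun h s => s.of_dvd h.dvd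
  have st_as : ∀ {τ π : k[X]}, Associated τ π → Stays k' π → Stays k' τ := by
    intro τ π h s k1 h1 h2
    exact ((h.map (mapRingHom (algebraMap k k1))).irreducible_iff).2 (s k1 h1 h2)
  obtain ⟨P, Q, H, gP, gQ, hH, hf⟩ := sel3 (F := F) hT h3 hb0 hd0
    (fun τ h1 h2 => (h1.prime.dvd_or_dvd h2).elim (fun h => sep_as (dvb τ h1 h) sπ)
      (fun h => sep_as (dvd' τ h1 h) sρ))
    (fun τ h1 h2 => (h1.prime.dvd_or_dvd h2).elim (fun h => st_as (dvb τ h1 h) tπ)
      (fun h => st_as (dvd' τ h1 h) tρ))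
    (fun u' q => by rw [hb]; exact not_cst_cube iπ hu hn u' q)
    (fun u' q => by rw [hd]; exact not_cst_cube iρ hv hm u' q) haK hbK
    (GA := fun P => P + P + P = 0) (GB := fun Q => Q = 0) rfl
    (fun A hA0 hA => by
      obtain ⟨c, j, hc, e⟩ := pow_rep (K := K) (F := F) hKF h3 iπ hu hn hb hA0 hA
      obtain ⟨P, c', hP, hc', e'⟩ := repb (a := aK) (b := bK) h3K hbK0 hdK0 j
      refine ⟨P, c * algebraMap K F c', hP, mul_ne_zero hc ((_root_.map_ne_zero _).2 hc'), ?_⟩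
      rw [e, ← hbK, ← map_pow, e', map_mul, map_pow]
      ring)
    (Or.inr fun zK hzK B hB0 hB hE => by
      obtain ⟨c, j, hc, e⟩ := pow_rep (K := K) (F := F) hKF h3 iρ hv hm hd hB0 hB
      have hz : (algebraMap K (Sep F) zK) ^ 2 + algebraMap K (Sep F) zK + 1 = 0 := by
        rw [← map_pow, ← map_add, ← map_one (algebraMap K (Sep F)), ← map_add, hzK, map_zero]
      obtain ⟨S, hS3, hSw, hSn⟩ := exists_S hE hz
      obtain ⟨-, hcube, hne⟩ := tor_val hE hS3 hSn
      rw [hSw] at hcube hne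
      refine ⟨j • S, (-(he (algebraMap K (Sep F) zK) (algebraMap K (Sep F) bK) S)) ^ j, c, 0,
        pow_ne_zero j (neg_ne_zero.2 hne), hc, rfl, ?_, ?_, fun φ => ?_⟩
      · have e3 : ∀ X : Pt (crv3 aK bK) (Sep F), X + X + X = 3 • X := by
          intro X
          rw [show (3 : ℕ) = 1 + 1 + 1 from rfl, add_smul, add_smul, one_smul]
        rw [map_zero, e3, smul_comm, ← e3, hS3, smul_zero]
      · rw [e, hdK, ← pow_mul, mul_comm j 3, pow_mul]
        have e6 : (-(he (algebraMap K (Sep F) zK) (algebraMap K (Sep F) bK) S)) ^ 3 =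
            algebraMap K (Sep F) (aK ^ 3 - 27 * bK) := by
          have : (-(he (algebraMap K (Sep F) zK) (algebraMap K (Sep F) bK) S)) ^ 3 =
            -(he (algebraMap K (Sep F) zK) (algebraMap K (Sep F) bK) S ^ 3) := by ring
          rw [this, hcube, neg_neg]
        rw [e6, IsScalarTower.algebraMap_apply K F (Sep F)]
        simp only [map_mul, map_pow]
      · have hφz : φ (algebraMap K (Sep F) zK) = algebraMap K (Sep F) zK := φ.commutes zK
        have hcob := S_cob hE hz hS3 hSw hφz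
        obtain ⟨h7, h8⟩ := mult_S' hE hz hcob j
        refine ⟨h7, ?_⟩
        have h9 : φ (he (algebraMap K (Sep F) zK) (algebraMap K (Sep F) bK) S) =
            he (algebraMap K (Sep F) zK) (algebraMap K (Sep F) bK) (act (crv3 aK bK) φ S - S) *
              he (algebraMap K (Sep F) zK) (algebraMap K (Sep F) bK) S :=
          he_rs hE hz hφz hcob
        rw [h8, map_pow, map_neg, h9]
        ring)
    f hfc hf3 hfl hfi
  have gQ' : Q = 0 := gQ
  refine ⟨P, H, gP, ?_, hf⟩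
  rw [hH, gQ', add_zero]

end one

end Pool.Agent.N181.T3
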