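import Pool.Agent.TH115.ID.Glob
import Pool.Agent.N181.T3.Kum

/-!
Valuations modulo three, representation of elements modulo cubes, the local condition.
-/

set_option autoImplicit false
set_option linter.all false

open Polynomial IsDedekindDomain WeierstrassCurve WeierstrassCurve.Affine
open scoped Classical

namespace Pool.Agent.N181.T3

open Pool.Agent.TH115.GD (pl val_poly)

section val

variable {L : Type*} [Field L] (w : Valuation L (WithZero (Multiplicative ℤ)))

theorem le_cases {p q r s : L} (h : p = q + r + s) : w p ≤ w q ∨ w p ≤ w r ∨ w p ≤ w s := by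
  have h1 : w p ≤ max (max (w q) (w r)) (w s) := by
    rw [h]
    exact (w.map_add _ _).trans (max_le_max (w.map_add _ _) le_rfl)
  rcases le_max_iff.1 h1 with h2 | h2
  · rcases le_max_iff.1 h2 with h3 | h3
    · exact Or.inl h3
    · exact Or.inr (Or.inl h3)
  · exact Or.inr (Or.inr h2)

open WithZero in
theorem val3 {a b x y v : L} (ha : w a ≤ 1) (hb : w b = 1) (hy : y ≠ 0) (h1 : y * v = x ^ 3)
    (h2 : v - y - a * x = b) : (3 : ℤ) ∣ log (w y) := by
  have hy' : w y ≠ 0 := (Valuation.ne_zero_iff w).2 hy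
  by_cases hx : x = 0
  · have hv : v = 0 := by
      rw [hx] at h1
      have : y * v = 0 := by rw [h1]; ring
      exact (mul_eq_zero.1 this).resolve_left hy
    have e : b = -y := by rw [← h2, hv, hx]; ring
    rw [e, Valuation.map_neg] at hb
    rw [hb, log_one]
    exact dvd_zero _
  have hv : v ≠ 0 := by
    rintro rfl
    apply pow_ne_zero 3 hx
    rw [← h1, mul_zero]
  have hv' : w v ≠ 0 := (Valuation.ne_zero_iff w).2 hv
  have hx' : w x ≠ 0 := (Valuation.ne_zero_iff w).2 hx
  have hax : w (a * x) ≤ w x := by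
    rw [map_mul]
    calc w a * w x ≤ 1 * w x := by gcongr
      _ = w x := one_mul _
  have hprod : log (w y) + log (w v) = 3 * log (w x) := by
    have := congrArg w h1
    rw [map_mul, map_pow] at this
    have h3 := congrArg log this
    rw [log_mul hy' hv', log_pow] at h3
    simpa using h3
  have conv : ∀ {p q : L}, w p ≠ 0 → w q ≠ 0 → w p ≤ w q → log (w p) ≤ log (w q) :=
    fun hp hq h => (log_le_log hp hq).2 h
  have conv1 : ∀ {p : L}, w p ≠ 0 → w p ≤ 1 → log (w p) ≤ 0 := by
    intro p hp h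
    have := (log_le_log hp one_ne_zero).2 h
    rwa [log_one] at this
  have conv2 : ∀ {p : L}, w p ≠ 0 → 1 ≤ w p → 0 ≤ log (w p) := by
    intro p hp h
    have := (log_le_log one_ne_zero hp).2 h
    rwa [log_one] at this
  have U1 : log (w v) ≤ log (w y) ∨ log (w v) ≤ log (w x) ∨ log (w v) ≤ 0 := by
    rcases le_cases w (show v = y + a * x + b by rw [← h2]; ring) with h | h | h
    · exact Or.inl (conv hv' hy' h)
    · exact Or.inr (Or.inl (conv hv' hx' (h.trans hax)))
    · exact Or.inr (Or.inr (conv1 hv' (h.trans hb.le)))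
  have U2 : log (w y) ≤ log (w v) ∨ log (w y) ≤ log (w x) ∨ log (w y) ≤ 0 := by
    rcases le_cases w (show y = v + -(a * x) + -b by rw [← h2]; ring) with h | h | h
    · exact Or.inl (conv hy' hv' h)
    · rw [Valuation.map_neg] at h
      exact Or.inr (Or.inl (conv hy' hx' (h.trans hax)))
    · rw [Valuation.map_neg] at h
      exact Or.inr (Or.inr (conv1 hy' (h.trans hb.le)))
  have U3 : 0 ≤ log (w v) ∨ 0 ≤ log (w y) ∨ 0 ≤ log (w x) := by
    rcases le_cases w (show b = v + -y + -(a * x) by rw [← h2]; ring) with h | h | h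
    · rw [hb] at h
      exact Or.inl (conv2 hv' h)
    · rw [Valuation.map_neg, hb] at h
      exact Or.inr (Or.inl (conv2 hy' h))
    · rw [Valuation.map_neg, hb] at h
      exact Or.inr (Or.inr (conv2 hx' (h.trans hax)))
  omega

open WithZero in
theorem locC_val {a b d : L} (ha : w a ≤ 1) (hb : w b = 1) (h : LocC a b d) :
    (3 : ℤ) ∣ log (w d) := by
  obtain ⟨c, y, hc, e, hy⟩ := h
  have hb0 : b ≠ 0 := by
    rintro rfl
    rw [map_zero] at hb
    exact zero_ne_one hb
  have hy0 : y ≠ 0 := by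
    rcases hy with rfl | rfl | ⟨h, -⟩
    · exact one_ne_zero
    · exact inv_ne_zero hb0
    · exact h
  have h3 : (3 : ℤ) ∣ log (w y) := by
    rcases hy with rfl | rfl | ⟨h, x, v, h1, h2⟩
    · rw [map_one, log_one]; exact dvd_zero _
    · rw [map_inv₀, hb, inv_one, log_one]; exact dvd_zero _
    · exact val3 w ha hb h h1 h2
  rw [e, map_mul, map_pow, log_mul (pow_ne_zero 3 ((Valuation.ne_zero_iff w).2 hc))
    ((Valuation.ne_zero_iff w).2 hy0), log_pow]
  refine dvd_add ?_ h3
  exact ⟨log (w c), by simp⟩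

end val

section p3

variable {R F : Type} [CommRing R] [IsDedekindDomain R] [Field F] [Algebra R F]
  [IsFractionRing R F]

/-- The valuation modulo three. -/
noncomputable def p3 (v : HeightOneSpectrum R) (x : F) : ZMod 3 :=
  ((-(WithZero.log (v.valuation F x)) : ℤ) : ZMod 3)

theorem p3_eq_zero {v : HeightOneSpectrum R} {x : F} :
    p3 v x = 0 ↔ (3 : ℤ) ∣ WithZero.log (v.valuation F x) := by
  unfold p3
  rw [ZMod.intCast_zmod_eq_zero_iff_dvd]
  exact dvd_neg

theorem p3_mul (v : HeightOneSpectrum R) {x y : F} (hx : x ≠ 0) (hy : y ≠ 0) :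
    p3 v (x * y) = p3 v x + p3 v y := by
  have hx0 : v.valuation F x ≠ 0 := (Valuation.ne_zero_iff _).2 hx
  have hy0 : v.valuation F y ≠ 0 := (Valuation.ne_zero_iff _).2 hy
  unfold p3
  rw [map_mul, WithZero.log_mul hx0 hy0]
  push_cast
  ring

theorem p3_one (v : HeightOneSpectrum R) : p3 v (1 : F) = 0 := by
  unfold p3
  rw [map_one, WithZero.log_one]
  simp

theorem p3_pow (v : HeightOneSpectrum R) {x : F} (hx : x ≠ 0) (n : ℕ) :
    p3 v (x ^ n) = n * p3 v x := by
  induction n with
  | zero => rw [pow_zero, p3_one]; simp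
  | succ n ih =>
    rw [pow_succ, p3_mul v (pow_ne_zero n hx) hx, ih]
    push_cast
    ring

theorem p3_cube (v : HeightOneSpectrum R) {c x : F} (hc : c ≠ 0) (hx : x ≠ 0) :
    p3 v (c ^ 3 * x) = p3 v x := by
  rw [p3_mul v (pow_ne_zero 3 hc) hx, p3_pow v hc]
  have : ((3 : ℕ) : ZMod 3) = 0 := rfl
  rw [this, zero_mul, zero_add]

/-- In a principal ideal domain an element with valuations divisible by three is a unit times a
cube. -/
theorem cube_rep [IsPrincipalIdealRing R] {a : F} (ha : a ≠ 0)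
    (h : ∀ v : HeightOneSpectrum R, p3 v a = 0) :
    ∃ (w : Rˣ) (s : F), s ≠ 0 ∧ a = algebraMap R F w * s ^ 3 := by
  obtain ⟨n, d, hd, rfl⟩ := IsFractionRing.div_surjective (A := R) a
  have hd0 : d ≠ 0 := nonZeroDivisors.ne_zero hd
  have hdK : algebraMap R F d ≠ 0 := by
    simpa using hd0
  have hn0 : n ≠ 0 := by
    rintro rfl
    simp at ha
  have hb : n * d ^ 2 ≠ 0 := mul_ne_zero hn0 (pow_ne_zero 2 hd0)
  have hev : ∀ v : HeightOneSpectrum R, 3 ∣ (Associates.mk v.asIdeal).count
      (Associates.mk (Ideal.span {n * d ^ 2})).factors := by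
    intro v
    have h1 := h v
    have e : algebraMap R F (n * d ^ 2) = (algebraMap R F d) ^ 3 *
        (algebraMap R F n / algebraMap R F d) := by
      rw [map_mul, map_pow]; field_simp
    have e1 : p3 v (algebraMap R F (n * d ^ 2)) = 0 := by
      rw [e, p3_cube v hdK ha, h1]
    rw [p3_eq_zero] at e1
    have e2 := v.valuation_of_algebraMap (K := F) (n * d ^ 2)
    rw [show v.valuation F (algebraMap R F (n * d ^ 2)) = v.intValuation (n * d ^ 2) from e2,
      v.intValuation_if_neg hb, WithZero.log_exp, dvd_neg] at e1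
    exact_mod_cast e1
  have hI0 : Ideal.span {n * d ^ 2} ≠ ⊥ := by
    rw [Ne, Ideal.span_singleton_eq_bot]; exact hb
  obtain ⟨J, hJ⟩ : ∃ J : Ideal R, J ^ 3 = Ideal.span {n * d ^ 2} := by
    refine ⟨∏ᶠ v : HeightOneSpectrum R, v.asIdeal ^
      ((Associates.mk v.asIdeal).count (Associates.mk (Ideal.span {n * d ^ 2})).factors / 3), ?_⟩
    rw [finprod_pow]
    · conv_rhs => rw [← Ideal.finprod_heightOneSpectrum_factorization hI0]
      apply finprod_congr
      intro v
      rw [← pow_mul, HeightOneSpectrum.maxPowDividing]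
      congr 1
      exact Nat.div_mul_cancel (hev v)
    · have hfin := Ideal.hasFiniteMulSupport hI0
      refine Set.Finite.subset hfin fun v hv => ?_
      rw [Function.mem_mulSupport] at hv ⊢
      intro h0
      apply hv
      have hc : (Associates.mk v.asIdeal).count
          (Associates.mk (Ideal.span {n * d ^ 2})).factors = 0 := by
        by_contra hne
        rw [HeightOneSpectrum.maxPowDividing, Ideal.one_eq_top, Ideal.pow_eq_top_iff] at h0
        exact (h0.resolve_right hne |> v.isPrime.ne_top)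
      rw [hc]
      simp
  obtain ⟨c, hc⟩ := (IsPrincipalIdealRing.principal J).principal
  have hJc : J = Ideal.span {c} := hc
  rw [hJc, Ideal.span_singleton_pow, Ideal.span_singleton_eq_span_singleton] at hJ
  obtain ⟨w, hw⟩ := hJ
  have hc0 : c ≠ 0 := by
    rintro rfl
    apply hb
    rw [← hw]; ring
  have hcK : algebraMap R F c ≠ 0 := by simpa using hc0
  refine ⟨w, algebraMap R F c / algebraMap R F d, div_ne_zero hcK hdK, ?_⟩
  have e := congrArg (algebraMap R F) hw
  rw [map_mul, map_mul, map_pow, map_pow] at e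
  field_simp
  linear_combination -e

end p3

section place

variable {k' F : Type} [Field k'] [Field F] [Algebra k'[X] F] [IsFractionRing k'[X] F]

theorem p3_poly (θ : k') {p : k'[X]} (hp : p ≠ 0) :
    p3 (pl θ) (algebraMap k'[X] F p) = (rootMultiplicity θ p : ZMod 3) := by
  unfold p3
  rw [val_poly θ hp, WithZero.log_exp]
  simp

/-- Representation of elements modulo cubes. -/
theorem rep3 [IsSepClosed k'] (h3 : (3 : k') ≠ 0) {a0 : F} (h0 : a0 ≠ 0) (Z : Finset k')
    (h : ∀ v : HeightOneSpectrum k'[X], (∀ θ ∈ Z, v ≠ pl θ) → p3 v a0 = 0) :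
    ∃ c : F, c ≠ 0 ∧ a0 = c ^ 3 * algebraMap k'[X] F
      (∏ θ ∈ Z, (X - C θ) ^ (p3 (pl θ) a0).val) := by
  set q : k'[X] := ∏ θ ∈ Z, (X - C θ) ^ (p3 (pl θ) a0).val with hq
  set r : k'[X] := ∏ θ ∈ Z, (X - C θ) ^ (3 - (p3 (pl θ) a0).val) with hr
  set s : k'[X] := ∏ θ ∈ Z, (X - C θ) with hs
  have hle : ∀ x : ZMod 3, x.val ≤ 3 := fun x => (ZMod.val_lt x).le
  have hqr : q * r = s ^ 3 := by
    rw [hq, hr, hs, ← Finset.prod_mul_distrib, ← Finset.prod_pow]
    refine Finset.prod_congr rfl fun θ _ => ?_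
    rw [← pow_add, Nat.add_sub_cancel' (hle _)]
  have hs0 : s ≠ 0 := Finset.prod_ne_zero_iff.2 fun θ _ => X_sub_C_ne_zero θ
  have hqr0 : q * r ≠ 0 := by rw [hqr]; exact pow_ne_zero 3 hs0
  have hr0 : r ≠ 0 := right_ne_zero_of_mul hqr0
  have hq0 : q ≠ 0 := left_ne_zero_of_mul hqr0
  have hrF : algebraMap k'[X] F r ≠ 0 := by simpa using hr0
  have hqF : algebraMap k'[X] F q ≠ 0 := by simpa using hq0
  have hsF : algebraMap k'[X] F s ≠ 0 := by simpa using hs0
  have hroot : ∀ θ ∈ Z, rootMultiplicity θ r = 3 - (p3 (pl θ) a0).val := by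
    intro θ hθ
    have h1 : r.roots = ∑ θ ∈ Z, (3 - (p3 (pl θ) a0).val) • {θ} := by
      rw [hr, roots_prod _ _ (by rw [← hr]; exact hr0)]
      rw [Multiset.bind, Multiset.join, ← Finset.sum_eq_multiset_sum]
      refine Finset.sum_congr rfl fun x _ => ?_
      rw [roots_pow, roots_X_sub_C]
    rw [← count_roots, h1, Multiset.count_sum']
    rw [Finset.sum_eq_single θ]
    · rw [Multiset.count_nsmul, Multiset.count_singleton_self, mul_one]
    · intro x _ hx
      rw [Multiset.count_nsmul, Multiset.count_singleton, if_neg (Ne.symm hx), mul_zero]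
    · intro h'
      exact absurd hθ h'
  have hall : ∀ v : HeightOneSpectrum k'[X], p3 v (a0 * algebraMap k'[X] F r) = 0 := by
    intro v
    rw [p3_mul v h0 hrF]
    by_cases hv : ∃ θ ∈ Z, v = pl θ
    · obtain ⟨θ, hθ, rfl⟩ := hv
      rw [p3_poly θ hr0, hroot θ hθ]
      have : ∀ x : ZMod 3, x + ((3 - x.val : ℕ) : ZMod 3) = 0 := by decide
      exact this _
    · push Not at hv
      rw [h v hv, zero_add, p3_eq_zero]
      have h4 : v.valuation F (algebraMap k'[X] F r) = 1 := by
        rw [v.valuation_of_algebraMap, HeightOneSpectrum.intValuation_eq_one_iff]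
        intro hmem
        rw [hr] at hmem
        obtain ⟨θ, hθ, hmem⟩ := (v.isPrime.prod_mem_iff).1 hmem
        have hmem' := v.isPrime.mem_of_pow_mem _ hmem
        apply hv θ hθ
        apply HeightOneSpectrum.ext
        have hle : (pl θ).asIdeal ≤ v.asIdeal := by
          show Ideal.span {X - C θ} ≤ v.asIdeal
          rw [Ideal.span_singleton_le_iff_mem]; exact hmem'
        exact ((pl θ).isMaximal.eq_of_le v.isPrime.ne_top hle).symm
      rw [h4, WithZero.log_one]
      exact dvd_zero _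
  obtain ⟨w, t, ht, e⟩ := cube_rep (R := k'[X]) (mul_ne_zero h0 hrF) hall
  obtain ⟨c, hc, hcw⟩ := Polynomial.isUnit_iff.1 w.isUnit
  haveI : NeZero ((3 : ℕ) : k') := ⟨by exact_mod_cast h3⟩
  obtain ⟨ρ, hρ⟩ := IsSepClosed.exists_pow_nat_eq c 3
  have hρ0 : ρ ≠ 0 := by
    rintro rfl
    rw [zero_pow three_ne_zero] at hρ
    exact hc.ne_zero hρ.symm
  have hρF : algebraMap k'[X] F (C ρ) ≠ 0 := by simpa using hρ0
  refine ⟨algebraMap k'[X] F (C ρ) * t / algebraMap k'[X] F s,
    div_ne_zero (mul_ne_zero hρF ht) hsF, ?_⟩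
  rw [← hcw, ← hρ, C_pow, map_pow] at e
  have e2 := congrArg (algebraMap k'[X] F) hqr
  rw [map_mul, map_pow] at e2
  apply mul_right_cancel₀ hrF
  rw [e, mul_assoc, e2]
  field_simp

end place

section galois

variable {k k' K F Ω : Type} [Field k] [Field k'] [Algebra k k']
  [Field K] [Field F] [Algebra k'[X] F]
  [IsFractionRing k'[X] F] [Field Ω] [Algebra F Ω] [Algebra K Ω]

theorem p3_galois (τ : Ω ≃ₐ[K] Ω) (s : k' ≃ₐ[k] k') (hs : ∀ p : k'[X],
    τ (algebraMap F Ω (algebraMap k'[X] F p)) =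
      algebraMap F Ω (algebraMap k'[X] F (p.map (s : k' →+* k')))) {x y : F} (hx : x ≠ 0)
    (hxy : τ (algebraMap F Ω x) = algebraMap F Ω y) (θ : k') :
    p3 (pl (s θ)) y = p3 (pl θ) x := by
  obtain ⟨n, d, hd, rfl⟩ := IsFractionRing.div_surjective (A := k'[X]) x
  have hd0 : d ≠ 0 := nonZeroDivisors.ne_zero hd
  have hn0 : n ≠ 0 := by
    rintro rfl
    simp at hx
  have hinj : Function.Injective (s : k' →+* k') := s.injective
  have hy : y = algebraMap k'[X] F (n.map (s : k' →+* k')) /
      algebraMap k'[X] F (d.map (s : k' →+* k')) := by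
    apply (algebraMap F Ω).injective
    rw [← hxy, map_div₀, map_div₀, hs, hs, map_div₀]
  have key : ∀ (θ : k') (n d : k'[X]), n ≠ 0 → d ≠ 0 →
      p3 (pl θ) (algebraMap k'[X] F n / algebraMap k'[X] F d) =
        (rootMultiplicity θ n : ZMod 3) - (rootMultiplicity θ d : ZMod 3) := by
    intro θ n d hn hd
    have hd' : algebraMap k'[X] F d ≠ 0 := by simpa using hd
    have hn' : algebraMap k'[X] F n ≠ 0 := by simpa using hn
    have e : algebraMap k'[X] F n =
        algebraMap k'[X] F n / algebraMap k'[X] F d * algebraMap k'[X] F d := by field_simp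
    have e2 := p3_poly (F := F) θ hn
    rw [e, p3_mul _ (div_ne_zero hn' hd') hd', p3_poly θ hd] at e2
    rw [← e2]; ring
  rw [hy, key _ _ _ ((Polynomial.map_ne_zero_iff hinj).2 hn0)
    ((Polynomial.map_ne_zero_iff hinj).2 hd0), key _ _ _ hn0 hd0]
  congr 2
  · exact (eq_rootMultiplicity_map hinj θ).symm
  · exact (eq_rootMultiplicity_map hinj θ).symm

end galois

end Pool.Agent.N181.T3
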