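import Pool.Agent.N181.T3.Inv
import Pool.Agent.N181.T3.Glob2

/-!
Points and classes modulo cubes; the points of the isogenous curve.
-/

set_option autoImplicit false
set_option linter.all false

open Polynomial IsDedekindDomain WeierstrassCurve WeierstrassCurve.Affine
open scoped Classical

namespace Pool.Agent.N181.T3

open Pool.Agent.TH115.GD (Pt act incl rs ak act_zero act_some act_inj act_act IsCoc LocTriv
  fixed_point exists_restrict rs_act_incl Preserves exists_conj)
open Pool.Agent.W309.TD (locConst_apply compare)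

universe u

section add

variable {K F Ω : Type u} [Field K] [Field F] [Field Ω] [Algebra K F] [Algebra F Ω] [Algebra K Ω]
  [IsScalarTower K F Ω] [IsGalois F Ω] [IsSepClosed Ω] {a b : K}
  (hE : IsE ((crv3 a b).baseChange Ω).toAffine (algebraMap K Ω a) (algebraMap K Ω b))

include hE

/-- The class of a point modulo cubes is additive. -/
theorem dd_add (P P' : Pt (crv3 a b) F) : ∃ u : F, u ≠ 0 ∧
    dd (algebraMap K F b) (P + P') =
      u ^ 3 * (dd (algebraMap K F b) P * dd (algebraMap K F b) P') := by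
  obtain ⟨H, hH⟩ := third hE (act (crv3 a b) (incl K F Ω) P)
  obtain ⟨H', hH'⟩ := third hE (act (crv3 a b) (incl K F Ω) P')
  have f1 : ∀ σ : Ω ≃ₐ[F] Ω, act (crv3 a b) (rs K σ) (H + H + H) = H + H + H := fun σ => by
    rw [hH]; exact rs_act_incl (crv3 a b) σ P
  have f2 : ∀ σ : Ω ≃ₐ[F] Ω, act (crv3 a b) (rs K σ) (H' + H' + H') = H' + H' + H' := fun σ => by
    rw [hH']; exact rs_act_incl (crv3 a b) σ P'
  have hHH : (H + H') + (H + H') + (H + H') = act (crv3 a b) (incl K F Ω) (P + P') := by
    rw [map_add, ← hH, ← hH']; abel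
  have f3 : ∀ σ : Ω ≃ₐ[F] Ω, act (crv3 a b) (rs K σ) ((H + H') + (H + H') + (H + H')) =
      (H + H') + (H + H') + (H + H') :=
    fun σ => by rw [hHH]; exact rs_act_incl (crv3 a b) σ _
  have gb : incl K F Ω (algebraMap K F b) = algebraMap K Ω b :=
    (IsScalarTower.algebraMap_apply K F Ω b).symm
  have split : ∀ σ : Ω ≃ₐ[F] Ω, act (crv3 a b) (rs K σ) (H + H') - (H + H') =
      (act (crv3 a b) (rs K σ) H - H) + (act (crv3 a b) (rs K σ) H' - H') := by
    intro σ; rw [map_add]; abel
  obtain ⟨u0, hu0, q0⟩ := compare (K := F) (hh_ne hE (H + H'))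
    (mul_ne_zero (hh_ne hE H) (hh_ne hE H'))
    (fun σ => wt (algebraMap K Ω b) (act (crv3 a b) (rs K σ) (H + H') - (H + H')))
    (fun σ => wt_ne hE (sgn0 hE f3 σ).1) (fun σ => (sgn0 hE f3 σ).2) (fun σ => by
      rw [map_mul, (sgn0 hE f1 σ).2, (sgn0 hE f2 σ).2, split,
        wt_add hE (sgn0 hE f1 σ).1 (sgn0 hE f2 σ).1]
      ring)
  refine ⟨u0, hu0, ?_⟩
  apply (algebraMap F Ω).injective
  have e := congrArg (fun x => x ^ 3) q0
  simp only [mul_pow, hh_cube hE, hHH, hH, hH'] at e
  rw [← gb, dd_act, dd_act, dd_act] at e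
  rw [map_mul, map_pow, map_mul]
  exact e

end add

section rep

variable {k k' K F : Type} [Field k] [Field k'] [Algebra k k'] [IsSepClosure k k']
  [Field K] [Algebra k[X] K] [IsFractionRing k[X] K] [Field F] [Algebra k'[X] F]
  [IsFractionRing k'[X] F] [Algebra K F]
  (hKF : ∀ p : k[X], algebraMap K F (algebraMap k[X] K p) =
    algebraMap k'[X] F (p.map (algebraMap k k')))
  (h3 : (3 : k) ≠ 0) {a b : K}
  (hE : IsE ((crv3 a b).baseChange (Pool.Agent.TH115.GD.Sep F)).toAffine
    (algebraMap K (Pool.Agent.TH115.GD.Sep F) a) (algebraMap K (Pool.Agent.TH115.GD.Sep F) b))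

/-- The polynomial `A` is equal, up to cubes of `F`, to the class of a point over `K` of the curve
`y ^ 2 + a x y + b y = x ^ 3`. -/
def RepBy (F : Type) [Field F] {K : Type} [Field K] [Algebra K F] {k : Type} [Field k]
    [Algebra k[X] K] (a b : K) (A : k[X]) : Prop :=
  ∃ (P : Pt (crv3 a b) K) (c : F), c ≠ 0 ∧
    algebraMap K F (algebraMap k[X] K A) = c ^ 3 * algebraMap K F (dd b P)

include hE in
omit [IsFractionRing k[X] K] in
theorem RepBy.mul {A B : k[X]} (hA : RepBy F a b A) (hB : RepBy F a b B) :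
    RepBy F a b (A * B) := by
  obtain ⟨P, c, hc, e⟩ := hA
  obtain ⟨P', c', hc', e'⟩ := hB
  obtain ⟨u, hu, q⟩ := dd_add (F := F) hE (act (crv3 a b) (incl K K F) P)
    (act (crv3 a b) (incl K K F) P')
  have hi : ∀ Q : Pt (crv3 a b) K, dd (algebraMap K F b) (act (crv3 a b) (incl K K F) Q) =
      algebraMap K F (dd b Q) := fun Q => dd_act (crv3 a b) (incl K K F) b Q
  rw [← map_add, hi, hi, hi] at q
  refine ⟨P + P', c * c' * u⁻¹, mul_ne_zero (mul_ne_zero hc hc') (inv_ne_zero hu), ?_⟩
  rw [map_mul, map_mul, e, e', q]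
  field_simp

include hKF h3 in
omit [IsFractionRing k[X] K] in
theorem RepBy.const {u : k} (hu : u ≠ 0) : RepBy F a b (C u : k[X]) := by
  haveI : IsSepClosed k' := IsSepClosure.sep_closed k
  have h3' : (3 : k') ≠ 0 := by
    rw [← map_ofNat (algebraMap k k') 3]
    exact (_root_.map_ne_zero _).2 h3
  obtain ⟨t, ht⟩ := exists_cb h3' (algebraMap k k' u)
  have ht0 : t ≠ 0 := by
    rintro rfl
    rw [zero_pow three_ne_zero] at ht
    exact (_root_.map_ne_zero _).2 hu ht.symm
  refine ⟨0, algebraMap k'[X] F (C t), by simpa using ht0, ?_⟩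
  rw [hKF, map_C, ← ht, C_pow, map_pow]
  show _ = _ * algebraMap K F 1
  rw [map_one, mul_one]

include hKF h3 hE in
omit [IsFractionRing k[X] K] in
theorem repBy_all {p : k[X]} (h : ∀ π : k[X], Irreducible π → π ∣ p → RepBy F a b π) :
    ∀ A : k[X], A ≠ 0 → (∀ π : k[X], Irreducible π → π ∣ A → π ∣ p) → RepBy F a b A := by
  intro A
  refine WfDvdMonoid.induction_on_irreducible A ?_ ?_ ?_
  · intro h
    exact absurd rfl h
  · intro u hu _ _
    obtain ⟨c, hc, rfl⟩ := Polynomial.isUnit_iff.1 hu
    exact RepBy.const hKF h3 hc.ne_zero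
  · intro q π hq hπ ih _ hd
    exact (h π hπ (hd π hπ (dvd_mul_right _ _))).mul hE
      (ih hq fun π' h1 h2 => hd π' h1 (h2.mul_left _))

end rep

section lift

variable {K Ω : Type u} [Field K] [Field Ω] [Algebra K Ω] [IsSepClosed Ω] {a b : K}
  (hE : IsE ((crv3 a b).baseChange Ω).toAffine (algebraMap K Ω a) (algebraMap K Ω b))
  {zK : K} (hzK : zK ^ 2 + zK + 1 = 0)

theorem Co.ext' {F : Type*} [Field F] {W : Affine F} {a b z u v w u' v' w' : F} {P Q : W.Point}
    (h : IsE W a b) (hz : z ^ 2 + z + 1 = 0)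
    (hP : Co a b P u v w) (hQ : Co a b Q u' v' w') (h1 : ra z u v w = ra z u' v' w')
    (h2 : rb z u v w = rb z u' v' w') : P = Q := by
  obtain ⟨e1, e2, e3⟩ := of_res hz u v w
  obtain ⟨f1, f2, f3⟩ := of_res hz u' v' w'
  rw [hP.sum, h1, h2] at e1 e2 e3
  rw [hQ.sum] at f1 f2 f3
  have hu : u = u' := mul_left_cancel₀ h.three (e1.trans f1.symm)
  have hv : v = v' := mul_left_cancel₀ h.three (e2.trans f2.symm)
  have hw : w = w' := mul_left_cancel₀ h.three (e3.trans f3.symm)
  rw [hu, hv, hw] at hP
  exact hP.ext hQ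

theorem Co.map_pt {K Ω Ω' : Type u} [Field K] [Field Ω] [Field Ω'] [Algebra K Ω] [Algebra K Ω']
    {a b : K} {u v w : Ω} (φ : Ω →ₐ[K] Ω') {P : Pt (crv3 a b) Ω}
    (hP : Co (algebraMap K Ω a) (algebraMap K Ω b) P u v w) :
    Co (algebraMap K Ω' a) (algebraMap K Ω' b) (act (crv3 a b) φ P) (φ u) (φ v) (φ w) := by
  refine ⟨?_, ?_, ?_⟩
  · rw [← map_add, ← map_add, hP.sum, φ.commutes]
  · rw [← map_mul, ← map_mul, hP.prod, φ.commutes]
  · obtain ⟨h, rfl⟩ := hP.eq
    obtain ⟨h', hh⟩ := act_some (crv3 a b) φ h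
    rw [hh]
    have e1 : φ (-(u * w)) = -(φ u * φ w) := by rw [map_neg, map_mul]
    have e2 : φ (u ^ 2 * w) = φ u ^ 2 * φ w := by rw [map_mul, map_pow]
    have h'' : ((crv3 a b).baseChange Ω').toAffine.Nonsingular (-(φ u * φ w)) (φ u ^ 2 * φ w) := by
      rw [← e1, ← e2]; exact h'
    exact ⟨h'', by simp only [e1, e2]⟩

include hE hzK

/-- A point of the isogenous curve `y ^ 2 + 3 a x y + (a ^ 3 - 27 b) y = x ^ 3` over `K` comes from a
point `H` over `Ω` whose conjugates differ from `H` by multiples of `(0, 0)`. -/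
theorem lift2 (P' : Pt (crv3 (3 * a) (a ^ 3 - 27 * b)) K) :
    ∃ (H : Pt (crv3 a b) Ω) (t : Ω), t ≠ 0 ∧
      t ^ 3 = algebraMap K Ω (dd (a ^ 3 - 27 * b) P') ∧
      ∀ φ : Ω →ₐ[K] Ω, InT hE (act (crv3 a b) φ H - H) ∧
        φ t = he (algebraMap K Ω zK) (algebraMap K Ω b) (act (crv3 a b) φ H - H) * t := by
  set z := algebraMap K Ω zK with hzdef
  have hz : z ^ 2 + z + 1 = 0 := by
    rw [hzdef, ← map_pow, ← map_add, ← map_one (algebraMap K Ω), ← map_add, hzK, map_zero]
  have hz3 := z3 hz
  have hφz : ∀ φ : Ω →ₐ[K] Ω, φ z = z := fun φ => φ.commutes zK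
  have hΔ : algebraMap K Ω (a ^ 3 - 27 * b) = algebraMap K Ω a ^ 3 - 27 * algebraMap K Ω b := by
    rw [map_sub, map_pow, map_mul, map_ofNat]
  rcases P' with _ | ⟨x, y, hxy⟩
  · refine ⟨0, 1, one_ne_zero, ?_, fun φ => ?_⟩
    · rw [one_pow]; exact (map_one _).symm
    · rw [map_zero, sub_zero]
      refine ⟨Or.inl rfl, ?_⟩
      rw [map_one, he_zero, one_mul]
  · have heq : y ^ 2 + 3 * a * x * y + (a ^ 3 - 27 * b) * y = x ^ 3 := by
      have h1 := hxy.1
      rw [Affine.equation_iff] at h1
      have e1 : ((crv3 (3 * a) (a ^ 3 - 27 * b)).baseChange K).toAffine.a₁ = 3 * a := rfl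
      have e2 : ((crv3 (3 * a) (a ^ 3 - 27 * b)).baseChange K).toAffine.a₂ = 0 := map_zero _
      have e3 : ((crv3 (3 * a) (a ^ 3 - 27 * b)).baseChange K).toAffine.a₃ = a ^ 3 - 27 * b := rfl
      have e4 : ((crv3 (3 * a) (a ^ 3 - 27 * b)).baseChange K).toAffine.a₄ = 0 := map_zero _
      have e6 : ((crv3 (3 * a) (a ^ 3 - 27 * b)).baseChange K).toAffine.a₆ = 0 := map_zero _
      rw [e1, e2, e3, e4, e6] at h1
      linear_combination h1
    by_cases hy : y = 0
    · -- the point `(0, 0)`
      obtain ⟨S, hS3, hSw, hSn⟩ := exists_S hE hz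
      obtain ⟨-, hcube, hne⟩ := tor_val hE hS3 hSn
      rw [hSw] at hcube hne
      have hcob : ∀ φ : Ω →ₐ[K] Ω, InT hE (act (crv3 a b) φ S - S) := by
        intro φ
        have h1 : act (crv3 a b) φ S + act (crv3 a b) φ S + act (crv3 a b) φ S = 0 :=
          (three_act _ _ _).2 hS3
        have h3 : (act (crv3 a b) φ S - S) + (act (crv3 a b) φ S - S) +
            (act (crv3 a b) φ S - S) = 0 := by
          calc _ = (act (crv3 a b) φ S + act (crv3 a b) φ S +
                act (crv3 a b) φ S) - (S + S + S) := by abel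
            _ = 0 := by rw [h1, hS3, sub_zero]
        apply wt_one hE h3
        have h4 := wt_add hE h3 hS3
        have h5 := wt_act (crv3 a b) φ (algebraMap K Ω b) S
        rw [φ.commutes] at h5
        rw [sub_add_cancel, h5, hSw, hφz] at h4
        exact mul_right_cancel₀ (z_ne hz) (by rw [one_mul]; exact h4.symm)
      refine ⟨-S, (-(he z (algebraMap K Ω b) S))⁻¹, inv_ne_zero (neg_ne_zero.2 hne), ?_,
        fun φ => ?_⟩
      · simp only [dd, hy, if_true]
        rw [map_inv₀, inv_pow]
        congr 1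
        have e : (-(he z (algebraMap K Ω b) S)) ^ 3 = -(he z (algebraMap K Ω b) S ^ 3) := by ring
        rw [e, hcube, neg_neg]
      · have e1 : act (crv3 a b) φ (-S) - -S = -(act (crv3 a b) φ S - S) := by
          rw [map_neg]; abel
        rw [e1]
        refine ⟨(hcob φ).neg hE, ?_⟩
        have h6 := he_rs hE hz (hφz φ) (hcob φ)
        rw [map_inv₀, map_neg, h6]
        have h7 := he_add hE hz (act (crv3 a b) φ S - S) ((hcob φ).neg hE)
        rw [add_neg_cancel, he_zero] at h7
        have h8 := he_ne hE hz (act (crv3 a b) φ S - S)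
        field_simp
        linear_combination -h7
    · obtain ⟨B, hB⟩ := exists_cb hE.three (algebraMap K Ω y)
      have hyΩ : algebraMap K Ω y ≠ 0 := (_root_.map_ne_zero _).2 hy
      have hB0 : B ≠ 0 := by
        rintro rfl
        apply hyΩ
        rw [← hB]; ring
      obtain ⟨u, v, w, hs, h0, h1⟩ := exists_res hz hE.three (algebraMap K Ω a)
        (-(algebraMap K Ω x) / B) B
      have h27 : (27 : Ω) ≠ 0 := by
        have : (27 : Ω) = 3 ^ 3 := by norm_num
        rw [this]; exact pow_ne_zero 3 hE.three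
      have heqΩ := congrArg (algebraMap K Ω) heq
      simp only [map_add, map_mul, map_pow, map_ofNat, hΔ] at heqΩ
      have hprod : u * v * w = algebraMap K Ω b := by
        apply mul_left_cancel₀ h27
        rw [← prod_res hz, hs, h0, h1]
        have e1 : (-(algebraMap K Ω x) / B) ^ 3 = -(algebraMap K Ω x ^ 3) / algebraMap K Ω y := by
          rw [div_pow, hB]; congr 1; ring
        have e2 : -(algebraMap K Ω x) / B * B = -(algebraMap K Ω x) := div_mul_cancel₀ _ hB0
        rw [e1, e2, hB, ← heqΩ]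
        field_simp
        ring
      obtain ⟨H, hH⟩ := hE.co hs hprod
      have hheH : he z (algebraMap K Ω b) H = B := by
        rw [hH.he hE, h1, if_neg hB0]
      have hIn : ∀ φ : Ω →ₐ[K] Ω, InT hE (act (crv3 a b) φ H - H) := by
        intro φ
        have hφ3 : (φ B / B) ^ 3 = 1 := by
          rw [div_pow, ← map_pow, hB, φ.commutes, div_self hyΩ]
        have hφH := hH.map_pt φ
        have m1 : ra z (φ u) (φ v) (φ w) = φ (ra z u v w) := by
          have := ra_map φ z u v w
          rwa [hφz] at this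
        have m2 : rb z (φ u) (φ v) (φ w) = φ (rb z u v w) := by
          have := rb_map φ z u v w
          rwa [hφz] at this
        rw [h0, map_div₀, map_neg, φ.commutes] at m1
        rw [h1] at m2
        have e1' : ra z v w u = z ^ 2 * ra z u v w := by
          rw [← ra_cyc hz u v w]
          linear_combination -(ra z v w u) * hz3
        have e2' : rb z v w u = z * rb z u v w := by
          rw [← rb_cyc hz u v w]
          linear_combination -(rb z v w u) * hz3
        have e3' : ra z w u v = z * ra z u v w := by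
          have := ra_cyc hz w u v
          linear_combination (-1 : Ω) * this
        have e4' : rb z w u v = z ^ 2 * rb z u v w := by
          have := rb_cyc hz w u v
          linear_combination (-1 : Ω) * this
        have hz0 := z_ne hz
        rcases cube_cases hz hφ3 with h | h | h
        · have hB' : φ B = B := by rw [div_eq_iff hB0] at h; rw [h, one_mul]
          have : act (crv3 a b) φ H = H := by
            refine Co.ext' hE hz hφH hH ?_ ?_
            · rw [m1, h0, hB']
            · rw [m2, h1, hB']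
          rw [this, sub_self]
          exact Or.inl rfl
        · have hB' : φ B = z * B := by rw [div_eq_iff hB0] at h; rw [h]
          have : act (crv3 a b) φ H = H + ptT hE := by
            refine Co.ext' hE hz hφH (hH.addT hE) ?_ ?_
            · rw [m1, e1', h0, hB']
              field_simp
              linear_combination (algebraMap K Ω x) * hz3
            · rw [m2, e2', h1, hB']
          rw [this, add_sub_cancel_left]
          exact Or.inr (Or.inl rfl)
        · have hB' : φ B = z ^ 2 * B := by rw [div_eq_iff hB0] at h; rw [h]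
          have : act (crv3 a b) φ H = H - ptT hE := by
            refine Co.ext' hE hz hφH (hH.subT hE) ?_ ?_
            · rw [m1, e3', h0, hB']
              field_simp
              linear_combination (algebraMap K Ω x) * hz3
            · rw [m2, e4', h1, hB']
          have e5 : act (crv3 a b) φ H - H = -(ptT hE) := by rw [this]; abel
          rw [e5]
          exact Or.inr (Or.inr rfl)
      refine ⟨H, B, hB0, ?_, fun φ => ⟨hIn φ, ?_⟩⟩
      · simp only [dd, hy, if_false]
        exact hB
      · have := he_rs hE hz (hφz φ) (hIn φ)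
        rw [hheH] at this
        exact this

end lift

end Pool.Agent.N181.T3
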