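import Pool.Agent.N181.T3.Triple

/-!
Lagrange resolvents of the coordinates `u`, `v`, `w` and translation by points of order three.
-/

set_option autoImplicit false
set_option linter.all false

open WeierstrassCurve WeierstrassCurve.Affine

namespace Pool.Agent.N181.T3

section poly

variable {F : Type*} [Field F]

/-- The first resolvent. -/
def ra (z u v w : F) : F := u + z * v + z ^ 2 * w

/-- The second resolvent. -/
def rb (z u v w : F) : F := u + z ^ 2 * v + z * w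

variable {z : F} (hz : z ^ 2 + z + 1 = 0) (u v w : F)

include hz

theorem z3 : z ^ 3 = 1 := by linear_combination (z - 1) * hz

theorem z_ne : z ≠ 0 := by
  rintro rfl
  have : (1 : F) = 0 := by linear_combination hz
  exact one_ne_zero this

theorem z_ne_one (h3 : (3 : F) ≠ 0) : z ≠ 1 := by
  rintro rfl
  exact h3 (by linear_combination hz)

theorem z_sq : (z ^ 2) ^ 2 + z ^ 2 + 1 = 0 := by linear_combination (z ^ 2 - z + 1) * hz

theorem ra_sq : ra (z ^ 2) u v w = rb z u v w := by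
  unfold ra rb; linear_combination (z ^ 2 - z) * w * hz

theorem rb_sq : rb (z ^ 2) u v w = ra z u v w := by
  unfold ra rb; linear_combination (z ^ 2 - z) * v * hz

theorem ra_mul_rb : ra z u v w * rb z u v w = qq u v w := by
  unfold ra rb qq
  linear_combination (v * w * z ^ 2 - v * w * z + v ^ 2 * z + w ^ 2 * z + u * v + u * w + v * w - v ^ 2 - w ^ 2) * hz

theorem prod_res : (u + v + w) ^ 3 + ra z u v w ^ 3 + rb z u v w ^ 3 -
    3 * (u + v + w) * (ra z u v w * rb z u v w) = 27 * (u * v * w) := by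
  unfold ra rb
  linear_combination (v ^ 3 * z ^ 4 + w ^ 3 * z ^ 4 + 3 * v * w ^ 2 * z ^ 3 + 3 * v ^ 2 * w * z ^ 3 - v ^ 3 * z ^ 3 - w ^ 3 * z ^ 3 - 3 * u * v * w * z ^ 2 + 3 * u * v ^ 2 * z ^ 2 + 3 * u * w ^ 2 * z ^ 2 - 3 * v * w ^ 2 * z ^ 2 - 3 * v ^ 2 * w * z ^ 2 + 15 * u * v * w * z - 6 * u * v ^ 2 * z - 6 * u * w ^ 2 * z - 3 * v * w ^ 2 * z - 3 * v ^ 2 * w * z - v ^ 3 * z - w ^ 3 * z - 21 * u * v * w + 3 * u * v ^ 2 + 3 * u * w ^ 2 + 3 * v * w ^ 2 + 3 * v ^ 2 * w + v ^ 3 + w ^ 3) * hz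

theorem num_gg : 9 * (u ^ 2 * w + v ^ 2 * u + w ^ 2 * v - 3 * (u * v * w)) =
    -(1 - z) * ra z u v w ^ 3 - (1 - z ^ 2) * rb z u v w ^ 3 +
      3 * (u + v + w) * (ra z u v w * rb z u v w) := by
  unfold ra rb
  linear_combination -(v ^ 3 * z ^ 6 + 3 * v ^ 2 * w * z ^ 5 - v ^ 3 * z ^ 5 + w ^ 3 * z ^ 5 + 3 * u * v ^ 2 * z ^ 4 + 6 * v * w ^ 2 * z ^ 4 - 3 * v ^ 2 * w * z ^ 4 - v ^ 3 * z ^ 4 - 2 * w ^ 3 * z ^ 4 + 6 * u * v * w * z ^ 3 - 3 * u * v ^ 2 * z ^ 3 + 3 * u * w ^ 2 * z ^ 3 - 9 * v * w ^ 2 * z ^ 3 + 2 * v ^ 3 * z ^ 3 + 2 * w ^ 3 * z ^ 3 + 3 * u * v * w * z ^ 2 - 3 * u * v ^ 2 * z ^ 2 - 3 * u * w ^ 2 * z ^ 2 + 3 * u ^ 2 * v * z ^ 2 + 3 * v * w ^ 2 * z ^ 2 + 3 * v ^ 2 * w * z ^ 2 - 21 * u * v * w * z + 12 * u * v ^ 2 * z + 3 * u * w ^ 2 * z - 3 * u ^ 2 * v * z + 6 * u ^ 2 * w * z + 9 * v * w ^ 2 * z + 27 * u * v * w - 9 * u * v ^ 2 + 3 * u ^ 2 * v - 6 * u ^ 2 * w +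 u ^ 3 - 9 * v * w ^ 2) * hz

theorem num_gt : 9 * (u ^ 2 * v + v ^ 2 * w + w ^ 2 * u - 3 * (u * v * w)) =
    -(1 - z) * rb z u v w ^ 3 - (1 - z ^ 2) * ra z u v w ^ 3 +
      3 * (u + v + w) * (ra z u v w * rb z u v w) := by
  unfold ra rb
  linear_combination -(w ^ 3 * z ^ 6 + 3 * v * w ^ 2 * z ^ 5 + v ^ 3 * z ^ 5 - w ^ 3 * z ^ 5 + 3 * u * w ^ 2 * z ^ 4 - 3 * v * w ^ 2 * z ^ 4 + 6 * v ^ 2 * w * z ^ 4 - 2 * v ^ 3 * z ^ 4 - w ^ 3 * z ^ 4 + 6 * u * v * w * z ^ 3 + 3 * u * v ^ 2 * z ^ 3 - 3 * u * w ^ 2 * z ^ 3 - 9 * v ^ 2 * w * z ^ 3 + 2 * v ^ 3 * z ^ 3 + 2 * w ^ 3 * z ^ 3 + 3 * u * v * w * z ^ 2 - 3 * u * v ^ 2 * z ^ 2 - 3 * u * w ^ 2 * z ^ 2 + 3 * u ^ 2 * w * z ^ 2 + 3 * v * w ^ 2 * z ^ 2 + 3 * v ^ 2 * w * z ^ 2 - 21 * u * v * w * z + 3 * u * v ^ 2 * z + 12 * u * w ^ 2 * z + 6 * u ^ 2 * v * z - 3 * u ^ 2 * w * z + 9 * v ^ 2 * w * z + 27 * u * v * w - 9 * u * w ^ 2 - 6 *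 u ^ 2 * v + 3 * u ^ 2 * w + u ^ 3 - 9 * v ^ 2 * w) * hz

theorem ra_cyc : z * ra z v w u = ra z u v w := by
  unfold ra
  linear_combination (u * z - u) * hz

theorem rb_cyc : z ^ 2 * rb z v w u = rb z u v w := by
  unfold rb
  linear_combination (w * z ^ 2 + u * z - w * z - u) * hz

omit hz in
/-- The resolvents of the reversed coordinates. -/
theorem ra_rev (hz : z ^ 2 + z + 1 = 0) : ra z w v u = z ^ 2 * rb z u v w := by
  unfold ra rb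
  linear_combination (-v * z ^ 2 + v * z - w * z + w) * hz

/-- Coordinates with given resolvents. -/
theorem exists_res (h3 : (3 : F) ≠ 0) (s A B : F) : ∃ u v w : F, u + v + w = s ∧
    ra z u v w = A ∧ rb z u v w = B := by
  refine ⟨(s + A + B) / 3, (s + z ^ 2 * A + z * B) / 3, (s + z * A + z ^ 2 * B) / 3, ?_, ?_, ?_⟩
  · field_simp
    linear_combination (A + B) * hz
  · unfold ra
    field_simp
    linear_combination (s + 2 * A * (z - 1) + B * (z ^ 2 - z + 1)) * hz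
  · unfold rb
    field_simp
    linear_combination (s + A * (z ^ 2 - z + 1) + 2 * B * (z - 1)) * hz

/-- The coordinates from the resolvents. -/
theorem of_res : 3 * u = (u + v + w) + ra z u v w + rb z u v w ∧
    3 * v = (u + v + w) + z ^ 2 * ra z u v w + z * rb z u v w ∧
    3 * w = (u + v + w) + z * ra z u v w + z ^ 2 * rb z u v w := by
  unfold ra rb
  refine ⟨?_, ?_, ?_⟩
  · linear_combination -(v + w) * hz
  · linear_combination -(w * z ^ 2 + 2 * v * z - w * z + u - 2 * v + w) * hz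
  · linear_combination -(v * z ^ 2 - v * z + 2 * w * z + u + v - 2 * w) * hz

end poly

end Pool.Agent.N181.T3
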