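import Pool.Agent.N181.T3.Sel
import Pool.Agent.N181.T3.InfPl

/-!
The Tate conjecture at 3 for elliptic surfaces with a section of order three.
-/

set_option autoImplicit false
set_option linter.all false

open Polynomial IsDedekindDomain WeierstrassCurve WeierstrassCurve.Affine
open scoped Classical

namespace Pool.Agent.N181.T3

open Pool.Agent.TH115.GD (Pt act incl rs ak act_zero act_some act_inj act_act IsCoc LocTriv
  fixed_point exists_restrict rs_act_incl Preserves exists_conj IsTower LocallyTrivial Sep Comp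
  wFin lt_subT cob_isCoc sepKΩ preserves CompInf vInf)

section main

variable {k k' K F : Type} [Field k] [Field k'] [Algebra k k'] [Field K] [Algebra k[X] K]
    [Field F] [Algebra k'[X] F] [IsFractionRing k'[X] F] [Algebra K F]

/-- **The invariant classes of the Selmer group for multiplication by three.** -/
theorem sel3i (hT : IsTower k k' K F) (h3 : (3 : k) ≠ 0) {a b : k[X]} (hb : b ≠ 0)
    (hd : a ^ 3 - 27 * b ≠ 0) {n : ℕ} (han : a.natDegree ≤ n)
    (hsep : ∀ π : k[X], Irreducible π → π ∣ b * (a ^ 3 - 27 * b) → π.Separable)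
    (hst : ∀ π : k[X], Irreducible π → π ∣ b * (a ^ 3 - 27 * b) → Stays k' π)
    (hcb : ∀ (u : k) (q : k[X]), b ≠ C u * q ^ 3)
    (hcd : ∀ (u : k) (q : k[X]), a ^ 3 - 27 * b ≠ C u * q ^ 3)
    {aK bK : K} (haK : aK = algebraMap k[X] K a) (hbK : bK = algebraMap k[X] K b)
    {GA GB : Pt (crv3 aK bK) K → Prop} (GB0 : GB 0)
    (oA : ∀ A : k[X], A ≠ 0 → (∀ π : k[X], Irreducible π → π ∣ A → π ∣ b) →
      (b.natDegree = 3 * n → 3 ∣ A.natDegree) →
      ∃ (P : Pt (crv3 aK bK) K) (c : F), GA P ∧ c ≠ 0 ∧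
        algebraMap K F (algebraMap k[X] K A) =
          c ^ 3 * algebraMap K F (dd bK P))
    (oB : (∀ x : k, x ^ 2 + x + 1 ≠ 0) ∨ ∀ zK : K, zK ^ 2 + zK + 1 = 0 → ∀ B : k[X], B ≠ 0 →
      (∀ π : k[X], Irreducible π → π ∣ B → π ∣ a ^ 3 - 27 * b) →
      ((a ^ 3 - 27 * b).natDegree = 3 * n → 3 ∣ B.natDegree) →
      HPt F aK bK zK GB B)
    : ∀ f : (Sep F ≃ₐ[F] Sep F) → Pt (crv3 aK bK) (Sep F),
    IsCoc (crv3 aK bK) f →
    (∀ σ, f σ + f σ + f σ = 0) →
    LocallyTrivial k' (crv3 aK bK) f →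
    InvOne3 (crv3 aK bK) f →
    ∃ (P Q : Pt (crv3 aK bK) K)
      (H : Pt (crv3 aK bK) (Sep F)), GA P ∧ GB Q ∧
      3 • H = act (crv3 aK bK) (incl K K (Sep F)) (P + Q) ∧
      ∀ σ, f σ = act (crv3 aK bK) (rs K σ) H - H := by
  haveI := hT.sep
  haveI := hT.fracK
  have hKF := hT.map
  have injK := IsFractionRing.injective k[X] K
  haveI : IsSepClosed k' := IsSepClosure.sep_closed k
  haveI : IsGalois k k' := inferInstance
  have h3X : (3 : k[X]) ≠ 0 := by
    have : (3 : k[X]) = C 3 := by rw [map_ofNat]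
    rw [this]
    exact C_ne_zero.2 h3
  have h3K : (3 : K) ≠ 0 := by
    rw [← map_ofNat (algebraMap k[X] K) 3]
    intro h
    exact h3X (injK (by rw [h, map_zero]))
  have h3' : (3 : k') ≠ 0 := by
    rw [← map_ofNat (algebraMap k k') 3]
    exact (_root_.map_ne_zero _).2 h3
  have hbK0 : bK ≠ 0 := by rw [hbK]; simpa using hb
  have hdK : algebraMap k[X] K (a ^ 3 - 27 * b) = aK ^ 3 - 27 * bK := by
    rw [haK, hbK, map_sub, map_mul, map_pow, map_ofNat]
  have h3a : algebraMap k[X] K (3 * a) = 3 * aK := by rw [haK, map_mul, map_ofNat]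
  have hdK0 : aK ^ 3 - 27 * bK ≠ 0 := by
    rw [← hdK]
    intro h
    apply hd
    apply injK
    rw [h, map_zero]
  have hsb : ∀ π : k[X], Irreducible π → π ∣ b → π.Separable :=
    fun π h h' => hsep π h (h'.mul_right _)
  have hsd : ∀ π : k[X], Irreducible π → π ∣ a ^ 3 - 27 * b → π.Separable :=
    fun π h h' => hsep π h (h'.mul_left _)
  have htb : ∀ π : k[X], Irreducible π → π ∣ b → Stays k' π :=
    fun π h h' => hst π h (h'.mul_right _)
  have htd : ∀ π : k[X], Irreducible π → π ∣ a ^ 3 - 27 * b → Stays k' π :=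
    fun π h h' => hst π h (h'.mul_left _)
  have hE := isE (a := aK) (b := bK) h3K hbK0 hdK0 (Sep F)
  have hbs : ∀ g : F, g ^ 3 ≠ algebraMap K F bK := by
    rw [hbK]
    exact not_cube hKF h3 hb hsb hcb
  have hds : ∀ g : F, g ^ 3 ≠ algebraMap K F (aK ^ 3 - 27 * bK) := by
    rw [← hdK]
    exact not_cube hKF h3 hd hsd hcd
  haveI : IsSepClosure K (Sep F) := sepKΩ hKF
  haveI : Algebra.IsSeparable K (Sep F) := IsSepClosure.separable
  haveI : IsGalois K (Sep F) := inferInstance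
  have hpres : Preserves K F (Sep F) := preserves hKF
  -- the cube root of unity
  obtain ⟨zk, hzk⟩ := exists_z (F := k') h3'
  set zF : F := algebraMap k'[X] F (C zk) with hzFdef
  set z : Sep F := algebraMap F (Sep F) zF with hzdef
  have hz : z ^ 2 + z + 1 = 0 := by
    rw [hzdef, hzFdef, ← map_pow, ← map_add, ← map_pow, ← map_add, ← C_pow, ← C_add,
      ← map_one (algebraMap F (Sep F)), ← map_add, ← map_one (algebraMap k'[X] F), ← map_add,
      ← C_1, ← C_add, hzk, C_0, map_zero, map_zero]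
  have hz3 := z3 hz
  have hzσ : ∀ σ : Sep F ≃ₐ[F] Sep F, σ z = z := fun σ => σ.commutes zF
  have e3 : ∀ H : Pt (crv3 aK bK) (Sep F), 3 • H = H + H + H := by
    intro H
    rw [show (3 : ℕ) = 1 + 1 + 1 from rfl, add_smul, add_smul, one_smul]
  intro f hfc hf3 hfl hi0
  -- valuations
  have vle : ∀ (v : HeightOneSpectrum k'[X]) (p : k[X]),
      v.valuation F (algebraMap K F (algebraMap k[X] K p)) ≤ 1 := by
    intro v p
    rw [hKF]
    exact v.valuation_le_one _
  have vone : ∀ (v : HeightOneSpectrum k'[X]) (p : k[X]),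
      p.map (algebraMap k k') ∉ v.asIdeal →
      v.valuation F (algebraMap K F (algebraMap k[X] K p)) = 1 := by
    intro v p hp
    rw [hKF, v.valuation_of_algebraMap, HeightOneSpectrum.intValuation_eq_one_iff]
    exact hp
  -- transfer of the local conditions
  have tr : ∀ (v : HeightOneSpectrum k'[X]) (p q : k[X]) (d : F),
      q.map (algebraMap k k') ∉ v.asIdeal →
      LocC (algebraMap K (Comp k'[X] F v) (algebraMap k[X] K p))
        (algebraMap K (Comp k'[X] F v) (algebraMap k[X] K q))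
        (algebraMap F (Comp k'[X] F v) d) → p3 v d = 0 := by
    intro v p q d hq h
    have h1 := locC_val (Valued.v (R := v.adicCompletion F) (Γ₀ := WithZero (Multiplicative ℤ)))
      (a := algebraMap K (Comp k'[X] F v) (algebraMap k[X] K p))
      (b := algebraMap K (Comp k'[X] F v) (algebraMap k[X] K q))
      (d := algebraMap F (Comp k'[X] F v) d) (by
        rw [IsScalarTower.algebraMap_apply K F (Comp k'[X] F v)]
        exact (wFin v _).le.trans (vle v p)) (by
        rw [IsScalarTower.algebraMap_apply K F (Comp k'[X] F v)]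
        exact (wFin v _).trans (vone v q hq)) h
    rw [wFin v d] at h1
    exact p3_eq_zero.2 h1
  -- the first step
  obtain ⟨t0, a0, n0, e0, k0⟩ := kum0 hE hz hzσ hfc hf3
  have ha0 : a0 ≠ 0 := by
    rintro rfl
    rw [map_zero] at e0
    exact pow_ne_zero 3 n0 e0
  obtain ⟨A, hA0, hA1, cA, hcA, rA⟩ := glob_A (Ω := Sep F) hKF h3 hb hsb htb ha0
    (fun v hv => tr v a b a0 hv (by
      rw [← haK, ← hbK]
      exact loc0 hE (isE h3K hbK0 hdK0 (Sep (Comp k'[X] F v))) hf3 (hfl.1 v) n0 e0 k0))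
    (fun τ => by
      obtain ⟨u, j, hu, h⟩ := inv0 hE hz hzσ hbs hds hpres hf3 hi0 n0 e0 k0 τ
      exact ⟨u, 1, j, hu, Or.inl rfl, by rw [pow_one, ← hbK]; exact h⟩)
  obtain ⟨PA, uA, gA, huA, sA⟩ := oA A hA0 hA1 (fun hbn => by
    refine deg_of_inf hKF hA0 hcA rA (trInf hKF han hb hbn ?_)
    rw [← haK, ← hbK]
    exact loc0 hE (isE h3K hbK0 hdK0 (Sep (CompInf k' F))) hf3 hfl.2 n0 e0 k0)
  obtain ⟨HA, hHA⟩ := third hE (act (crv3 aK bK) (incl K K (Sep F)) PA)
  have PK : ∀ φ : Sep F →ₐ[K] Sep F, act (crv3 aK bK) φ (act (crv3 aK bK) (incl K K (Sep F)) PA) =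
      act (crv3 aK bK) (incl K K (Sep F)) PA := by
    intro φ
    have h1 : φ.comp (incl K K (Sep F)) = incl K K (Sep F) := AlgHom.ext fun x => φ.commutes x
    rw [act_act, h1]
  have hf1 : ∀ σ, InT hE (f σ - (act (crv3 aK bK) (rs K σ) HA - HA)) := by
    refine stp0 hE hz hzσ hf3 n0 k0 (fun σ => by rw [hHA]; exact PK _) (c0 := cA * uA) ?_
    rw [hHA]
    have h5 : dd (algebraMap K (Sep F) bK) (act (crv3 aK bK) (incl K K (Sep F)) PA) =
        algebraMap K (Sep F) (dd bK PA) := dd_act (crv3 aK bK) (incl K K (Sep F)) bK PA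
    rw [h5, e0, rA, sA, IsScalarTower.algebraMap_apply K F (Sep F)]
    simp only [map_mul, map_pow]
    ring
  -- the second step
  set f1 : (Sep F ≃ₐ[F] Sep F) → Pt (crv3 aK bK) (Sep F) :=
    fun σ => f σ - (act (crv3 aK bK) (rs K σ) HA - HA) with hf1def
  have hf1c : IsCoc (crv3 aK bK) f1 := hfc.sub _ (cob_isCoc _ _)
  have hf1l : LocallyTrivial k' (crv3 aK bK) f1 := lt_subT hfl HA
  obtain ⟨t1, a1, n1, e1, k1⟩ := kum1 hE hz hzσ hf1c hf1
  have ha1 : a1 ≠ 0 := by
    rintro rfl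
    rw [map_zero] at e1
    exact pow_ne_zero 3 n1 e1
  have hi1 : InvOne3 (crv3 aK bK) f1 := by
    intro τ
    obtain ⟨R, ⟨m, hm⟩, hrel⟩ := hi0 τ
    have h3H : 3 • (act (crv3 aK bK) (ak τ) HA - HA) = 0 := by
      rw [smul_sub, ← map_nsmul, e3, hHA, PK, sub_self]
    refine ⟨R - (act (crv3 aK bK) (ak τ) HA - HA), ⟨m + 1, ?_⟩, fun σ σ' h => ?_⟩
    · rw [smul_sub]
      have h5 : 3 ^ (m + 1) • R = 0 := by rw [pow_succ', mul_smul, hm, smul_zero]
      have h6 : 3 ^ (m + 1) • (act (crv3 aK bK) (ak τ) HA - HA) = 0 := by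
        rw [pow_succ, mul_smul, h3H, smul_zero]
      rw [h5, h6, sub_zero]
    · have h1 := hrel σ σ' h
      have hcomp : act (crv3 aK bK) (ak τ) (act (crv3 aK bK) (rs K σ') HA) =
          act (crv3 aK bK) (rs K σ) (act (crv3 aK bK) (ak τ) HA) := by
        have h5 : (ak τ).comp (rs K σ') = (rs K σ).comp (ak τ) := AlgHom.ext fun x => h x
        rw [act_act, act_act, h5]
      show act (crv3 aK bK) (ak τ) (f σ' - (act (crv3 aK bK) (rs K σ') HA - HA)) -
        (f σ - (act (crv3 aK bK) (rs K σ) HA - HA)) =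
        act (crv3 aK bK) (rs K σ) (R - (act (crv3 aK bK) (ak τ) HA - HA)) -
          (R - (act (crv3 aK bK) (ak τ) HA - HA))
      rw [map_sub (act (crv3 aK bK) (ak τ)), map_sub (act (crv3 aK bK) (ak τ)), hcomp,
        map_sub (act (crv3 aK bK) (rs K σ)) R, map_sub (act (crv3 aK bK) (rs K σ))]
      have h6 : act (crv3 aK bK) (ak τ) (f σ') = f σ + (act (crv3 aK bK) (rs K σ) R - R) := by
        rw [← h1]; abel
      rw [h6]
      abel
  have hloc1 : ∀ v : HeightOneSpectrum k'[X],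
      (a ^ 3 - 27 * b).map (algebraMap k k') ∉ v.asIdeal → p3 v a1 = 0 := by
    intro v hv
    refine tr v (3 * a) (a ^ 3 - 27 * b) a1 hv ?_
    rw [h3a, hdK]
    exact loc1 hE (isE h3K hbK0 hdK0 (Sep (Comp k'[X] F v))) hz hzdef.symm hf1 (hf1l.1 v) n1 e1 k1
  have hinv1 := inv1 hE hz hzσ hbs hds hpres hf1 hi1 n1 e1 k1
  have hfix1 : ∀ τ : Sep F ≃ₐ[K] Sep F, ∃ (u : F) (e j : ℕ), u ≠ 0 ∧ (e = 1 ∨ e = 2) ∧
      τ (algebraMap F (Sep F) a1) = algebraMap F (Sep F)
        (u ^ 3 * (a1 ^ e * (algebraMap K F (algebraMap k[X] K (a ^ 3 - 27 * b))) ^ j)) := by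
    intro τ
    rcases hinv1 τ with ⟨-, u, j, hu, h⟩ | ⟨-, u, j, hu, h⟩
    · exact ⟨u, 1, j, hu, Or.inl rfl, by rw [pow_one, hdK]; exact h⟩
    · exact ⟨u, 2, j, hu, Or.inr rfl, by rw [hdK]; exact h⟩
  -- the point of the second step
  obtain ⟨H, t, c1, Q, ht0, gQ, hQ, htc, hφ⟩ : ∃ (H : Pt (crv3 aK bK) (Sep F)) (t : Sep F) (c1 : F)
      (Q : Pt (crv3 aK bK) K), t ≠ 0 ∧ GB Q ∧ H + H + H = act (crv3 aK bK) (incl K K (Sep F)) Q ∧
      t1 ^ 3 = algebraMap F (Sep F) c1 ^ 3 * t ^ 3 ∧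
      ∀ σ : Sep F ≃ₐ[F] Sep F, InT hE (act (crv3 aK bK) (rs K σ) H - H) ∧
        σ t = he z (algebraMap K (Sep F) bK) (act (crv3 aK bK) (rs K σ) H - H) * t := by
    by_cases hω : ∃ x : k, x ^ 2 + x + 1 = 0
    · obtain ⟨x, hx⟩ := hω
      -- `zk` is in `k`
      obtain ⟨y, hy, hyz⟩ : ∃ y : k, y ^ 2 + y + 1 = 0 ∧ algebraMap k k' y = zk := by
        have hx' : algebraMap k k' x ^ 2 + algebraMap k k' x + 1 = 0 := by
          rw [← map_pow, ← map_add, ← map_one (algebraMap k k'), ← map_add, hx, map_zero]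
        rcases cube_cases hx' (z3 hzk) with h | h | h
        · exact absurd h (z_ne_one hzk h3')
        · exact ⟨x, hx, h.symm⟩
        · exact ⟨x ^ 2, z_sq hx, by rw [map_pow]; exact h.symm⟩
      set zK : K := algebraMap k[X] K (C y) with hzKdef
      have hzKe : algebraMap K (Sep F) zK = z := by
        rw [IsScalarTower.algebraMap_apply K F (Sep F), hzKdef, hKF, map_C, hyz]
      have hzK : zK ^ 2 + zK + 1 = 0 := by
        rw [hzKdef, ← map_pow, ← map_add, ← map_one (algebraMap k[X] K), ← map_add, ← C_pow,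
          ← C_add, ← C_1, ← C_add, hy, C_0, map_zero]
      obtain ⟨B, hB0, hB1, cB, hcB, rB⟩ := glob_A (Ω := Sep F) hKF h3 hd hsd htd ha1 hloc1 hfix1
      have oB' := oB.resolve_left (fun h => h x hx)
      obtain ⟨H, t, c, Q, ht0, hc0, gQ, hQ, hBt, hHφ⟩ := oB' zK hzK B hB0 hB1 (fun hdn => by
        refine deg_of_inf hKF hB0 hcB rB (trInf (p := 3 * a) hKF ?_ hd hdn ?_)
        · have e4 : (3 : k[X]) = C 3 := rfl
          rw [e4]
          exact (natDegree_C_mul_le _ _).trans han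
        · rw [h3a, hdK]
          exact loc1 hE (isE h3K hbK0 hdK0 (Sep (CompInf k' F))) hz hzdef.symm hf1 hf1l.2 n1 e1 k1)
        hE
      rw [hzKe] at hHφ
      refine ⟨H, t, cB * c, Q, ht0, gQ, hQ, ?_, fun σ => hHφ (rs K σ)⟩
      rw [e1, rB, map_mul, hBt, map_pow, map_mul]
      ring
    · push Not at hω
      -- an automorphism which moves the cube root of unity
      obtain ⟨s, hs⟩ : ∃ s : k' ≃ₐ[k] k', s zk ≠ zk := by
        by_contra hcon
        push Not at hcon
        obtain ⟨y, hy⟩ := (InfiniteGalois.mem_range_algebraMap_iff_fixed zk).2 hcon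
        apply hω y
        apply (algebraMap k k').injective
        rw [map_add, map_add, map_pow, hy, map_one, map_zero]
        exact hzk
      obtain ⟨τ, hτ⟩ := Pool.Agent.TH115.GD.lift (Ω := Sep F) hKF s
      have hτz : τ z ≠ z := by
        rw [hzdef, hzFdef, hτ, map_C]
        intro h
        apply hs
        have h1 := (algebraMap F (Sep F)).injective h
        have h2 := IsFractionRing.injective k'[X] F h1
        exact C_injective h2
      have htw : ∃ (τ : Sep F ≃ₐ[K] Sep F) (u : F) (j : ℕ), u ≠ 0 ∧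
          τ (algebraMap F (Sep F) a1) = algebraMap F (Sep F)
          (u ^ 3 * (a1 ^ 2 * (algebraMap K F (algebraMap k[X] K (a ^ 3 - 27 * b))) ^ j)) := by
        rcases hinv1 τ with ⟨h, -⟩ | ⟨-, u, j, hu, h⟩
        · exact absurd h hτz
        · exact ⟨τ, u, j, hu, by rw [hdK]; exact h⟩
      obtain ⟨cB, i, hcB, rB⟩ := glob_B (Ω := Sep F) hKF h3 hd hsd htd ha1 hloc1 hfix1 htw
      obtain ⟨S, hS3, hSw, hSn⟩ := exists_S hE hz
      obtain ⟨-, hcube, hne⟩ := tor_val hE hS3 hSn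
      rw [hSw] at hcube hne
      have hcob := fun σ : Sep F ≃ₐ[F] Sep F => tor_cob hE hz hzσ hS3 σ
      refine ⟨i • S, (-(he z (algebraMap K (Sep F) bK) S)) ^ i, cB, 0,
        pow_ne_zero i (neg_ne_zero.2 hne), GB0, ?_, ?_, fun σ => ?_⟩
      · rw [map_zero, ← e3, smul_comm, e3, hS3, smul_zero]
      · rw [e1, rB, hdK, ← pow_mul, mul_comm i 3, pow_mul]
        have e : (-(he z (algebraMap K (Sep F) bK) S)) ^ 3 =
            algebraMap K (Sep F) (aK ^ 3 - 27 * bK) := by
          have : (-(he z (algebraMap K (Sep F) bK) S)) ^ 3 =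
            -(he z (algebraMap K (Sep F) bK) S ^ 3) := by ring
          rw [this, hcube, neg_neg]
        rw [e, IsScalarTower.algebraMap_apply K F (Sep F)]
        simp only [map_mul, map_pow]
      · obtain ⟨h7, h8⟩ := mult_S' hE hz (hcob σ) i
        refine ⟨h7, ?_⟩
        have h9 : σ (he z (algebraMap K (Sep F) bK) S) =
            he z (algebraMap K (Sep F) bK) (act (crv3 aK bK) (rs K σ) S - S) *
              he z (algebraMap K (Sep F) bK) S := he_rs hE hz (φ := rs K σ) (hzσ σ) (hcob σ)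
        rw [h8, map_pow, map_neg, h9]
        ring
  have hfin := stp1 hE hz hzσ hf1 n1 k1 (H := H) (t := t) hφ (c1 := c1) htc
  refine ⟨PA, Q, HA + H, gA, gQ, ?_, fun σ => ?_⟩
  · rw [smul_add, e3, e3, hHA, hQ, map_add]
  · have h5 : f σ - (act (crv3 aK bK) (rs K σ) HA - HA) = act (crv3 aK bK) (rs K σ) H - H :=
      hfin σ
    rw [sub_eq_iff_eq_add] at h5
    rw [h5, map_add]
    abel

end main

end Pool.Agent.N181.T3
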