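import Pool.Agent.N181.T3.Res

/-!
Translation by points of order three.
-/

set_option autoImplicit false
set_option linter.all false

open WeierstrassCurve WeierstrassCurve.Affine

namespace Pool.Agent.N181.T3

variable {F : Type*} [Field F] {W : Affine F} {a b z u v w : F}

theorem Co.res (hz : z ^ 2 + z + 1 = 0) {P : W.Point} (hP : Co a b P u v w) :
    a ^ 3 + ra z u v w ^ 3 + rb z u v w ^ 3 - 3 * a * (ra z u v w * rb z u v w) = 27 * b := by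
  have := prod_res hz u v w
  rw [hP.sum, hP.prod] at this
  exact this

theorem res_ne (hz : z ^ 2 + z + 1 = 0) (hq : qq u v w ≠ 0) :
    ra z u v w ≠ 0 ∧ rb z u v w ≠ 0 := by
  rw [← ra_mul_rb hz] at hq
  exact ⟨left_ne_zero_of_mul hq, right_ne_zero_of_mul hq⟩

theorem rb_ne (h : IsE W a b) (hz : z ^ 2 + z + 1 = 0) {S : W.Point} (hS : Co a b S u v w)
    (h0 : ra z u v w = 0) : rb z u v w ≠ 0 := by
  intro h1
  have := hS.res hz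
  rw [h0, h1] at this
  apply h.ned
  linear_combination this

/-- The value of `q` is determined by the coordinate `v`. -/
theorem Co.qv {P : W.Point} (hP : Co a b P u v w) :
    v * qq u v w = v * a ^ 2 - 3 * (v ^ 2 * (a - v) + b) := by
  rw [← hP.sum, ← hP.prod]
  unfold qq
  ring

variable [DecidableEq F]

/-- Translation by a point of order three. -/
theorem Co.add_tor (h : IsE W a b) (hz : z ^ 2 + z + 1 = 0) {P S : W.Point} (hP : Co a b P u v w)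
    {u0 v0 w0 : F} (hS : Co a b S u0 v0 w0) (hq : qq u v w ≠ 0) (h0 : ra z u0 v0 w0 = 0) :
    ∃ u' v' w', Co a b (P + S) u' v' w' ∧
      ra z u' v' w' = z ^ 2 * rb z u0 v0 w0 ^ 2 / rb z u v w ∧
      rb z u' v' w' = -(z * rb z u0 v0 w0 * ra z u v w) / rb z u v w := by
  obtain ⟨hA, hB⟩ := res_ne hz hq
  obtain ⟨e1, e2, e3⟩ := of_res hz u v w
  obtain ⟨f1, f2, f3⟩ := of_res hz u0 v0 w0
  have hrel1 := hP.res hz
  have hrel2 := hS.res hz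
  have hr : rb z u0 v0 w0 ≠ 0 := rb_ne h hz hS h0
  have hqS : qq u0 v0 w0 = 0 := by rw [← ra_mul_rb hz, h0, zero_mul]
  obtain ⟨u', v', w', hsum, hra, hrb⟩ := exists_res hz h.three a
    (z ^ 2 * rb z u0 v0 w0 ^ 2 / rb z u v w) (-(z * rb z u0 v0 w0 * ra z u v w) / rb z u v w)
  obtain ⟨g1, g2, g3⟩ := of_res hz u' v' w'
  have hprod := prod_res hz u' v' w'
  rw [hra, hrb, hsum] at g1 g2 g3 hprod
  rw [hP.sum] at e1 e2 e3
  rw [hS.sum, h0] at f1 f2 f3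
  rw [h0] at hrel2
  refine ⟨u', v', w', ?_, hra, hrb⟩
  clear hra hrb
  set A := ra z u v w with hAdef
  set B := rb z u v w with hBdef
  set r := rb z u0 v0 w0 with hrdef
  have h3 := h.three
  have h27 : (27 : F) ≠ 0 := by
    have : (27 : F) = 3 ^ 3 := by norm_num
    rw [this]; exact pow_ne_zero 3 h3
  have hrel : r ^ 3 = A ^ 3 + B ^ 3 - 3 * a * (A * B) := by linear_combination hrel2 - hrel1
  have Bu : B * (3 * u') = a * B + z ^ 2 * r ^ 2 - z * r * A := by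
    rw [g1]; field_simp
    try ring
  have Bv : B * (3 * v') = a * B + z ^ 2 * (z ^ 2 * r ^ 2) - z * (z * r * A) := by
    rw [g2]; field_simp
    try ring
  have Bw : B * (3 * w') = a * B + z * (z ^ 2 * r ^ 2) - z ^ 2 * (z * r * A) := by
    rw [g3]; field_simp
    try ring
  have hpr : u' * v' * w' = b := by
    apply mul_left_cancel₀ h27
    rw [← hprod, ← hrel2]
    field_simp
    linear_combination (r ^ 6 * z ^ 4 - r ^ 6 * z ^ 3 + 3 * A * B * a * r ^ 3 * z - A ^ 3 * r ^ 3 * z + r ^ 6 * z - 3 * A * B * a * r ^ 3 + A ^ 3 * r ^ 3 - r ^ 6) * hz + (r ^ 3) * hrel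
  have hvne : v ≠ v0 := by
    intro hv
    have q1 := hP.qv
    have q2 := hS.qv
    rw [hqS, mul_zero, ← hv, ← q1] at q2
    exact mul_ne_zero (hP.ne h).2.1 hq q2.symm
  refine Co.add_of h hP hS hvne (u3 := w') (v3 := v') (w3 := u') ?_ ?_ ?_ ?_
  · rw [← hsum]; ring
  · rw [← hpr]; ring
  · apply mul_left_cancel₀ (mul_ne_zero (mul_ne_zero h3 h3) hB)
    rw [← sub_eq_zero]
    calc 3 * 3 * B * ((u - u0) * (v' - v0)) - 3 * 3 * B * ((w' - u0) * (v - v0)) =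
        (3 * u - 3 * u0) * (B * (3 * v') - B * (3 * v0)) -
          (B * (3 * w') - B * (3 * u0)) * (3 * v - 3 * v0) := by ring
      _ = 0 := by
        rw [e1, e2, f1, f2, Bv, Bw]
        linear_combination (-A * r ^ 2 * z ^ 3 + A ^ 2 * r * z ^ 3 + A * B * r * z ^ 2 + A * r ^ 2 * z ^ 2 - A ^ 2 * r * z ^ 2 - A * B * r * z) * hz
  · have h9 : (3 : F) * 3 * 3 * 3 * B ≠ 0 :=
      mul_ne_zero (mul_ne_zero (mul_ne_zero (mul_ne_zero h3 h3) h3) h3) hB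
    apply mul_left_cancel₀ h9
    rw [← sub_eq_zero]
    have e4 : 3 * 3 * 3 * 3 * B * (v * v0 * v' * (u - u0) * (w - w0)) -
        3 * 3 * 3 * 3 * B * (b * (v - v0) ^ 2) =
        v * ((3 * v0) * (B * (3 * v')) * (3 * u - 3 * u0) * (3 * w - 3 * w0) -
          B * (3 * u) * (3 * w) * (3 * v - 3 * v0) ^ 2) := by
      rw [← hP.prod]; ring
    rw [e4, e1, e2, e3, f1, f2, f3, Bv]
    have e5 : (a + 0 * 0 + 0 : F) = a := by ring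
    have key : (a + z ^ 2 * 0 + z * r) * (a * B + z ^ 2 * (z ^ 2 * r ^ 2) - z * (z * r * A)) *
        (a + A + B - (a + 0 + r)) * (a + z * A + z ^ 2 * B - (a + z * 0 + z ^ 2 * r)) -
        B * (a + A + B) * (a + z * A + z ^ 2 * B) *
          (a + z ^ 2 * A + z * B - (a + z ^ 2 * 0 + z * r)) ^ 2 = 0 := by
      linear_combination (A * B * r ^ 3 * z ^ 5 - A * r ^ 4 * z ^ 5 - 2 * B * r ^ 4 * z ^ 5 + B ^ 2 * r ^ 3 * z ^ 5 + r ^ 5 * z ^ 5 + A * B * a * r ^ 2 * z ^ 4 - A * a * r ^ 3 * z ^ 4 - A ^ 2 * B ^ 2 * a * z ^ 4 - A ^ 2 * B ^ 3 * z ^ 4 + A ^ 2 * r ^ 3 * z ^ 4 - A ^ 3 * B ^ 2 * z ^ 4 - 2 * B * a * r ^ 3 * z ^ 4 + 2 * B * r ^ 4 * z ^ 4 + B ^ 2 * a * r ^ 2 * z ^ 4 - B ^ 2 * r ^ 3 * z ^ 4 + a * r ^ 4 * z ^ 4 - r ^ 5 * z ^ 4 + A * B * r ^ 3 * z ^ 3 + 2 * A * B ^ 2 * a * r * z ^ 3 - A * B ^ 2 * r ^ 2 * z ^ 3 - 2 * A * B ^ 3 * a * z ^ 3 + 2 *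 A * B ^ 3 * r * z ^ 3 - 2 * A * B ^ 4 * z ^ 3 - A ^ 2 * B * r ^ 2 * z ^ 3 + A ^ 2 * B ^ 2 * a * z ^ 3 + 2 * A ^ 2 * B ^ 2 * r * z ^ 3 - A ^ 2 * B ^ 3 * z ^ 3 + A ^ 2 * a * r ^ 2 * z ^ 3 - A ^ 3 * B * a * z ^ 3 - A ^ 4 * B * z ^ 3 + 2 * B * a * r ^ 3 * z ^ 3 - B ^ 2 * a * r ^ 2 * z ^ 3 - a * r ^ 4 * z ^ 3 + A * B * a * r ^ 2 * z ^ 2 - A * B * r ^ 3 * z ^ 2 - 3 * A * B ^ 2 * a * r * z ^ 2 + 2 * A * B ^ 3 * a * z ^ 2 + A * B ^ 4 * z ^ 2 + A ^ 2 * B * a * r * z ^ 2 - A ^ 2 * B * a ^ 2 * z ^ 2 - 3 * A ^ 2 * B ^ 2 * a * z ^ 2 + 2 * A ^ 3 * B * r * z ^ 2 - A ^ 3 * B ^ 2 * z ^ 2 - A ^ 3 * r ^ 2 * z ^ 2 + A ^ 4 * B * z ^ 2 - 2 * B * r ^ 4 * z ^ 2 - B ^ 2 * a * r ^ 2 * z ^ 2 + B ^ 2 * r ^ 3 * z ^ 2 + 2 * B ^ 3 * a * r * z ^ 2 - B ^ 3 * r ^ 2 * z ^ 2 - B ^ 4 * a * z ^ 2 + 2 * B ^ 4 * r * z ^ 2 - B ^ 5 * z ^ 2 + r ^ 5 * z ^ 2 - 3 * A * B * a * r ^ 2 *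 z + 2 * A * B * a ^ 2 * r * z + 6 * A * B ^ 2 * a * r * z - 2 * A * B ^ 2 * a ^ 2 * z - 3 * A * B ^ 3 * a * z + A ^ 2 * B * a ^ 2 * z + A ^ 3 * B * a * z - 2 * A ^ 3 * B * r * z + A ^ 3 * B ^ 2 * z - A ^ 3 * a * r * z + A ^ 3 * r ^ 2 * z - B * a * r ^ 3 * z + 2 * B * r ^ 4 * z - B ^ 2 * r ^ 3 * z - B ^ 3 * a * r * z + B ^ 3 * r ^ 2 * z + B ^ 4 * a * z - 2 * B ^ 4 * r * z + B ^ 5 * z + a * r ^ 4 * z - r ^ 5 * z - 3 * A * B * a ^ 2 * r + A * B * r ^ 3 + 3 * A * B ^ 2 * a ^ 2 - A * B ^ 4 + 3 * A ^ 2 * B ^ 2 * a - A ^ 3 * B * a + A ^ 3 * a * r - A ^ 4 * B + B * a * r ^ 3 + B ^ 3 * a * r - B ^ 4 * a - a * r ^ 4) * hz + (-A * B * z - 2 * B * r * z + B ^ 2 * z + r ^ 2 * z - A * B - B * a + a * r) * hrel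
    rw [key, mul_zero]

end Pool.Agent.N181.T3
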