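import Pool.Agent.N181.T3.Curve

/-!
The triple of a point.
-/

set_option autoImplicit false
set_option linter.all false

open WeierstrassCurve WeierstrassCurve.Affine

namespace Pool.Agent.N181.T3

section poly

variable {F : Type*} [Field F]

/-- The quadratic form. -/
def qq (u v w : F) : F := u ^ 2 + v ^ 2 + w ^ 2 - u * v - u * w - v * w

/-- The function `g`. -/
def gg (u v w : F) : F := (u ^ 2 * w + v ^ 2 * u + w ^ 2 * v - 3 * (u * v * w)) / qq u v w

/-- The function `g'`. -/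
def gt (u v w : F) : F := -(u ^ 2 * v + v ^ 2 * w + w ^ 2 * u - 3 * (u * v * w)) / qq u v w

theorem qq_cyc (u v w : F) : qq v w u = qq u v w := by unfold qq; ring

theorem qq_rev (u v w : F) : qq w v u = qq u v w := by unfold qq; ring

theorem gg_cyc (u v w : F) : gg v w u = gg u v w := by
  unfold gg; rw [qq_cyc]; congr 1; ring

theorem gt_cyc (u v w : F) : gt v w u = gt u v w := by
  unfold gt; rw [qq_cyc]; congr 1; ring

theorem gg_rev (u v w : F) : gg w v u = -gt u v w := by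
  unfold gg gt; rw [qq_rev]; ring

theorem gt_rev (u v w : F) : gt w v u = -gg u v w := by
  unfold gg gt; rw [qq_rev]; ring

theorem gt_cube {u v w : F} (hq : qq u v w ≠ 0) :
    gt u v w ^ 3 = gg u v w ^ 3 + (u + v + w) * (gg u v w * gt u v w) + u * v * w := by
  unfold gg gt
  field_simp
  unfold qq
  ring

end poly

variable {F : Type*} [Field F] {W : Affine F} {a b u v w : F} [DecidableEq F]

theorem Co.tri_aux (h : IsE W a b) {P : W.Point} (hP : Co a b P u v w) (hne : u ≠ w)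
    (hq : qq u v w ≠ 0) :
    ∃ hn, P + P + P = Point.some (gg u v w * gt u v w) (gg u v w ^ 3) hn := by
  obtain ⟨hu, hv, hw⟩ := hP.ne h
  obtain ⟨x2, y2, hn2, hx2, hy2, h2⟩ : ∃ (x2 y2 : F) (hn2 : W.Nonsingular x2 y2),
      x2 = -(u * w * (v - w) * (u - v)) / (w - u) ^ 2 ∧
      y2 = u * w ^ 2 * (u - v) ^ 3 / (w - u) ^ 3 ∧ P + P = Point.some x2 y2 hn2 := by
    obtain ⟨hn2, h2⟩ := hP.dbl h hne
    exact ⟨_, _, hn2, rfl, rfl, h2⟩
  rw [h2]
  obtain ⟨hn, rfl⟩ := hP.eq
  have hd : w - u ≠ 0 := sub_ne_zero.2 (Ne.symm hne)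
  have hxx : x2 - -(u * w) = u * w * qq u v w / (w - u) ^ 2 := by
    rw [hx2]; unfold qq; field_simp; ring
  have hxne : x2 ≠ -(u * w) := by
    rw [← sub_ne_zero, hxx]
    exact div_ne_zero (mul_ne_zero (mul_ne_zero hu hw) hq) (pow_ne_zero 2 hd)
  have hs : W.slope x2 (-(u * w)) y2 (u ^ 2 * w) =
      (w * (u - v) ^ 3 - u * (w - u) ^ 3) / ((w - u) * qq u v w) := by
    rw [slope_of_X_ne hxne, hxx, hy2]
    field_simp
  have e1 : W.addX x2 (-(u * w)) (W.slope x2 (-(u * w)) y2 (u ^ 2 * w)) =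
      gg u v w * gt u v w := by
    rw [hs, addX, h.a1, h.a2, ← hP.sum, hx2]
    unfold gg gt
    field_simp
    unfold qq
    ring
  have e2 : W.addY x2 (-(u * w)) y2 (W.slope x2 (-(u * w)) y2 (u ^ 2 * w)) =
      gg u v w ^ 3 := by
    rw [addY, negAddY, e1, hs, h.negY, ← hP.sum, ← hP.prod, hx2, hy2]
    unfold gg gt
    field_simp
    unfold qq
    ring
  have hn' : W.Nonsingular (gg u v w * gt u v w) (gg u v w ^ 3) := by
    rw [← e1, ← e2]
    exact nonsingular_add hn2 hn fun hxy => hxne hxy.1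
  refine ⟨hn', ?_⟩
  rw [Point.add_of_X_ne hxne]
  simp only [e1, e2]

/-- The triple of a point. -/
theorem Co.tri (h : IsE W a b) {P : W.Point} (hP : Co a b P u v w) (hq : qq u v w ≠ 0) :
    ∃ hn, P + P + P = Point.some (gg u v w * gt u v w) (gg u v w ^ 3) hn := by
  by_cases hne : u = w
  · have h1 : v ≠ u := by
      rintro rfl
      apply hq
      rw [hne]; unfold qq; ring
    obtain ⟨hn, e⟩ := (hP.addT h).tri_aux h h1 (by rw [qq_cyc]; exact hq)
    have h2 : P + ptT h + (P + ptT h) + (P + ptT h) = P + P + P := by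
      have := TTT h
      calc P + ptT h + (P + ptT h) + (P + ptT h) = P + P + P + (ptT h + ptT h + ptT h) := by abel
        _ = _ := by rw [this, add_zero]
    rw [h2] at e
    rw [gg_cyc, gt_cyc] at hn
    simp only [gg_cyc, gt_cyc] at e
    exact ⟨hn, e⟩
  · exact hP.tri_aux h hne hq

/-- Points of order three. -/
theorem Co.three (h : IsE W a b) {P : W.Point} (hP : Co a b P u v w) :
    P + P + P = 0 ↔ qq u v w = 0 := by
  constructor
  · intro h3
    by_contra hq
    obtain ⟨hn, e⟩ := hP.tri h hq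
    rw [h3] at e
    exact Point.some_ne_zero _ e.symm
  · intro hq
    have hne : u ≠ w := by
      rintro rfl
      have h1 : (u - v) ^ 2 = 0 := by rw [← hq]; unfold qq; ring
      have h2 : u = v := by
        have := pow_eq_zero_iff (two_ne_zero) |>.1 h1
        linear_combination this
      apply h.ned
      rw [← hP.sum, ← hP.prod, h2]; ring
    obtain ⟨hn2, h2⟩ := hP.dbl h hne
    have hd : w - u ≠ 0 := sub_ne_zero.2 (Ne.symm hne)
    obtain ⟨hn3, h3⟩ := (hP.neg h).eq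
    have key : P + P = -P := by
      rw [h2, h3]
      have e0 : (v - w) * (u - v) = (w - u) ^ 2 := by
        have : (v - w) * (u - v) = (w - u) ^ 2 - qq u v w := by unfold qq; ring
        rw [this, hq, sub_zero]
      have e1 : -(u * w * (v - w) * (u - v)) / (w - u) ^ 2 = -(w * u) := by
        rw [div_eq_iff (pow_ne_zero _ hd)]
        linear_combination -(u * w) * e0
      have e2 : u * w ^ 2 * (u - v) ^ 3 / (w - u) ^ 3 = w ^ 2 * u := by
        have h4 : (u - v) ^ 3 - (w - u) ^ 3 = (2 * u - v - w) * qq u v w := by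
          unfold qq; ring
        rw [div_eq_iff (pow_ne_zero _ hd)]
        rw [hq, mul_zero] at h4
        linear_combination u * w ^ 2 * h4
      simp only [e1, e2]
    rw [key]
    exact neg_add_cancel P

/-- The sum of two points from the third point on the line. -/
theorem Co.add_of (h : IsE W a b) {P Q : W.Point} {u1 v1 w1 u2 v2 w2 u3 v3 w3 : F}
    (h1 : Co a b P u1 v1 w1) (h2 : Co a b Q u2 v2 w2) (hv : v1 ≠ v2)
    (h3 : u3 + v3 + w3 = a) (h3' : u3 * v3 * w3 = b)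
    (hc : (u1 - u2) * (v3 - v2) = (u3 - u2) * (v1 - v2))
    (hp : v1 * v2 * v3 * (u1 - u2) * (w1 - w2) = b * (v1 - v2) ^ 2) :
    Co a b (P + Q) w3 v3 u3 := by
  obtain ⟨hu1, hv1, hw1⟩ := h1.ne h
  obtain ⟨hu2, hv2, hw2⟩ := h2.ne h
  obtain ⟨hn1, rfl⟩ := h1.eq
  obtain ⟨hn2, rfl⟩ := h2.eq
  have hb := h.neb
  have hv3 : v3 ≠ 0 := by
    rintro rfl
    apply hb
    rw [← h3']; ring
  have hd : v1 - v2 ≠ 0 := sub_ne_zero.2 hv
  have g1 : w3 + v3 + u3 = a := by rw [← h3]; ring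
  have g2 : w3 * v3 * u3 = b := by rw [← h3']; ring
  refine ⟨g1, g2, h.nons g1 g2, ?_⟩
  have p1 := h1.prod
  have p2 := h2.prod
  have s1 := h1.sum
  have s2 := h2.sum
  have x1 : -(u1 * w1) = -b / v1 := by rw [← p1]; field_simp
  have x2 : -(u2 * w2) = -b / v2 := by rw [← p2]; field_simp
  have hxx : -(u1 * w1) - -(u2 * w2) = b * (v1 - v2) / (v1 * v2) := by
    rw [x1, x2]; field_simp; ring
  have hxne : -(u1 * w1) ≠ -(u2 * w2) := by
    rw [← sub_ne_zero, hxx]
    exact div_ne_zero (mul_ne_zero hb hd) (mul_ne_zero hv1 hv2)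
  have hs : W.slope (-(u1 * w1)) (-(u2 * w2)) (u1 ^ 2 * w1) (u2 ^ 2 * w2) =
      (u1 * v2 - u2 * v1) / (v1 - v2) := by
    rw [slope_of_X_ne hxne, hxx]
    have y1 : u1 ^ 2 * w1 = b * u1 / v1 := by rw [← p1]; field_simp
    have y2 : u2 ^ 2 * w2 = b * u2 / v2 := by rw [← p2]; field_simp
    rw [y1, y2]
    field_simp
  have hx3 : W.addX (-(u1 * w1)) (-(u2 * w2)) (W.slope (-(u1 * w1)) (-(u2 * w2)) (u1 ^ 2 * w1)
      (u2 ^ 2 * w2)) = -(w3 * u3) := by
    have e : W.addX (-(u1 * w1)) (-(u2 * w2)) (W.slope (-(u1 * w1)) (-(u2 * w2)) (u1 ^ 2 * w1)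
      (u2 ^ 2 * w2)) = -(v1 * v2 * (u1 - u2) * (w1 - w2)) / (v1 - v2) ^ 2 := by
      rw [hs, addX, h.a1, h.a2]
      have hw2' : w2 = u1 + v1 + w1 - u2 - v2 := by linear_combination s2 - s1
      rw [eq_div_iff (pow_ne_zero 2 hd)]
      have hrel : u1 * v1 * w1 - u2 * v2 * w2 = 0 := by rw [p1, p2, sub_self]
      rw [← s1]
      rw [hw2'] at hrel ⊢
      field_simp
      linear_combination (v1 - v2) * hrel
    rw [e]
    have e3 : -(w3 * u3) = -b / v3 := by rw [← h3']; field_simp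
    rw [e3, div_eq_div_iff (pow_ne_zero 2 hd) hv3]
    linear_combination -hp
  have hy3 : W.addY (-(u1 * w1)) (-(u2 * w2)) (u1 ^ 2 * w1) (W.slope (-(u1 * w1)) (-(u2 * w2))
      (u1 ^ 2 * w1) (u2 ^ 2 * w2)) = w3 ^ 2 * u3 := by
    rw [addY, negAddY, hx3, hs, h.negY]
    have e3 : (u1 * v2 - u2 * v1) / (v1 - v2) * (-(w3 * u3) - -(u1 * w1)) + u1 ^ 2 * w1 =
        u3 ^ 2 * w3 := by
      have q1 : u1 ^ 2 * w1 = u1 * b / v1 := by rw [← p1]; field_simp
      have q3 : u3 ^ 2 * w3 = u3 * b / v3 := by rw [← h3']; field_simp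
      have q3' : -(w3 * u3) = -b / v3 := by rw [← h3']; field_simp
      rw [q1, q3, q3', x1]
      field_simp
      linear_combination v1 * hc
    rw [e3, ← g1, ← g2]
    ring
  rw [Point.add_of_X_ne hxne]
  simp only [hx3, hy3]

end Pool.Agent.N181.T3
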